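import Pool.Agent.P.MP_ad771b_al.H.Iface

/-! Steps STEP, X, NUM, VB, KOS. -/

set_option autoImplicit false
set_option linter.unusedSectionVars false

namespace Pool.Agent.P.MP_ad771b_al.H

section sSTEP

open MvPolynomial Module Filter

attribute [local instance] MvPolynomial.gradedAlgebra

lemma step_a {K : Type*} [Field K] {r : ℕ} (C : Cfg K r) (i : Fin r) (μ : Fin r → ℕ) (D : ℕ)
    (U : Submodule K (S3 K)) (hU : U ≤ C.W (μ + Pi.single i 1) (D + C.c i))
    (hd : ∀ s ∈ U, C.q i ∣ s) : finrank K U ≤ finrank K (C.W μ D) := by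
  have h1 : U ≤ (C.W μ D).map (LinearMap.mulLeft K (C.q i)) := by
    intro s hs
    obtain ⟨s', rfl⟩ := hd s hs
    refine ⟨s', ?_, rfl⟩
    obtain ⟨hh, hP⟩ := mem_V.1 (hU hs)
    rcases eq_or_ne s' 0 with rfl | h0
    · exact zero_mem _
    have hq := (C.prime i).ne_zero
    refine mem_V.2 ⟨?_, fun P hPZ => ?_⟩
    · obtain ⟨a, b, ha, hb, hab⟩ := hom_factor hh (mul_ne_zero hq h0)
      have := ha.inj_right (C.hom i) hq
      obtain rfl : b = D := by omega
      exact hb
    · have hs' := hP P hPZ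
      rcases h : μ (C.κ P) with _ | a
      · simp
      by_contra hn
      by_cases e : C.κ P = i
      · have := (C.pt P hPZ).mul_notMem (a := 1) (b := a) (C.sm P hPZ i) hn
        apply this
        simp only [Pi.add_apply, h] at hs'
        rw [e, Pi.single_eq_same] at hs'
        rwa [add_comm 1 a]
      · have := (C.pt P hPZ).mul_notMem (a := 0) (b := a)
          (by rw [zero_add, pow_one]; exact fun h' => e ((C.mem P hPZ i).1 h')) hn
        apply this
        simp only [Pi.add_apply, h] at hs'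
        rw [Pi.single_eq_of_ne e] at hs'
        rwa [zero_add]
  exact (Submodule.finrank_mono h1).trans (Submodule.finrank_map_le _ _)

lemma step_b {K : Type*} [Field K] (hJ0 : S_J0 K) (N : ℕ) (W : Submodule K (S3 K))
    (hW : ∀ s ∈ W, s.IsHomogeneous N) (T : Finset (Ideal (S3 K))) (hT : Pts T) :
    ∃ U : Submodule K (S3 K), U ≤ W ∧ (∀ s ∈ U, ∀ P ∈ T, s ∈ P) ∧
      finrank K W ≤ finrank K U + T.card := by
  classical
  induction T using Finset.induction_on with
  | empty => exact ⟨W, le_rfl, by simp, by simp⟩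
  | insert P T hP ih =>
    obtain ⟨U, h1, h2, h3⟩ := ih fun Q hQ => hT Q (Finset.mem_insert_of_mem hQ)
    have h4 := hJ0 P 0 N U (hT P (Finset.mem_insert_self _ _))
      fun s hs => ⟨hW s (h1 hs), by simp⟩
    refine ⟨U ⊓ (P ^ (0 + 1)).restrictScalars K, inf_le_left.trans h1, fun s hs Q hQ => ?_, ?_⟩
    · rcases Finset.mem_insert.1 hQ with rfl | hQ
      · simpa using hs.2
      · exact h2 s hs.1 Q hQ
    · rw [Finset.card_insert_of_notMem hP]
      omega

theorem p_STEP (K : Type*) [Field K] (hJ0 : S_J0 K) (hBEZ : S_BEZ K) (hNEW : S_NEW K) :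
    S_STEP K := by
  classical
  intro hK r C i μ D
  refine ⟨step_a C i μ D, fun t ht => ?_⟩
  obtain ⟨T, hc, hT, hdis, hq⟩ := hNEW hK (C.q i) (C.c i) C.Z t (C.prime i) (C.hom i) C.pt
  obtain ⟨U, h1, h2, h3⟩ := step_b hJ0 (D + C.c i) (C.W (μ + Pi.single i 1) (D + C.c i))
    (fun s hs => (mem_V.1 hs).1) T hT
  refine h3.trans (hc ▸ Nat.add_le_add_right (step_a C i μ D U h1 fun s hs => ?_) _)
  by_contra hn
  have h0 : s ≠ 0 := by
    rintro rfl
    exact hn (dvd_zero _)
  obtain ⟨hh, hP⟩ := mem_V.1 (h1 hs)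
  have hd2 : Disjoint (C.Z.filter fun P => C.κ P = i) T :=
    hdis.symm.mono_left (Finset.filter_subset _ _)
  have key := hBEZ ((C.Z.filter fun P => C.κ P = i) ∪ T) (fun P => if P ∈ T then 1 else μ i + 1)
    (C.q i) s (C.c i) (D + C.c i) ?_ (C.prime i).ne_zero h0 (C.hom i) hh
    ((C.prime i).irreducible.isRelPrime_iff_not_dvd.2 hn) ?_
  · rw [Finset.sum_union hd2, Finset.sum_congr rfl (g := fun _ => μ i + 1)
      fun P hP => if_neg (Finset.disjoint_left.1 hd2 hP),
      Finset.sum_congr (s₁ := T) rfl (g := fun _ => 1) fun P hP => if_pos hP] at key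
    simp only [Finset.sum_const, smul_eq_mul, mul_one, hc] at key
    rw [Cfg.z] at ht
    lia
  · intro P hP
    rcases Finset.mem_union.1 hP with h | h
    · exact C.pt P (Finset.mem_filter.1 h).1
    · exact hT P h
  · intro P hP'
    rcases Finset.mem_union.1 hP' with h | h
    · obtain ⟨hZ, e⟩ := Finset.mem_filter.1 h
      refine ⟨(C.mem P hZ i).2 e, ?_⟩
      have := hP P hZ
      simp only [Pi.add_apply, e, Pi.single_eq_same] at this
      rwa [if_neg (Finset.disjoint_left.1 hd2 h)]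
    · refine ⟨hq P h, ?_⟩
      rw [if_pos h, pow_one]
      exact h2 s hs P h

end sSTEP

section sX

open MvPolynomial Module Filter

attribute [local instance] MvPolynomial.gradedAlgebra

lemma x_path {r : ℕ} (g : (Fin r → ℕ) → ℤ) (ρ : Fin r → ℕ) (E : ℤ)
    (h : ∀ ν j, ν + Pi.single j 1 ≤ ρ → g (ν + Pi.single j 1) ≤ g ν + E) (n : ℕ) :
    ∀ ν, ∑ j, ν j = n → ν ≤ ρ → g ν ≤ g 0 + E * n := by
  induction n with
  | zero =>
    intro ν h1 _
    rw [show ν = 0 from funext fun j => Finset.sum_eq_zero_iff.1 h1 j (Finset.mem_univ j)]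
    simp
  | succ n ih =>
    intro ν h1 h2
    obtain ⟨j, -, hj⟩ := Finset.exists_ne_zero_of_sum_ne_zero (h1.trans_ne n.succ_ne_zero)
    obtain ⟨ν, rfl⟩ := exists_add_of_le (show Pi.single j 1 ≤ ν from
      update_le_iff.2 ⟨Nat.one_le_iff_ne_zero.2 hj, fun _ _ => Nat.zero_le _⟩)
    rw [add_comm] at h1 h2 ⊢
    have := ih ν (by simpa [Finset.sum_add_distrib] using h1) (le_self_add.trans h2)
    have := h ν j h2
    push_cast
    linarith

section

variable {K : Type*} [Field K] {r : ℕ} (C : Cfg K r)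

lemma x_dg (μ : Fin r → ℕ) (j : Fin r) (m : ℕ) :
    C.dg (μ + Pi.single j m) = C.dg μ + m * C.c j := by
  simp [Cfg.dg, add_mul, Finset.sum_add_distrib, Pi.single_apply]

lemma x_dg' (a : ℕ) (ρ ν : Fin r → ℕ) : C.dg (a • ρ + ν) = a * C.dg ρ + C.dg ν := by
  simp [Cfg.dg, add_mul, Finset.sum_add_distrib, Finset.mul_sum, mul_assoc]

/-- The number of conditions, doubled. -/
def x_n (μ : Fin r → ℕ) : ℕ := ∑ j, C.z j * (μ j * (μ j + 1))

lemma x_n_add (μ : Fin r → ℕ) (j : Fin r) :
    x_n C (μ + Pi.single j 1) = x_n C μ + 2 * ((μ j + 1) * C.z j) := by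
  rw [x_n, x_n, ← Finset.add_sum_erase _ _ (Finset.mem_univ j),
    ← Finset.add_sum_erase _ _ (Finset.mem_univ j), Finset.sum_congr rfl fun l hl => by
      rw [Pi.add_apply, Pi.single_eq_of_ne (Finset.ne_of_mem_erase hl), add_zero]]
  rw [Pi.add_apply, Pi.single_eq_same]
  ring

/-- Twice the excess of the dimension over the expected one. -/
noncomputable def x_h (T : ℕ) (μ : Fin r → ℕ) : ℤ :=
  2 * finrank K (C.W μ (T + C.dg μ)) + x_n C μ - (T + C.dg μ + 2) * (T + C.dg μ + 1)

lemma x_step (T : ℕ) (μ : Fin r → ℕ) (j : Fin r) (t : ℕ)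
    (h : finrank K (C.W (μ + Pi.single j 1) (T + C.dg μ + C.c j)) ≤
      finrank K (C.W μ (T + C.dg μ)) + t) :
    x_h C T (μ + Pi.single j 1) ≤ x_h C T μ + 2 * t + 2 * ((μ j + 1) * C.z j) + C.c j ^ 2 -
      2 * ((T + C.dg μ + C.c j) * C.c j) := by
  rw [x_h, x_h, x_n_add, x_dg, one_mul, ← add_assoc]
  zify at h
  push_cast
  lia

end

theorem p_X (K : Type*) [Field K] (hDIM : S_DIM K) (hJ1 : S_J1 K) (hSTEP : S_STEP K) :
    S_X K := by
  intro hK r C ρ τ i h1 h2
  have h0 : ∀ T μ, 0 ≤ x_h C T μ := fun T μ => by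
    have := hJ1 C.Z (fun P => μ (C.κ P)) (T + C.dg μ) C.pt
    rw [← Finset.sum_fiberwise' C.Z C.κ fun j => μ j * (μ j + 1)] at this
    simp only [Finset.sum_const, smul_eq_mul] at this
    rw [x_h, sub_nonneg]
    exact_mod_cast this
  have hz : ∀ T, x_h C T 0 = 0 := fun T => by
    have e : C.W 0 T = homogeneousSubmodule (Fin 3) K T := by
      ext s
      simp [mem_V]
    have e' : C.dg 0 = 0 := by simp [Cfg.dg]
    rw [x_h, e', add_zero, e, sub_eq_zero]
    simpa [x_n] using congrArg (Nat.cast : ℕ → ℤ) (hDIM T)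
  obtain ⟨E, hE⟩ : ∃ E : ℕ, ∀ j, 2 + 2 * (ρ j * C.z j) + C.c j ^ 2 ≤ E :=
    ⟨_, fun j => Finset.single_le_sum (f := fun j => 2 + 2 * (ρ j * C.z j) + C.c j ^ 2)
      (fun _ _ => Nat.zero_le _) (Finset.mem_univ j)⟩
  obtain ⟨M, hM⟩ : ∃ M, M = E * ∑ j, ρ j + 1 := ⟨_, rfl⟩
  obtain ⟨k, hk⟩ : ∃ k, k = M * (2 * (M * C.z i) + C.c i ^ 2) + 1 := ⟨_, rfl⟩
  have h3 : ∀ a ≤ k, x_h C (k * τ) (a • ρ) ≤ a * (E * ∑ j, ρ j : ℕ) := fun a => by
    induction a with
    | zero => simp [hz]
    | succ a ih =>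
      intro ha
      have := x_path (fun ν => x_h C (k * τ) (a • ρ + ν)) ρ E (fun ν j hj => ?_) _ ρ rfl le_rfl
      · have := ih (by omega)
        rw [succ_nsmul]
        simp only [add_zero] at *
        push_cast at *
        linarith
      have e1 : ν j + 1 ≤ ρ j := by simpa using hj j
      have e2 : ((a • ρ + ν) j + 1) * C.z j ≤
          (k * τ + C.dg (a • ρ + ν) + C.c j) * C.c j + ρ j * C.z j := by
        have e3 := Nat.mul_le_mul_left a (h1 j)
        have e4 : a * (τ + C.dg ρ) ≤ k * τ + C.dg (a • ρ + ν) + C.c j := by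
          rw [x_dg', mul_add]
          have := Nat.mul_le_mul_right τ (Nat.le_of_succ_le ha)
          omega
        have e5 := Nat.mul_le_mul_right (C.c j) e4
        have e6 := Nat.mul_le_mul_right (C.z j) e1
        rw [Pi.add_apply, Pi.smul_apply, smul_eq_mul]
        lia
      obtain ⟨t, ht⟩ := exists_add_of_le e2
      have := x_step C (k * τ) (a • ρ + ν) j (t + 1) ((hSTEP hK r C j _ _).2 _ (by omega))
      have e7 := hE j
      rw [← add_assoc]
      zify at ht e7
      push_cast at this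
      linarith
  by_contra hc
  push Not at hc
  have h4 : ∀ m ≤ M, x_h C (k * τ) (k • ρ + Pi.single i m) ≤ x_h C (k * τ) (k • ρ) -
      m * (2 * k - 2 * (M * C.z i) - C.c i ^ 2) := fun m => by
    induction m with
    | zero => simp
    | succ m ih =>
      intro hm
      have := ih (by omega)
      have e1 := x_step C (k * τ) (k • ρ + Pi.single i m) i 0
        ((hSTEP hK r C i _ _).1 _ le_rfl fun s hs => by
          by_contra hq
          refine hc k (m + 1) s m.succ_pos hq ?_
          rwa [Pi.single_add, ← add_assoc, x_dg, one_mul, ← add_assoc])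
      have e2 := Nat.mul_le_mul_left k (Nat.succ_le_of_lt h2)
      have e3 := Nat.mul_le_mul_right (C.z i) hm
      have e4 : C.dg (k • ρ) = k * C.dg ρ := by simpa [Cfg.dg] using x_dg' C k ρ 0
      rw [x_dg, e4, Pi.add_apply, Pi.single_eq_same, Pi.smul_apply, smul_eq_mul] at e1
      rw [Pi.single_add, ← add_assoc]
      zify at e2 e3
      push_cast at e1 ⊢
      lia
  have h5 := (h0 _ _).trans (h4 M le_rfl)
  have h6 := h3 k le_rfl
  obtain ⟨X, hX⟩ : ∃ X, X = E * ∑ j, ρ j := ⟨_, rfl⟩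
  rw [← hX] at hM h6
  zify at hM hk
  nlinarith [Int.natCast_nonneg (k * M)]

end sX

section sNUM

open MvPolynomial Module Filter

attribute [local instance] MvPolynomial.gradedAlgebra

lemma num_sum {K : Type*} [Field K] {r : ℕ} (C : Cfg K r) : ∑ j, C.z j = C.Z.card :=
  (Finset.card_eq_sum_card_fiberwise fun _ _ => Finset.mem_univ _).symm

lemma num_mul {K : Type*} [Field K] {r : ℕ} (C : Cfg K r) {μ t : Fin r → ℕ} {J D : ℕ} {s : S3 K}
    (hs : s ∈ C.W μ D) (h : ∀ j, μ j + t j = J) :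
    s * ∏ j, C.q j ^ t j ∈ V C.Z (fun _ => J) (D + C.dg t) := by
  rw [mem_V] at hs ⊢
  refine ⟨hs.1.mul (IsHomogeneous.prod _ _ _ fun j _ => ?_), fun P hP => ?_⟩
  · rw [mul_comm]
    exact (C.hom j).pow _
  · rw [← h (C.κ P), pow_add]
    exact Ideal.mul_mem_mul (hs.2 P hP) (Ideal.mem_of_dvd _
      (Finset.dvd_prod_of_mem _ (Finset.mem_univ (C.κ P)))
      (Ideal.pow_mem_pow ((C.mem P hP _).2 rfl) _))

lemma num_ndvd {K : Type*} [Field K] {r : ℕ} (C : Cfg K r) {t : Fin r → ℕ} {s : S3 K} {i : Fin r}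
    (hs : ¬ C.q i ∣ s) : ¬ C.q i ^ (t i + 1) ∣ s * ∏ j, C.q j ^ t j := by
  intro h
  rw [← Finset.mul_prod_erase _ _ (Finset.mem_univ i), mul_left_comm, pow_succ,
    mul_dvd_mul_iff_left (pow_ne_zero _ (C.prime i).ne_zero)] at h
  obtain ⟨j, hj, h1⟩ := ((C.prime i).dvd_finsetProd_iff _).1
    (((C.prime i).dvd_or_dvd h).resolve_left hs)
  exact C.ndvd i j (Finset.ne_of_mem_erase hj).symm ((C.prime i).dvd_of_dvd_pow h1)

theorem p_NUM (K : Type*) [Field K] (hJ1 : S_J1 K) (hX : S_X K) :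
    S_NUM K := by
  classical
  intro hK r C i δ hz h
  have a0 : C.dg 1 = ∑ j, C.c j := by simp [Cfg.dg]
  have a1 : 0 < C.dg 1 := a0 ▸ (C.pos i).trans_le
    (Finset.single_le_sum (f := C.c) (fun _ _ => Nat.zero_le _) (Finset.mem_univ i))
  by_contra hn
  rw [not_le] at hn
  rcases δ.eq_zero_or_pos with rfl | d0
  · obtain ⟨N, hN⟩ : ∃ N, C.dg 1 ^ 2 * C.dg 1 = N + 1 :=
      ⟨_, (Nat.succ_pred_eq_of_pos (by positivity)).symm⟩
    have h1 : V C.Z (fun _ => C.dg 1 ^ 2) N = ⊥ := (Submodule.eq_bot_iff _).2 fun s hs => by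
      by_contra s0
      obtain ⟨u, hu⟩ := FiniteMultiplicity.of_prime_left (C.prime i) s0
      have := h _ _ u s hs hu
      simp only [add_zero, zero_mul, zero_add] at this
      omega
    have h2 := hJ1 C.Z (fun _ => C.dg 1 ^ 2) N C.pt
    rw [dV, h1, finrank_bot, Finset.sum_const, smul_eq_mul, mul_zero, zero_add,
      show N + 2 = N + 1 + 1 from rfl, ← hN] at h2
    rw [add_zero] at hn
    generalize C.dg 1 = a at *
    generalize C.Z.card = n at *
    have h3 : a ^ 2 * ((a ^ 2 * a + 1) * a) ≤ a ^ 2 * (n * (a ^ 2 + 1)) := by lia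
    have h4 := Nat.le_of_mul_le_mul_left h3 (by positivity)
    have h5 : (n + 1) * (a ^ 2 + 1) ≤ a * a * (a ^ 2 + 1) := Nat.mul_le_mul_right _ hn
    lia
  · set d := C.dg 1 + δ with hd
    set n := C.Z.card with hc
    let F : Fin r → ℕ := fun j => if j ≠ i ∧ C.z j < C.c j * d then 1 else 0
    have zl : ∀ j, C.z j ≤ n := fun j => hc ▸ num_sum C ▸
      Finset.single_le_sum (f := C.z) (fun _ _ => Nat.zero_le _) (Finset.mem_univ j)
    have e1 : (n + 1) * δ + C.dg (fun j => n + 1 + F j) = (n + 1) * d + C.dg F := by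
      rw [hd, a0]
      simp only [Cfg.dg, add_mul _ (F _), Finset.sum_add_distrib, ← Finset.mul_sum]
      ring
    have fi : F i = 0 := by simp [F]
    obtain ⟨k, m, s, m0, h1, h2⟩ := hX hK r C (fun j => n + 1 + F j) ((n + 1) * δ) i
      (fun j => by
        rw [e1]
        have := hz j
        have := zl j
        by_cases e : j ≠ i ∧ C.z j < C.c j * d
        · simp only [F, if_pos e]
          nlinarith [e.2, Nat.zero_le (C.dg F * C.c j)]
        · simp only [F, if_neg e]
          nlinarith [Nat.zero_le (C.dg F * C.c j)])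
      (by
        rw [e1, fi]
        rcases (hz i).lt_or_eq with e | e
        · nlinarith [Nat.zero_le (C.dg F * C.c i)]
        · obtain ⟨j, -, hj⟩ := Finset.exists_lt_of_sum_lt (s := Finset.univ) (f := C.z)
            (g := fun j => C.c j * d) (by rwa [num_sum, ← Finset.sum_mul, ← a0])
          have h3 : F j = 1 := if_pos ⟨fun e1 => hj.ne (e1 ▸ e), hj⟩
          have h4 := Finset.single_le_sum (f := fun j => F j * C.c j) (fun _ _ => Nat.zero_le _)
            (Finset.mem_univ j)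
          have h5 : 0 < C.dg F := (C.pos j).trans_le (by rwa [h3, one_mul] at h4)
          have := Nat.mul_pos h5 (C.pos i)
          rw [e]
          lia)
    set μ : Fin r → ℕ := k • (fun j => n + 1 + F j) + Pi.single i m with hμ
    have h3 : ∀ j, μ j + (k * (n + 1) + k + m - μ j) = k * (n + 1) + k + m := fun j => by
      refine Nat.add_sub_cancel' ?_
      have : F j ≤ 1 := by simp only [F]; split_ifs <;> omega
      have h4 : (Pi.single i m : Fin r → ℕ) j ≤ m := by
        rw [Pi.single_apply]; split_ifs <;> omega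
      simp only [hμ, Pi.add_apply, Pi.smul_apply, smul_eq_mul]
      lia
    have h4 := h _ _ _ _ (num_mul C h2 h3) (num_ndvd C h1)
    have h5 : k * (n + 1) + k + m - μ i = k := by
      simp only [hμ, Pi.add_apply, Pi.smul_apply, smul_eq_mul, fi, Pi.single_eq_same, add_zero]
      omega
    have h6 : C.dg μ + C.dg (fun j => k * (n + 1) + k + m - μ j) =
        (k * (n + 1) + k + m) * C.dg 1 := by
      rw [a0]
      simp only [Cfg.dg, ← Finset.sum_add_distrib, ← add_mul, h3, ← Finset.mul_sum]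
    rw [h5, add_assoc _ (C.dg μ), h6, hd] at h4
    nlinarith [Nat.mul_pos m0 d0]

end sNUM

section sVB

open MvPolynomial Module Filter

attribute [local instance] MvPolynomial.gradedAlgebra

section

variable {K : Type*} [Field K]

/-- Forms whose degree and order along `q` are not both small. -/
def vb_gen (q : S3 K) (δ w : ℕ) : Set (S3 K) :=
  {h | ∃ D, h.IsHomogeneous D ∧ ∀ u, δ * u + D < w → q ^ (u + 1) ∣ h}

lemma vb_span {q h : S3 K} {δ w : ℕ} (hh : h ∈ Ideal.span (vb_gen q δ w)) :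
    ∀ r D u, δ * u + D < w → q ^ (u + 1) ∣ homogeneousComponent D (h * r) := by
  induction hh using Submodule.span_induction with
  | mem x hx =>
    intro r D u hu
    obtain ⟨E, h1, h2⟩ := hx
    rcases lt_or_ge D E with k | k
    · rw [hc_mul_lt h1 r k]
      exact dvd_zero _
    · obtain ⟨i, rfl⟩ := Nat.exists_eq_add_of_le k
      rw [hc_mul h1]
      exact (h2 u (by omega)).mul_right _
  | zero => simp
  | add x y _ _ h1 h2 =>
    intro r D u hu
    rw [add_mul, map_add]
    exact dvd_add (h1 r D u hu) (h2 r D u hu)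
  | smul c x _ h1 =>
    intro r D u hu
    rw [smul_eq_mul, mul_comm c, mul_assoc]
    exact h1 _ D u hu

lemma vb_mul {q f g : S3 K} {δ w w' : ℕ} (hf : f ∈ vb_gen q δ w) (hg : g ∈ vb_gen q δ w') :
    f * g ∈ vb_gen q δ (w + w') := by
  classical
  obtain ⟨D, h1, h2⟩ := hf
  obtain ⟨E, h3, h4⟩ := hg
  refine ⟨D + E, h1.mul h3, fun u hu => ?_⟩
  have k1 : q ^ Nat.findGreatest (fun t => q ^ t ∣ f) (u + 1) ∣ f :=
    Nat.findGreatest_spec (P := fun t => q ^ t ∣ f) (Nat.zero_le _) (by simp)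
  have k2 := Nat.findGreatest_le (P := fun t => q ^ t ∣ f) (u + 1)
  have k3 := fun t => Nat.findGreatest_is_greatest (P := fun t => q ^ t ∣ f) (n := u + 1) (k := t)
  generalize Nat.findGreatest (fun t => q ^ t ∣ f) (u + 1) = t at k1 k2 k3
  rcases k2.eq_or_lt with rfl | k
  · exact k1.mul_right _
  · obtain ⟨s, rfl⟩ := Nat.exists_eq_add_of_le (Nat.le_of_lt_succ k)
    have k4 := not_lt.1 fun e => k3 (t + 1) (by omega) (by omega) (h2 t e)
    rw [mul_add] at hu
    rw [add_assoc, pow_add]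
    exact mul_dvd_mul k1 (h4 s (by omega))

end

theorem p_VB (K : Type*) [Field K]  :
    S_VB K := by
  intro I q a δ hI h1 h2 M D u h hM hD hq
  have k1 : I ≤ Ideal.span (vb_gen q δ (a + δ)) := hI.le fun f hf E hE =>
    Ideal.subset_span ⟨E, hE, fun u hu => by
      rcases eq_or_ne f 0 with rfl | h0
      · exact dvd_zero _
      have := h1 f hf E hE h0
      rcases u with _ | u
      · rw [zero_add, pow_one]
        by_contra hn
        have := h2 f hf E hE hn
        omega
      · rw [mul_add] at hu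
        omega⟩
  have k2 : ∀ M, I ^ M ≤ Ideal.span (vb_gen q δ (M * (a + δ))) := fun M => by
    induction M with
    | zero =>
      rw [pow_zero, Ideal.one_eq_top, top_le_iff, Ideal.eq_top_iff_one]
      exact Ideal.subset_span ⟨0, isHomogeneous_one _ _, fun u hu => by omega⟩
    | succ M ih =>
      rw [pow_succ, Nat.succ_mul]
      refine (Ideal.mul_mono ih k1).trans ?_
      rw [Ideal.span_mul_span']
      refine Ideal.span_mono ?_
      rintro _ ⟨f, hf, g, hg, rfl⟩
      exact vb_mul hf hg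
  by_contra hn
  have := vb_span (k2 M hM) 1 D u (not_le.1 hn)
  rw [mul_one, homogeneousComponent_of_mem hD, if_pos rfl] at this
  exact hq this

end sVB

section sKOS

open MvPolynomial Module Filter

attribute [local instance] MvPolynomial.gradedAlgebra

lemma kos_pair {K : Type*} [Field K] {u v : S3 K} (h : X 0 * u = X 1 * v) : ∃ w, v = X 0 * w ∧ u = X 1 * w := by
  have h1 : (X 0 : S3 K) ∣ v := ((X_prime (i := 0)).dvd_or_dvd (Dvd.intro _ h)).resolve_left
    (by rw [X_dvd_X]; decide)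
  obtain ⟨w, rfl⟩ := h1
  exact ⟨w, rfl, mul_left_cancel₀ (X_ne_zero (R := K) 0) (by rw [h]; ring)⟩

lemma kos_syz {K : Type*} [Field K] {c : S3 K} (h : X 2 * c ∈ Ideal.span {(X 0 : S3 K), X 1}) :
    c ∈ Ideal.span {(X 0 : S3 K), X 1} := by
  have e : Ideal.span {(X 0 : S3 K), X 1} = oI K ![1, 1, 0] 1 := by
    rw [oI_one, ← Set.image_pair]
    congr 2
    ext i
    fin_cases i <;> simp
  rw [e] at h ⊢
  refine ((oI_prime _).mem_or_mem h).resolve_left fun h2 => ?_
  have := mem_oI.1 h2 (Finsupp.single 2 1) (by simp [support_X])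
  simp [Finsupp.weight_single] at this

lemma kos_pow {R : Type*} [CommRing R] (f g : R) (k : ℕ) : Ideal.span {f, g} ^ (k + 1) ≤
    Ideal.span {f} * Ideal.span {f, g} ^ k ⊔ Ideal.span {g ^ (k + 1)} := by
  induction k with
  | zero => simp [Ideal.span_insert]
  | succ k ih =>
    rw [pow_succ]
    refine (Ideal.mul_mono_left ih).trans ?_
    rw [Ideal.sup_mul, mul_assoc, ← pow_succ]
    refine sup_le le_sup_left ?_
    nth_rewrite 1 [Ideal.span_insert]
    rw [Ideal.mul_sup, Ideal.span_singleton_mul_span_singleton (g ^ (k + 1)) g, ← pow_succ,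
      mul_comm]
    refine sup_le_sup_right (Ideal.mul_mono_right ?_) _
    rw [Ideal.span_singleton_le_iff_mem]
    exact Ideal.pow_mem_pow (Ideal.subset_span (by simp)) _

theorem p_KOS (K : Type*) [Field K]  :
    S_KOS K := by
  intro f g hf hfg
  refine ⟨fun h hh => ?_, fun k h hh => ?_⟩
  · choose a b e using fun i => Ideal.mem_span_pair.1 (hh i)
    have hc : ∀ i j, f ∣ X i * b j - X j * b i := fun i j =>
      hfg.dvd_of_dvd_mul_right ⟨X j * a i - X i * a j, by
        linear_combination X i * e j - X j * e i⟩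
    obtain ⟨c01, e01⟩ := hc 0 1
    obtain ⟨c12, e12⟩ := hc 1 2
    obtain ⟨c20, e20⟩ := hc 2 0
    have h0 : -c12 * X 0 + -c20 * X 1 = X 2 * c01 := mul_left_cancel₀ hf (by
      linear_combination X 0 * e12 + X 1 * e20 + X 2 * e01)
    obtain ⟨p, q, hpq⟩ := Ideal.mem_span_pair.1 (kos_syz (Ideal.mem_span_pair.2 ⟨_, _, h0⟩))
    obtain ⟨w, w0, w1⟩ := kos_pair (u := b 1 - f * p) (v := b 0 + f * q) (by
      linear_combination e01 - f * hpq)
    obtain ⟨u, u0, -⟩ := kos_pair (u := a 1 + p * g) (v := a 0 - q * g) (mul_left_cancel₀ hf (by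
      linear_combination X 0 * e 1 - X 1 * e 0 - X 0 * g * w1 + X 1 * g * w0))
    refine Ideal.mem_span_pair.2 ⟨u, w, mul_left_cancel₀ (X_ne_zero (R := K) 0) ?_⟩
    linear_combination e 0 - f * u0 - g * w0
  · obtain ⟨y, hy, z, hz, e⟩ := Submodule.mem_sup.1 (kos_pow f g k (mem_colon.1 hh))
    obtain ⟨a, ha, rfl⟩ := Ideal.mem_span_singleton_mul.1 hy
    obtain ⟨b, rfl⟩ := Ideal.mem_span_singleton'.1 hz
    obtain ⟨c, rfl⟩ : f ∣ b := (hfg.pow_right (n := k + 1)).dvd_of_dvd_mul_right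
      ⟨h - a, by linear_combination e⟩
    have : h = a + c * g * g ^ k := mul_left_cancel₀ hf (by linear_combination -e)
    rw [this]
    exact Ideal.add_mem _ ha (Ideal.mul_mem_left _ _
      (Ideal.pow_mem_pow (Ideal.subset_span (by simp)) _))

end sKOS

end Pool.Agent.P.MP_ad771b_al.H
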