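import Pool.Agent.P.MP_ad771b_al.H.Iface

/-! Steps EXA, EXB, EXC, EXR, EXT. -/

set_option autoImplicit false
set_option linter.unusedSectionVars false

namespace Pool.Agent.P.MP_ad771b_al.H

section sEXA

open MvPolynomial Module Filter

attribute [local instance] MvPolynomial.gradedAlgebra

section

variable {R : Type*} [CommRing R] {A B : R}

theorem exa_mul {k l : ℕ} {s t : MvPolynomial (Fin 2) R} (hs : exC A B k s) (ht : exC A B l t) :
    exC A B (k + l) (s * t) := by
  intro u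
  rw [coeff_mul]
  have key : ∀ p ∈ Finset.HasAntidiagonal.antidiagonal u,
      p.1 0 + p.2 0 = u 0 ∧ p.1 1 + p.2 1 = u 1 := fun p hp => by
    rw [← Finset.HasAntidiagonal.mem_antidiagonal.1 hp]
    exact ⟨rfl, rfl⟩
  refine ⟨fun h => Finset.sum_eq_zero fun p hp => ?_, Finset.dvd_sum fun p hp => ?_,
    Finset.dvd_sum fun p hp => ?_⟩
  · obtain ⟨h0, h1⟩ := key p hp
    by_cases h2 : p.1 0 + p.1 1 < k
    · rw [(hs p.1).1 h2, zero_mul]
    · rw [(ht p.2).1 (by omega), mul_zero]
  · obtain ⟨h0, -⟩ := key p hp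
    refine dvd_trans ?_ (mul_dvd_mul (hs p.1).2.1 (ht p.2).2.1)
    rw [← pow_add]
    exact pow_dvd_pow _ (by omega)
  · obtain ⟨-, h1⟩ := key p hp
    refine dvd_trans ?_ (mul_dvd_mul (hs p.1).2.2 (ht p.2).2.2)
    rw [← pow_add]
    exact pow_dvd_pow _ (by omega)

theorem exa_zero (s : MvPolynomial (Fin 2) R) : exC A B 0 s := fun u => by simp

/-- The candidates for the powers. -/
def exa_J (A B : R) (k : ℕ) : Ideal (MvPolynomial (Fin 2) R) where
  carrier := {s | exC A B k s}
  zero_mem' := fun u => by simp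
  add_mem' := fun {s t} hs ht u => by
    rw [coeff_add]
    exact ⟨fun h => by rw [(hs u).1 h, (ht u).1 h, add_zero], dvd_add (hs u).2.1 (ht u).2.1,
      dvd_add (hs u).2.2 (ht u).2.2⟩
  smul_mem' := fun t s hs => by simpa using exa_mul (exa_zero t) hs

theorem exa_mono {k : ℕ} {u : Fin 2 →₀ ℕ} {c : R} (h0 : k ≤ u 0 + u 1) (h1 : A ^ (k - u 0) ∣ c)
    (h2 : B ^ (k - u 1) ∣ c) : exC A B k (monomial u c) := fun v => by
  rw [coeff_monomial]
  split_ifs with h
  · subst h
    exact ⟨fun h => by omega, h1, h2⟩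
  · simp

theorem exa_eq (u : Fin 2 →₀ ℕ) (c : R) :
    (monomial u c : MvPolynomial (Fin 2) R) = C c * (X 0 ^ u 0 * X 1 ^ u 1) := by
  rw [monomial_eq, Finsupp.prod_fintype _ _ fun i => pow_zero _, Fin.prod_univ_two]

theorem exa_one : exJ A B ≤ exa_J A B 1 := by
  refine Ideal.span_le.2 ?_
  rintro _ (rfl | rfl | rfl)
  · have := exa_mono (A := A) (B := B) (k := 1) (u := Finsupp.single 0 1 + Finsupp.single 1 1)
      (c := 1) (by simp) (by simp) (by simp)
    rw [exa_eq] at this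
    change exC A B 1 _
    simpa using this
  · have := exa_mono (A := A) (B := B) (k := 1) (u := Finsupp.single 0 1)
      (c := B) (by simp) (by simp) (by simp)
    rw [exa_eq] at this
    change exC A B 1 _
    simpa [mul_comm] using this
  · have := exa_mono (A := A) (B := B) (k := 1) (u := Finsupp.single 1 1)
      (c := A) (by simp) (by simp) (by simp)
    rw [exa_eq] at this
    change exC A B 1 _
    simpa [mul_comm] using this

theorem exa_main [DecompositionMonoid R] (h : IsRelPrime A B) (k : ℕ)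
    (s : MvPolynomial (Fin 2) R) : s ∈ exJ A B ^ k ↔ exC A B k s := by
  constructor
  · have : exJ A B ^ k ≤ exa_J A B k := by
      induction k with
      | zero => exact fun s _ => exa_zero s
      | succ k ih =>
        rw [pow_succ]
        exact Ideal.mul_le.2 fun r hr t ht => exa_mul (ih hr) (exa_one ht)
    exact fun hs => this hs
  · intro hs
    rw [s.as_sum]
    refine Ideal.sum_mem _ fun u hu => ?_
    obtain ⟨h0, h1, h2⟩ := hs u
    have h3 : k ≤ u 0 + u 1 := not_lt.1 fun h => mem_support_iff.1 hu (h0 h)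
    obtain ⟨c, hc⟩ := (h.pow (m := k - u 0) (n := k - u 1)).mul_dvd h1 h2
    obtain ⟨a, ha⟩ : ∃ a, a = k - u 0 := ⟨_, rfl⟩
    obtain ⟨b, hb⟩ : ∃ b, b = k - u 1 := ⟨_, rfl⟩
    obtain ⟨d, hd⟩ : ∃ d, k = a + b + d := ⟨k - a - b, by omega⟩
    obtain ⟨i, hi⟩ : ∃ i, u 0 = b + d + i := ⟨u 0 - b - d, by omega⟩
    obtain ⟨j, hj⟩ : ∃ j, u 1 = a + d + j := ⟨u 1 - a - d, by omega⟩
    have m1 : X 0 * X 1 ∈ exJ A B := Ideal.subset_span (by simp)
    have m2 : X 0 * C B ∈ exJ A B := Ideal.subset_span (by simp)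
    have m3 : X 1 * C A ∈ exJ A B := Ideal.subset_span (by simp)
    have m := Ideal.mul_mem_mul (Ideal.mul_mem_mul (Ideal.pow_mem_pow m3 a)
      (Ideal.pow_mem_pow m2 b)) (Ideal.pow_mem_pow m1 d)
    rw [← pow_add, ← pow_add, ← hd] at m
    have e := Ideal.mul_mem_left _ (C c * (X 0 ^ i * X 1 ^ j)) m
    rw [exa_eq, hc, ← ha, ← hb, hi, hj]
    convert e using 1
    simp only [map_mul, map_pow]
    ring

end

theorem p_EXA (K : Type*) [Field K]  :
    S_EXA K := fun _ _ _ h k s => exa_main h k s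

end sEXA

section sEXB

open MvPolynomial Module Filter

attribute [local instance] MvPolynomial.gradedAlgebra

lemma exb_coeff {R S : Type*} [CommRing R] [CommRing S] (π : R →+* S) (i : Fin 2)
    (s : MvPolynomial (Fin 2) R) (v : Fin 2 →₀ ℕ) :
    coeff v (eval₂Hom (C.comp π) (fun j => if j = i then 0 else X j) s :
      MvPolynomial (Fin 2) S) = if v i = 0 then π (coeff v s) else 0 := by
  classical
  induction s using MvPolynomial.induction_on' with
  | add p q hp hq => rw [map_add, coeff_add, hp, hq, coeff_add, map_add]; split_ifs <;> simp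
  | monomial u a =>
    rw [eval₂Hom_monomial]
    by_cases h : u i = 0
    · have : (u.prod fun j k => (if j = i then 0 else X j : MvPolynomial (Fin 2) S) ^ k) =
          u.prod fun j k => X j ^ k := Finsupp.prod_congr fun j hj => by
        rw [if_neg]; rintro rfl; exact Finsupp.mem_support_iff.1 hj h
      rw [this, RingHom.comp_apply, ← monomial_eq, coeff_monomial, coeff_monomial]
      by_cases e : u = v
      · subst e; simp [h]
      · simp [e]
    · have : (u.prod fun j k => (if j = i then 0 else X j : MvPolynomial (Fin 2) S) ^ k) = 0 :=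
        Finset.prod_eq_zero (Finsupp.mem_support_iff.2 h) (by simp [h])
      rw [this, mul_zero, coeff_zero, coeff_monomial]
      by_cases e : u = v
      · subst e; simp [h]
      · simp [e]

lemma exb_rad {R : Type*} [CommRing R] {A : R} (hA : IsRadical A) (i : Fin 2)
    (s : MvPolynomial (Fin 2) R) (n : ℕ)
    (h : ∀ u : Fin 2 →₀ ℕ, A ^ (1 - u i) ∣ coeff u (s ^ n)) (u : Fin 2 →₀ ℕ) :
    A ^ (1 - u i) ∣ coeff u s := by
  have : IsReduced (R ⧸ Ideal.span {A}) :=
    (Ideal.isRadical_iff_quotient_reduced _).1 (isRadical_iff_span_singleton.1 hA)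
  by_cases hu : u i = 0
  · have e := exb_coeff (Ideal.Quotient.mk (Ideal.span {A})) i
    have z : (eval₂Hom (C.comp (Ideal.Quotient.mk (Ideal.span {A})))
        (fun j => if j = i then 0 else X j) s : MvPolynomial (Fin 2) _) = 0 := by
      refine IsNilpotent.eq_zero ⟨n, ?_⟩
      rw [← map_pow]
      ext v
      rw [e, coeff_zero]
      split_ifs with hv
      · rw [Ideal.Quotient.eq_zero_iff_mem, Ideal.mem_span_singleton]
        simpa [hv] using h v
      · rfl
    have := e s u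
    rw [z, coeff_zero, if_pos hu, eq_comm, Ideal.Quotient.eq_zero_iff_mem,
      Ideal.mem_span_singleton] at this
    simpa [hu] using this
  · rw [show 1 - u i = 0 by omega, pow_zero]
    exact one_dvd _

theorem p_EXB (K : Type*) [Field K] (hEXA : S_EXA K) :
    S_EXB K := by
  intro m A B hAB hA hB s ⟨n, hn⟩
  have e := hEXA m A B hAB 1
  simp only [pow_one] at e
  rw [e] at hn ⊢
  intro u
  refine ⟨fun hu => ?_, exb_rad hA 0 s n (fun v => (hn v).2.1) u,
    exb_rad hB 1 s n (fun v => (hn v).2.2) u⟩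
  have h0 : u = 0 := by
    ext j
    fin_cases j <;> simp <;> omega
  subst h0
  have := (hn 0).1 hu
  rw [← constantCoeff_eq, map_pow] at this
  exact IsNilpotent.eq_zero ⟨n, this⟩

end sEXB

section sEXC

open MvPolynomial Module Filter

attribute [local instance] MvPolynomial.gradedAlgebra

section

variable {R : Type*} [CommRing R] [IsDomain R]

lemma exc_le (A B : R) (k : ℕ) : exJ A B ^ k ≤ oI R 1 k := by
  rw [← mm_pow]
  refine Ideal.pow_right_mono (Ideal.span_le.2 ?_) k
  rintro _ (rfl | rfl | rfl) <;> exact Ideal.mul_mem_right _ _ (X_mem_mm _)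

lemma exc_wt (u : Fin 2 →₀ ℕ) : Finsupp.weight (1 : Fin 2 → ℕ) u = u 0 + u 1 := by
  rw [Finsupp.weight_apply, Finsupp.sum_fintype _ _ (by simp)]
  simp

lemma exc_colon (A B : R) {k : ℕ} {s : MvPolynomial (Fin 2) R} {u : Fin 2 →₀ ℕ}
    (hu : u 0 + u 1 < k) (h : coeff u s ≠ 0) : (exJ A B ^ k).colon {s} ≤ mm R (Fin 2) := by
  obtain ⟨k, rfl⟩ : ∃ j, k = j + 1 := ⟨k - 1, by omega⟩
  intro f hf
  by_contra e
  have hs : s ∉ oI R 1 (k + 1) := fun h' => by
    have := mem_oI.1 h' u (mem_support_iff.2 h)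
    rw [exc_wt] at this
    omega
  have := mul_notMem_oI (a := 0) e hs
  rw [zero_add] at this
  exact this (exc_le A B _ (mem_colon.1 hf))

lemma exc_one {A B : R} (hA : A ≠ 0) (hB : B ≠ 0) (k : ℕ) :
    (exJ A B ^ (k + 1)).colon {(X 0 * C B) ^ k * C (A * B)} = mm R (Fin 2) := by
  have h1 : X 0 * C B ∈ exJ A B := Ideal.subset_span (by simp)
  have h2 : X 1 * C A ∈ exJ A B := Ideal.subset_span (by simp)
  refine le_antisymm (exc_colon A B (u := Finsupp.single 0 k) (by simp) ?_) (mm_le fun i => ?_)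
  · rw [mul_pow, ← C_pow, mul_assoc, ← C_mul, mul_comm, coeff_C_mul, coeff_X_pow, if_pos rfl,
      mul_one]
    exact mul_ne_zero (pow_ne_zero _ hB) (mul_ne_zero hA hB)
  · rw [mem_colon]
    fin_cases i
    · have := Ideal.mul_mem_right (C A) _ (Ideal.pow_mem_pow h1 (k + 1))
      convert this using 1
      simp only [C_mul, Fin.zero_eta]
      ring
    · have := Ideal.mul_mem_right (C B) _ (Ideal.mul_mem_mul (Ideal.pow_mem_pow h1 k) h2)
      rw [← pow_succ] at this
      convert this using 1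
      simp only [C_mul, Fin.mk_one]
      ring

end

theorem p_EXC (K : Type*) [Field K] (hEXA : S_EXA K) :
    S_EXC K := by
  intro m A B hAB hA hB
  refine ⟨exc_one hA hB, fun k s hle hne => ?_⟩
  have hA' : ∀ u : Fin 2 →₀ ℕ, A ^ (k - u 0) ∣ coeff u s := fun u => by
    have := ((hEXA m A B hAB k _).1 (mem_colon.1 (hle (X_mem_mm 1))) (Finsupp.single 1 1 + u)).2.1
    rwa [coeff_X_mul, Finsupp.add_apply, Finsupp.single_eq_of_ne (by decide), zero_add] at this
  have hB' : ∀ u : Fin 2 →₀ ℕ, B ^ (k - u 1) ∣ coeff u s := fun u => by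
    have := ((hEXA m A B hAB k _).1 (mem_colon.1 (hle (X_mem_mm 0))) (Finsupp.single 0 1 + u)).2.2
    rwa [coeff_X_mul, Finsupp.add_apply, Finsupp.single_eq_of_ne (by decide), zero_add] at this
  obtain ⟨u, hu, h0⟩ : ∃ u : Fin 2 →₀ ℕ, u 0 + u 1 < k ∧ coeff u s ≠ 0 := by
    by_contra e
    push Not at e
    refine hne ((Ideal.eq_top_iff_one _).2 (mem_colon.2 ?_))
    rw [one_mul]
    exact (hEXA m A B hAB k s).2 fun u => ⟨e u, hA' u, hB' u⟩
  exact ⟨exc_colon A B hu h0, u, hu, h0, hAB.pow.mul_dvd (hA' u) (hB' u)⟩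

end sEXC

section sEXR

open MvPolynomial Module Filter

attribute [local instance] MvPolynomial.gradedAlgebra

/-- The linear form `X 0 - t X 1`. -/
noncomputable def exr_L {K : Type*} [Field K] (m : ℕ) (t : K) : MvPolynomial (Fin (m + 2)) K :=
  X 0 - C t * X 1

/-- The shear `X 0 ↦ X 0 - t X 1`. -/
noncomputable def exr_sh {K : Type*} [Field K] (m : ℕ) (t : K) :
    MvPolynomial (Fin (m + 2)) K →ₐ[K] MvPolynomial (Fin (m + 2)) K :=
  aeval fun i => if i = 0 then exr_L m t else X i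

theorem exr_sh_comp {K : Type*} [Field K] (m : ℕ) (t u : K) (h : t + u = 0) :
    (exr_sh m t).comp (exr_sh m u) = AlgHom.id K _ := by
  have hu : (C u : MvPolynomial (Fin (m + 2)) K) = - C t := by
    rw [← map_neg, eq_neg_of_add_eq_zero_right h]
  ext1 i
  by_cases hi : i = 0
  · subst hi
    simp [exr_sh, exr_L, hu]
  · simp [exr_sh, hi]

theorem exr_irr {K : Type*} [Field K] (m : ℕ) (t : K) : Irreducible (exr_L m t) := by
  let e : MvPolynomial (Fin (m + 2)) K ≃ₐ[K] MvPolynomial (Fin (m + 2)) K :=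
    AlgEquiv.ofAlgHom (exr_sh m t) (exr_sh m (-t)) (exr_sh_comp m t (-t) (by simp))
      (exr_sh_comp m (-t) t (by simp))
  have h0 : e (X 0) = exr_L m t := by simp [e, exr_sh]
  rw [← h0]
  exact (MulEquiv.irreducible_iff e).2 (X_prime (i := 0)).irreducible

theorem exr_ev {K : Type*} [Field K] (m : ℕ) (t x y : K) :
    eval (fun i : Fin (m + 2) => if i = 0 then x else y) (exr_L m t) = x - t * y := by
  simp [exr_L]

theorem exr_LL {K : Type*} [Field K] (m : ℕ) {t u : K} (h : t ≠ u) :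
    IsRelPrime (exr_L m t) (exr_L m u) := by
  rw [(exr_irr m t).isRelPrime_iff_not_dvd]
  intro hd
  have h1 := map_dvd (eval (fun i : Fin (m + 2) => if i = 0 then t else 1)) hd
  rw [exr_ev, exr_ev] at h1
  simp only [mul_one, sub_self, zero_dvd_iff] at h1
  exact h (sub_eq_zero.1 h1)

theorem exr_XL {K : Type*} [Field K] (m : ℕ) (t : K) :
    IsRelPrime (X 1 : MvPolynomial (Fin (m + 2)) K) (exr_L m t) := by
  rw [(X_prime (i := (1 : Fin (m + 2))) (R := K)).irreducible.isRelPrime_iff_not_dvd]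
  intro hd
  have h1 := map_dvd (eval (fun i : Fin (m + 2) => if i = 0 then (1 : K) else 0)) hd
  rw [exr_ev] at h1
  simp at h1

theorem exr_hom {K : Type*} [Field K] (m : ℕ) (t : K) : (exr_L m t).IsHomogeneous 1 :=
  (isHomogeneous_X K 0).sub ((isHomogeneous_X K 1).C_mul t)

theorem p_EXR (K : Type*) [Field K]  :
    S_EXR K := by
  intro m c h0 h1
  have hX : Irreducible (X 1 : MvPolynomial (Fin (m + 2)) K) := X_prime.irreducible
  refine ⟨X 1 * exr_L m 0, exr_L m 1 * exr_L m c, (isHomogeneous_X K 1).mul (exr_hom m 0),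
    (exr_hom m 1).mul (exr_hom m c), mul_ne_zero hX.ne_zero (exr_irr m 0).ne_zero,
    mul_ne_zero (exr_irr m 1).ne_zero (exr_irr m c).ne_zero, ?_, ?_, ?_⟩
  · exact ((exr_XL m 1).mul_right (exr_XL m c)).mul_left
      ((exr_LL m zero_ne_one).mul_right (exr_LL m h0.symm))
  · exact (squarefree_mul_iff.2 ⟨exr_XL m 0, hX.squarefree, (exr_irr m 0).squarefree⟩).isRadical
  · exact (squarefree_mul_iff.2
      ⟨exr_LL m h1.symm, (exr_irr m 1).squarefree, (exr_irr m c).squarefree⟩).isRadical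

end sEXR

section sEXT

open MvPolynomial Module Filter

attribute [local instance] MvPolynomial.gradedAlgebra

section

variable {K : Type*} [Field K] {m d N : ℕ}

variable (K m) in
/-- Splitting off the first two variables. -/
noncomputable def ext_E :
    MvPolynomial (Fin (2 + m)) K ≃ₐ[K] MvPolynomial (Fin 2) (MvPolynomial (Fin m) K) :=
  (renameEquiv K finSumFinEquiv.symm).trans (sumAlgEquiv K (Fin 2) (Fin m))

lemma ext_deg {f : MvPolynomial (Fin (2 + m)) K} (hf : f.IsHomogeneous d) {u : Fin 2 →₀ ℕ}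
    (h0 : coeff u (ext_E K m f) ≠ 0) (h : coeff u (ext_E K m f) ∈ oI K 1 N) :
    u 0 + u 1 + N ≤ d := by
  obtain ⟨v, hv⟩ := support_nonempty.2 h0
  have h1 := h v hv
  have h2 : coeff v (coeff u (ext_E K m f)) = coeff (u.sumElim v) (rename finSumFinEquiv.symm f) := by
    simp [ext_E, sumAlgEquiv, coeff, AddMonoidAlgebra.curryAlgEquiv,
      AddMonoidAlgebra.curryRingEquiv, AddMonoidAlgebra.curryAddEquiv]
  have h3 := hf.rename_isHomogeneous (h2 ▸ mem_support_iff.1 hv)
  have h4 : Finsupp.weight 1 (u.sumElim v) = u 0 + u 1 + Finsupp.weight (1 : Fin m → ℕ) v := by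
    simp [Finsupp.weight_apply, Finsupp.sum_fintype]
  omega

lemma ext_X (i : Fin 2) : ((ext_E K m).symm (X i)).IsHomogeneous 1 := by
  simp [ext_E, isHomogeneous_X]

lemma ext_C {a : MvPolynomial (Fin m) K} (h : a.IsHomogeneous d) :
    ((ext_E K m).symm (C a)).IsHomogeneous d := by
  have e : (sumAlgEquiv K (Fin 2) (Fin m)).symm (C a) = rename .inr a :=
    (AlgEquiv.symm_apply_eq _).2 (DFunLike.congr_fun (sumAlgEquiv_comp_rename_inr K _ _) a).symm
  rw [ext_E, AlgEquiv.symm_trans_apply, e]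
  exact h.rename_isHomogeneous.rename_isHomogeneous

end

theorem p_EXT (K : Type*) [Field K] (hEXB : S_EXB K) (hEXC : S_EXC K) :
    S_EXT K := by
  intro m A B hA hB A0 B0 hAB rA rB
  obtain ⟨c1, c2⟩ := hEXC m A B hAB A0 B0
  have e : ∀ J : Ideal _, J.comap (ext_E K m) = J.map (ext_E K m).symm := fun J =>
    (Ideal.map_symm (ext_E K m).toRingEquiv).symm
  have col : ∀ (J : Ideal _) k f, (J.comap (ext_E K m) ^ k).colon {f} =
      ((J ^ k).colon {ext_E K m f}).comap (ext_E K m) := fun J k f => by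
    ext g
    rw [e J, ← Ideal.map_pow, ← e, mem_colon, Ideal.mem_comap, Ideal.mem_comap, mem_colon, map_mul]
  have p0 := oI_prime (K := MvPolynomial (Fin m) K) (1 : Fin 2 → ℕ)
  have hp := Ideal.comap_isPrime (ext_E K m) (mm _ (Fin 2))
  have x1 : (ext_E K m).symm (X 0 * X 1) ∈ (exJ A B).comap (ext_E K m) := by
    rw [Ideal.mem_comap, AlgEquiv.apply_symm_apply]
    exact Ideal.subset_span (.inl rfl)
  have x2 : (ext_E K m).symm (X 0 * X 1) ≠ 0 := by simp
  have w : ∀ k, ((exJ A B).comap (ext_E K m) ^ (k + 1)).colon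
      {(ext_E K m).symm ((X 0 * C B) ^ k * C (A * B))} = (mm _ (Fin 2)).comap (ext_E K m) :=
    fun k => by rw [col, AlgEquiv.apply_symm_apply, c1]
  refine ⟨(exJ A B).comap (ext_E K m), (mm _ (Fin 2)).comap (ext_E K m), fun h => x2 (h.le x1),
    ne_top_of_le_ne_top hp.ne_top (Ideal.comap_mono (Ideal.span_le.2 ?_)), ?_,
    (hEXB m A B hAB rA rB).comap _, ⟨eventually_atTop.2 ⟨1, fun k hk => ?_⟩, fun q hq le => ?_⟩,
    initDeg_le x1 x2 ?_, fun k hk => le_csInf ?_ ?_⟩
  · rintro _ (rfl | rfl | rfl) <;> exact Ideal.mul_mem_right _ _ (X_mem_mm _)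
  · rw [e, exJ, Ideal.map_span]
    refine hom_span ?_
    rintro _ ⟨_, rfl | rfl | rfl, rfl⟩ <;> rw [map_mul]
    exacts [⟨_, (ext_X 0).mul (ext_X 1)⟩, ⟨_, (ext_X 0).mul (ext_C hB)⟩,
      ⟨_, (ext_X 1).mul (ext_C hA)⟩]
  · obtain ⟨k, rfl⟩ := Nat.exists_eq_add_of_le' hk
    exact (mem_ass_iff _ _).2 ⟨hp, _, (w k).symm⟩
  · obtain ⟨k, hk⟩ := Eventually.exists hq
    obtain ⟨h, f, rfl⟩ := (mem_ass_iff _ _).1 hk
    rw [col] at h le ⊢
    exact Ideal.comap_mono (c2 k _ ((Ideal.comap_le_comap_iff_of_surjective _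
      (ext_E K m).surjective _ _).1 le) fun t => h.ne_top (by rw [t, Ideal.comap_top])).1
  · rw [map_mul]
    exact (ext_X 0).mul (ext_X 1)
  · obtain ⟨k, rfl⟩ := Nat.exists_eq_add_of_le' hk
    refine ⟨(1 + 2) * k + (2 + 2), _, ?_, w k⟩
    rw [map_mul, map_pow, map_mul]
    exact (((ext_X 0).mul (ext_C hB)).pow k).mul (ext_C (hA.mul hB))
  · rintro d ⟨f, hf, h⟩
    rw [col] at h
    have h1 := Ideal.comap_injective_of_surjective _ (ext_E K m).surjective h
    obtain ⟨-, u, u1, u2, c, u3⟩ := c2 k _ h1.ge (h1.trans_ne p0.ne_top)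
    have := ext_deg hf u2 (u3 ▸ Ideal.mul_mem_right c _ (hom_mem_oI ((hA.pow _).mul (hB.pow _))))
    omega

end sEXT

end Pool.Agent.P.MP_ad771b_al.H
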