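import Pool.Agent.P.MP_ad771b_al.H.Iface

/-! Steps HW, LIN, GCD, GMUL, N2. -/

set_option autoImplicit false
set_option linter.unusedSectionVars false

namespace Pool.Agent.P.MP_ad771b_al.H

section sHW

open MvPolynomial Module Filter

attribute [local instance] MvPolynomial.gradedAlgebra

section

variable {K : Type*} [Field K] {σ : Type} {J p : Ideal (MvPolynomial σ K)}

lemma hw_sub (f : MvPolynomial σ K) (a i : ℕ) :
    homogeneousComponent i (f - homogeneousComponent a f) =
      if i = a then 0 else homogeneousComponent i f := by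
  rw [map_sub, homogeneousComponent_of_mem (homogeneousComponent_mem a f)]
  split_ifs with h <;> simp [h]

lemma hw_zero {f : MvPolynomial σ K} (h : ∀ i, homogeneousComponent i f = 0) : f = 0 := by
  rw [← sum_homogeneousComponent f]
  exact Finset.sum_eq_zero fun i _ => h i

lemma hw_top (hJ : Hom J) {x f : MvPolynomial σ K} {a b : ℕ}
    (hf : ∀ i, a < i → homogeneousComponent i f = 0)
    (hx : ∀ i, b < i → homogeneousComponent i x = 0) (h : x * f ∈ J) :
    homogeneousComponent b x * homogeneousComponent a f ∈ J := by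
  have := hJ.hc h (b + a)
  rw [← sum_homogeneousComponent x, Finset.sum_mul, map_sum, Finset.sum_eq_single b,
    hc_mul (homogeneousComponent_isHomogeneous b x)] at this
  · exact this
  · intro j _ hj
    rcases lt_or_gt_of_ne hj with h1 | h1
    · rw [show b + a = j + (b + a - j) by omega, hc_mul (homogeneousComponent_isHomogeneous j x),
        hf _ (by omega), mul_zero]
    · rw [hx j h1, zero_mul, map_zero]
  · intro hb
    rw [homogeneousComponent_eq_zero b x (by simpa using hb), zero_mul, map_zero]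

lemma hw_main (hJ : Hom J) (hp : p.IsPrime) (k : ℕ) : ∀ (f : MvPolynomial σ K) (c : ℕ),
    (∀ i, i < c ∨ c + k ≤ i → homogeneousComponent i f = 0) → J.colon {f} = p →
      ∃ (g : MvPolynomial σ K) (d : ℕ), g.IsHomogeneous d ∧ J.colon {g} = p := by
  induction k with
  | zero =>
    intro f c h e
    rw [hw_zero fun i => h i (by omega)] at e
    exact absurd ((Ideal.eq_top_iff_one p).2 (e ▸ mem_colon.2 (by simp))) hp.ne_top
  | succ k ih =>
    intro f c h e
    have hF := homogeneousComponent_isHomogeneous (c + k) f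
    by_cases hle : J.colon {homogeneousComponent (c + k) f} ≤ p
    · refine ⟨_, _, hF, hle.antisymm fun x hx => ?_⟩
      have key : ∀ (N : ℕ) (x : MvPolynomial σ K), x ∈ p →
          (∀ j, N ≤ j → homogeneousComponent j x = 0) →
            x ∈ J.colon {homogeneousComponent (c + k) f} := by
        intro N
        induction N with
        | zero => exact fun x _ h0 => hw_zero (fun i => h0 i i.zero_le) ▸ zero_mem _
        | succ N ih2 =>
          intro x hx h0
          have h1 := mem_colon.2 (hw_top hJ (a := c + k) (b := N) (fun i hi => h i (by omega)) h0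
            (mem_colon.1 (e.ge hx)))
          rw [← sub_add_cancel x (homogeneousComponent N x)]
          refine add_mem (ih2 _ (sub_mem hx (hle h1)) fun j hj => ?_) h1
          rw [hw_sub]
          split_ifs with h2
          exacts [rfl, h0 j (by omega)]
      exact key _ x hx fun j hj => homogeneousComponent_eq_zero j x (Nat.lt_of_succ_le hj)
    · have := mt (hJ.colon hF).le hle
      push Not at this
      obtain ⟨g, h1, d, h2, h3⟩ := this
      refine ih (g * (f - homogeneousComponent (c + k) f)) (d + c) (fun i hi => ?_) ?_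
      · rcases lt_or_ge i d with h4 | h4
        · exact hc_mul_lt h2 _ h4
        obtain ⟨j, rfl⟩ := Nat.exists_eq_add_of_le h4
        rw [hc_mul h2, hw_sub]
        split_ifs with h5
        · exact mul_zero _
        · rw [h j (by omega), mul_zero]
      · ext y
        rw [mem_colon, mul_sub, mul_sub, J.sub_mem_iff_left (J.mul_mem_left y (mem_colon.1 h1)),
          ← mul_assoc, ← mem_colon, e]
        exact ⟨fun h4 => (hp.mem_or_mem h4).resolve_right h3, p.mul_mem_right g⟩

end

theorem p_HW (K : Type*) [Field K]  :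
    S_HW K := fun _ _ _ f hJ hp e =>
  hw_main hJ hp (f.totalDegree + 1) f 0
    (fun i hi => homogeneousComponent_eq_zero i f (by omega)) e.symm

end sHW

section sLIN

open MvPolynomial Module Filter

attribute [local instance] MvPolynomial.gradedAlgebra

lemma lin_core {R : Type*} [CommRing R] (I : Ideal R) {l : R} (hl : l ∈ I)
    (ψ : R →+* Polynomial R) (h1 : ∀ g, (ψ g).eval l = g) (h2 : ψ l = Polynomial.X) (k : ℕ) :
    (I ^ (k + 1)).colon {l} ≤ I ^ k := by
  have a1 : ∀ b ∈ I, ∀ r, (ψ b).coeff r ∈ I ^ (1 - r) := fun b hb r => by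
    rcases r with _ | r
    · have e := congrArg (Polynomial.eval l) (Polynomial.X_mul_divX_add (ψ b))
      rw [h1, Polynomial.eval_add, Polynomial.eval_mul, Polynomial.eval_X, Polynomial.eval_C] at e
      rw [Nat.sub_zero, pow_one, eq_sub_of_add_eq' e]
      exact I.sub_mem hb (I.mul_mem_right _ hl)
    · simp
  have a2 : ∀ k, ∀ g ∈ I ^ k, ∀ r, (ψ g).coeff r ∈ I ^ (k - r) := fun k => by
    induction k with
    | zero => simp
    | succ k ih =>
      intro g hg
      rw [pow_succ] at hg
      refine Submodule.mul_induction_on hg (fun u hu v hv r => ?_) fun u v hu hv r => ?_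
      · rw [map_mul, Polynomial.coeff_mul]
        refine Ideal.sum_mem _ fun p hp => ?_
        have := Ideal.mul_mem_mul (ih u hu p.1) (a1 v hv p.2)
        rw [← pow_add] at this
        have e : p.1 + p.2 = r := by simpa using hp
        exact Ideal.pow_le_pow_right (by omega) this
      · rw [map_add, Polynomial.coeff_add]
        exact Ideal.add_mem _ (hu r) (hv r)
  intro g hg
  rw [Submodule.mem_colon_singleton, smul_eq_mul] at hg
  rw [← h1 g, Polynomial.eval_eq_sum_range]
  refine Ideal.sum_mem _ fun r _ => ?_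
  have := a2 _ _ hg (r + 1)
  rw [map_mul, h2, Polynomial.coeff_mul_X] at this
  have := Ideal.mul_mem_mul this (Ideal.pow_mem_pow hl r)
  rw [← pow_add] at this
  exact Ideal.pow_le_pow_right (by omega) this

theorem p_LIN (K : Type*) [Field K]  :
    S_LIN K := by
  intro n I l hl h0 h1 k
  have h2 : l ∈ homogeneousSubmodule (Fin n) K 1 := h1
  rw [homogeneousSubmodule_one_eq_span_X, Submodule.mem_span_range_iff_exists_fun] at h2
  obtain ⟨c, hc⟩ := h2
  obtain ⟨i, hi⟩ : ∃ i, c i ≠ 0 := by
    by_contra! h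
    exact h0 (by simp [← hc, h])
  let ψ : MvPolynomial (Fin n) K →ₐ[K] Polynomial (MvPolynomial (Fin n) K) := aeval fun j =>
    Polynomial.C (X j) + if j = i then (c i)⁻¹ • (Polynomial.X - Polynomial.C l) else 0
  refine lin_core I hl ψ.toRingHom (fun g => ?_) ?_ k
  · change (ψ g).eval l = g
    induction g using MvPolynomial.induction_on with
    | C a => simp [ψ]
    | add p q hp hq => rw [map_add, Polynomial.eval_add, hp, hq]
    | mul_X p j hp =>
      rw [map_mul, Polynomial.eval_mul, hp]
      by_cases h : j = i <;> simp [ψ, h]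
  · change ψ l = _
    have e : ∑ j, c j • Polynomial.C (X j : MvPolynomial (Fin n) K) = Polynomial.C l := by
      rw [← hc, map_sum]
      simp [Polynomial.smul_C]
    conv_lhs => rw [← hc]
    simp only [map_sum, map_smul, ψ, aeval_X, smul_add, Finset.sum_add_distrib, e, smul_ite,
      smul_zero, Finset.sum_ite_eq', Finset.mem_univ, if_true, smul_smul, mul_inv_cancel₀ hi,
      one_smul, add_sub_cancel]

end sLIN

section sGCD

open MvPolynomial Module Filter

attribute [local instance] MvPolynomial.gradedAlgebra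

theorem p_GCD (K : Type*) [Field K]  :
    S_GCD K := by
  classical
  intro n I hI h0
  obtain ⟨f, hf, hf0, hfh⟩ := exists_initDeg hI h0
  have hdvd : ∀ g : MvPolynomial (Fin n) K, I ≤ Ideal.span {g} → g ∣ f := fun g hg =>
    Ideal.mem_span_singleton.1 (hg hf)
  have hne : ∀ g : MvPolynomial (Fin n) K, I ≤ Ideal.span {g} → g ≠ 0 := fun g hg e =>
    hf0 (zero_dvd_iff.1 (e ▸ hdvd g hg))
  have hbdd : BddAbove {d | ∃ g : MvPolynomial (Fin n) K, I ≤ Ideal.span {g} ∧
      g.totalDegree = d} := by
    refine ⟨f.totalDegree, ?_⟩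
    rintro d ⟨g, hg, rfl⟩
    exact totalDegree_le_of_dvd_of_isDomain (hdvd g hg) hf0
  obtain ⟨g, hg, hgd⟩ := Nat.sSup_mem (by exact ⟨_, 1, by simp, rfl⟩) hbdd
  have hmax : ∀ g' : MvPolynomial (Fin n) K, I ≤ Ideal.span {g'} →
      g'.totalDegree ≤ g.totalDegree := fun g' hg' => hgd ▸ le_csSup hbdd ⟨g', hg', rfl⟩
  obtain ⟨q, hq⟩ := hdvd g hg
  obtain ⟨e, -, he, -, -⟩ := hom_factor (hq ▸ hfh) (hq ▸ hf0)
  have hmem : ∀ x ∈ I, ∃ y ∈ I.colon {g}, g * y = x := by
    intro x hx
    obtain ⟨y, rfl⟩ := Ideal.mem_span_singleton.1 (hg hx)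
    exact ⟨y, mem_colon.2 (mul_comm g y ▸ hx), rfl⟩
  refine ⟨g, e, hne g hg, he, le_antisymm (fun x hx => ?_) (fun x hx => ?_), fun h hh => ?_⟩
  · exact Ideal.mem_span_singleton_mul.2 (hmem x hx)
  · obtain ⟨y, hy, rfl⟩ := Ideal.mem_span_singleton_mul.1 hx
    exact mul_comm y g ▸ mem_colon.1 hy
  · have h1 : I ≤ Ideal.span {g * h} := by
      intro x hx
      obtain ⟨y, hy, rfl⟩ := hmem x hx
      exact Ideal.mem_span_singleton.2
        (mul_dvd_mul_left g (Ideal.mem_span_singleton.1 (hh hy)))
    have h2 : h ≠ 0 := right_ne_zero_of_mul (hne _ h1)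
    have h3 := hmax _ h1
    rw [totalDegree_mul_of_isDomain (hne g hg) h2] at h3
    have h4 : h = C (h.coeff 0) := totalDegree_eq_zero_iff_eq_C.1 (by omega)
    rw [h4] at h2 ⊢
    exact (IsUnit.mk0 _ fun e => h2 (by rw [e, C_0])).map C

end sGCD

section sGMUL

open MvPolynomial Module Filter

attribute [local instance] MvPolynomial.gradedAlgebra

lemma gmul_unit {K : Type*} [Field K] {n : ℕ} {d : MvPolynomial (Fin n) K} (h0 : d ≠ 0)
    (h : d.IsHomogeneous 0) : IsUnit d := by
  obtain ⟨c, rfl⟩ : ∃ c, d = C c := ⟨_, totalDegree_eq_zero_iff_eq_C.1 (by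
    simpa using h.totalDegree_le)⟩
  exact (Ne.isUnit fun e => h0 (by rw [e, C_0])).map C

lemma gmul_mem {R : Type*} [CommRing R] {J : Ideal R} {g x : R} {k : ℕ} :
    x ∈ (Ideal.span {g} * J) ^ k ↔ ∃ y ∈ J ^ k, g ^ k * y = x := by
  rw [mul_pow, Ideal.span_singleton_pow, Ideal.mem_span_singleton_mul]

theorem p_GMUL (K : Type*) [Field K]  :
    S_GMUL K := by
  intro n J g e hJ h0 hg hge
  have m : ∀ f ∈ J, g * f ∈ Ideal.span {g} * J := fun f hf =>
    Ideal.mem_span_singleton_mul.2 ⟨f, hf, rfl⟩
  have hd : initDeg (Ideal.span {g} * J) = e + initDeg J := by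
    obtain ⟨f, hf, f0, hfd⟩ := exists_initDeg hJ h0
    refine le_antisymm (initDeg_le (m f hf) (mul_ne_zero hg f0) (hge.mul hfd)) ?_
    obtain ⟨F, hF, F0, hFd⟩ := exists_initDeg (I := Ideal.span {g} * J)
      (Ideal.IsHomogeneous.mul (hom_span (by rintro _ rfl; exact ⟨e, hge⟩)) hJ)
      (fun h => mul_ne_zero hg f0 (h.le (m f hf)))
    obtain ⟨y, hy, rfl⟩ := Ideal.mem_span_singleton_mul.1 hF
    obtain ⟨a, b, ha, hb, hab⟩ := hom_factor hFd F0
    rw [← hab, ha.inj_right hge hg]
    exact Nat.add_le_add_left (initDeg_le hy (right_ne_zero_of_mul F0) hb) e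
  refine ⟨hd, ?_, ?_⟩
  · rintro ⟨f, hf, f0, hfd, j, s, d, hs, hN, hr⟩
    refine ⟨g * f, m f hf, mul_ne_zero hg f0, hd ▸ hge.mul hfd, j, g ^ j * s, _,
      (hge.pow j).mul hs, fun N h => ?_, hr.trans (Ideal.radical_mono fun x hx => ?_)⟩
    · obtain ⟨y, hy, h⟩ := gmul_mem.1 h
      refine hN N ?_
      rwa [← mul_left_cancel₀ (pow_ne_zero (j + N) hg) (h.trans (by ring : _ = _ * (f ^ N * s)))]
    · exact mem_colon.2 (gmul_mem.2 ⟨_, mem_colon.1 hx, by ring⟩)
  · rintro hc ⟨f, hf, f0, hfd, hk⟩
    have hF : (g * f).IsHomogeneous (initDeg (Ideal.span {g} * J)) := hd ▸ hge.mul hfd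
    have F0 := mul_ne_zero hg f0
    have rp : IsRelPrime g f := by
      rcases hc with rfl | hr
      · have : initDeg (⊤ : Ideal (MvPolynomial (Fin n) K)) = 0 :=
          Nat.le_zero.1 (initDeg_le trivial one_ne_zero (isHomogeneous_one _ _))
        exact fun d _ h => isUnit_of_dvd_unit h (gmul_unit f0 (this ▸ hfd))
      · rintro d ⟨g', hg'⟩ ⟨f', hf'⟩
        have e1 : g * f = d * (g * f') := by rw [hf']; ring
        have hu : g * f' ∈ Ideal.span {g} * J := hr ⟨2, by
          have : (g * f') ^ 2 = g * (g' * f' * f) := by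
            conv_lhs => rw [sq]; arg 2; rw [hg']
            rw [hf']; ring
          exact this ▸ m _ (J.mul_mem_left _ hf)⟩
        rw [e1] at hF F0
        obtain ⟨a, b, ha, hb, hab⟩ := hom_factor hF F0
        have := initDeg_le hu (right_ne_zero_of_mul F0) hb
        exact gmul_unit (left_ne_zero_of_mul F0) ((by omega : a = 0) ▸ ha)
    refine ⟨g * f, m f hf, F0, hF, fun k x hx => ?_⟩
    obtain ⟨y, hy, h⟩ := gmul_mem.1 (mem_colon.1 hx)
    have e1 : x * f = g ^ k * y := mul_left_cancel₀ hg (by rw [pow_succ] at h; linear_combination -h)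
    obtain ⟨x', rfl⟩ : g ^ k ∣ x := (rp.pow_left (m := k)).dvd_of_dvd_mul_right ⟨y, e1⟩
    refine gmul_mem.2 ⟨x', hk k (mem_colon.2 ?_), rfl⟩
    rwa [mul_left_cancel₀ (pow_ne_zero k hg) ((mul_assoc _ _ _).symm.trans e1)]

end sGMUL

section sN2

open MvPolynomial Module Filter

attribute [local instance] MvPolynomial.gradedAlgebra

theorem p_N2 (K : Type*) [Field K]  :
    S_N2 K := by
  intro n J hn hJ ht hu
  have h0 : J ≠ ⊥ := fun e => not_isUnit_zero (hu 0 (e ▸ bot_le))
  obtain ⟨f, hf, hf0, hd⟩ := exists_initDeg hJ h0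
  have h1 : 1 ≤ initDeg J := le_of_mem_oI hd hf0 (hJ.le_mm ht hf)
  refine ⟨f, hf, hf0, hd, 1, 1, 0, isHomogeneous_one _ _, fun N hN => ?_, ?_⟩
  · rw [mul_one] at hN
    have := hJ.le_deg hN (pow_ne_zero _ hf0) (hd.pow N)
    lia
  · have e : (J ^ 1).colon {1} = J := by
      ext g
      rw [mem_colon, mul_one, pow_one]
    rw [e, Ideal.radical_eq_sInf]
    refine le_sInf fun Q hQ => ?_
    obtain ⟨hJQ, hQ⟩ := hQ
    set Q' := (Q.homogeneousCore (homogeneousSubmodule (Fin n) K)).toIdeal with hQ'
    have hp : Q'.IsPrime := hQ.homogeneousCore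
    have hl : J ≤ Q' := by
      rw [← hJ.toIdeal_homogeneousCore_eq_self]
      exact Ideal.homogeneousCore_mono _ hJQ
    have hm : Q' ≤ mm K (Fin n) :=
      Hom.le_mm (HomogeneousIdeal.isHomogeneous _) hp.ne_top
    have a0 : Q'.height ≠ 0 := fun e =>
      h0 (le_bot_iff.1 (hl.trans_eq (Ideal.height_eq_zero_iff_eq_bot.1 e)))
    have a1 : Q'.height ≠ 1 := fun e => by
      obtain ⟨h, hh⟩ := (UniqueFactorizationMonoid.isPrincipal_of_height_eq_one e).principal
      exact hp.ne_top (Ideal.eq_top_of_isUnit_mem _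
        (hh ▸ Submodule.mem_span_singleton_self h) (hu h (hl.trans_eq hh)))
    have a2 : (mm K (Fin n)).height ≤ Q'.height := by
      rw [height_mm]
      refine le_trans (b := 2) (by exact_mod_cast hn) ?_
      generalize Q'.height = x at a0 a1
      induction x using ENat.recTopCoe with
      | top => exact le_top
      | coe x =>
        have b0 : x ≠ 0 := by exact_mod_cast a0
        have b1 : x ≠ 1 := by exact_mod_cast a1
        exact_mod_cast (by omega : 2 ≤ x)
    rw [← Ideal.eq_of_le_of_height_le _ hm a2]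
    exact Ideal.toIdeal_homogeneousCore_le _ _

end sN2

end Pool.Agent.P.MP_ad771b_al.H
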