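import Pool.Agent.P.MP_ad771b_al.H.Iface

/-! Steps PT, VEC, DIM, J0, J1, J2, CI, BEZ, NEW. -/

set_option autoImplicit false
set_option linter.unusedSectionVars false

namespace Pool.Agent.P.MP_ad771b_al.H

section sPT

open MvPolynomial Module Filter

attribute [local instance] MvPolynomial.gradedAlgebra

lemma pt_gen {K : Type*} [Field K] {P : Ideal (S3 K)} (h : IsPt P) :
    ∃ x y : S3 K, x.IsHomogeneous 1 ∧ y.IsHomogeneous 1 ∧ P = Ideal.span {x, y} ∧
      IsRelPrime x y := by
  obtain ⟨A, -, h2, rfl⟩ := h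
  refine ⟨A.symm (X 0), A.symm (X 1), h2 0, h2 1, ?_, ?_⟩
  · have e : ∀ J : Ideal (S3 K), J.comap A = J.map A.symm := fun J =>
      (Ideal.map_symm A.toRingEquiv).symm
    rw [e, oI_one, Ideal.map_span,
      show {i | (![1, 1, 0] : Fin 3 → ℕ) i ≠ 0} = ({0, 1} : Set (Fin 3)) by
        ext i
        fin_cases i <;> simp, Set.image_pair, Set.image_pair]
  · have h0 : Irreducible (A.symm (X 0)) :=
      (MulEquiv.irreducible_iff A.symm).2 (X_prime (R := K) (i := (0 : Fin 3))).irreducible
    rw [h0.isRelPrime_iff_not_dvd, map_dvd_iff, X_dvd_X]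
    decide

lemma pt_hom {K : Type*} [Field K] {P : Ideal (S3 K)} (h : IsPt P) : Hom P := by
  obtain ⟨x, y, hx, hy, rfl, -⟩ := pt_gen h
  refine hom_span ?_
  rintro f (rfl | rfl)
  exacts [⟨1, hx⟩, ⟨1, hy⟩]

theorem p_PT (K : Type*) [Field K]  :
    S_PT K := by
  intro P hP
  refine ⟨pt_hom hP, (pt_hom hP).le_mm hP.prime.ne_top, pt_gen hP, fun Q hQ hne => ?_⟩
  have hn : ¬ Q ≤ P := fun h => hne (hQ.eq_of_le hP h).symm
  refine ⟨?_, ?_⟩
  · obtain ⟨x, y, hx, hy, rfl, -⟩ := pt_gen hQ
    by_contra hc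
    push Not at hc
    refine hn (Ideal.span_le.2 ?_)
    rintro f (rfl | rfl)
    · by_contra h
      exact hc _ (Ideal.subset_span (by simp)) h hx
    · by_contra h
      exact hc _ (Ideal.subset_span (by simp)) h hy
  · rw [Ideal.radical_eq_sInf]
    refine le_sInf ?_
    rintro R ⟨hR, hp⟩
    let 𝒜 := homogeneousSubmodule (Fin 3) K
    have h1 : (R.homogeneousCore 𝒜).toIdeal.IsPrime := hp.homogeneousCore
    have h2 : ∀ J : Ideal (S3 K), Hom J → J ≤ R → J ≤ (R.homogeneousCore 𝒜).toIdeal :=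
      fun J hJ h => hJ.toIdeal_homogeneousCore_eq_self.ge.trans (Ideal.homogeneousCore_mono 𝒜 h)
    have h3 : P < (R.homogeneousCore 𝒜).toIdeal :=
      lt_of_le_of_ne (h2 P (pt_hom hP) (le_sup_left.trans hR)) fun h =>
        hn ((h2 Q (pt_hom hQ) (le_sup_right.trans hR)).trans h.ge)
    have := hP.prime
    have h4 := Ideal.height_add_one_le_of_lt_of_isPrime h3
    have h5 : (R.homogeneousCore 𝒜).toIdeal ≤ mm K (Fin 3) :=
      Hom.le_mm (R.homogeneousCore 𝒜).isHomogeneous h1.ne_top
    have h6 := Ideal.eq_of_le_of_height_le _ h5 (by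
      rw [height_mm]
      rw [hP.height] at h4
      exact le_trans (by norm_num) h4)
    exact h6.ge.trans (Ideal.toIdeal_homogeneousCore_le 𝒜 R)

end sPT

section sVEC

open MvPolynomial Module Filter

attribute [local instance] MvPolynomial.gradedAlgebra

lemma vec_single {m : Fin 3 →₀ ℕ} {d : ℕ} (h : Finsupp.weight 1 m = d) (h0 : m 0 = 0)
    (h1 : m 1 = 0) : m = Finsupp.single 2 d := by
  rw [Finsupp.weight_eq_sum, Fin.sum_univ_three] at h
  ext j
  fin_cases j <;> simp_all

lemma vec_mem {K : Type*} [Field K] {g : S3 K} {d : ℕ} (hg : g.IsHomogeneous d) :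
    g ∈ oI K ![1, 1, 0] 1 ↔ eval ![0, 0, 1] g = 0 := by
  have e : eval ![0, 0, 1] g = coeff (Finsupp.single 2 d) g := by
    rw [eval_eq', Finset.sum_eq_single (Finsupp.single 2 d)]
    · simp [Fin.prod_univ_three]
    · intro m hm hne
      have : m 0 ≠ 0 ∨ m 1 ≠ 0 := by
        by_contra hn
        rw [not_or, not_not, not_not] at hn
        exact hne (vec_single (hom_iff.1 hg m hm) hn.1 hn.2)
      rcases this with h | h <;> simp [Fin.prod_univ_three, h]
    · intro h
      rw [notMem_support_iff.1 h, zero_mul]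
  rw [e, mem_oI]
  constructor
  · intro h
    by_contra hn
    simpa [Finsupp.weight_single] using h _ (mem_support_iff.2 hn)
  · intro h m hm
    by_contra hn
    rw [Finsupp.weight_eq_sum, Fin.sum_univ_three] at hn
    simp only [Matrix.cons_val, smul_eq_mul, mul_one, mul_zero, add_zero] at hn
    rw [vec_single (hom_iff.1 hg m hm) (by omega) (by omega)] at hm
    exact mem_support_iff.1 hm h

theorem p_VEC (K : Type*) [Field K]  :
    S_VEC K := by
  intro v hv
  obtain ⟨i, hi⟩ := Function.ne_iff.1 hv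
  have hi' : v i ≠ 0 := hi
  let σ := Equiv.swap i (2 : Fin 3)
  have hσ : ∀ j, σ (σ j) = j := Equiv.swap_apply_self i 2
  have h1 : ∀ j, σ j = i ↔ j = 2 := fun j => by
    rw [← Equiv.eq_symm_apply, Equiv.symm_swap, Equiv.swap_apply_left]
  have h2 : ∀ j, σ j = 2 ↔ j = i := fun j => by
    rw [← Equiv.eq_symm_apply, Equiv.symm_swap, Equiv.swap_apply_right]
  have hc : (C (v i) : S3 K) * C (v i)⁻¹ = 1 := by rw [← C_mul, mul_inv_cancel₀ hi', C_1]
  let a : Fin 3 → S3 K := fun j => (if j = i then 0 else X (σ j)) + C (v j) * X 2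
  let b : Fin 3 → S3 K := fun j =>
    if j = 2 then C (v i)⁻¹ * X i else X (σ j) - C (v (σ j)) * (C (v i)⁻¹ * X i)
  let A : S3 K ≃ₐ[K] S3 K := AlgEquiv.ofAlgHom (aeval a) (aeval b)
    (algHom_ext fun j => by
      by_cases h : j = 2
      · simp only [AlgHom.comp_apply, aeval_X, a, b, h, if_true, map_mul, algHom_C, algebraMap_eq,
          AlgHom.id_apply]
        linear_combination (X 2 : S3 K) * hc
      · simp only [AlgHom.comp_apply, aeval_X, a, b, h, if_true, if_false, map_mul, map_sub,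
          algHom_C, algebraMap_eq, AlgHom.id_apply, h1, hσ]
        linear_combination (-(C (v (σ j)) * X 2) : S3 K) * hc)
    (algHom_ext fun j => by
      by_cases h : j = i
      · simp only [AlgHom.comp_apply, aeval_X, a, b, h, if_true, map_mul, map_add, map_zero,
          algHom_C, algebraMap_eq, AlgHom.id_apply]
        linear_combination (X i : S3 K) * hc
      · simp only [AlgHom.comp_apply, aeval_X, a, b, h, if_true, if_false, map_mul, map_add,
          algHom_C, algebraMap_eq, AlgHom.id_apply, h2, hσ]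
        ring)
  have hA : ∀ j, A (X j) = a j := fun j => aeval_X a j
  have hB : ∀ j, A.symm (X j) = b j := fun j => aeval_X b j
  have hX : ∀ j, (X j : S3 K).IsHomogeneous 1 := isHomogeneous_X K
  have ha : ∀ j, (A (X j)).IsHomogeneous 1 := fun j => by
    rw [hA]
    refine IsHomogeneous.add ?_ ((hX 2).C_mul _)
    split_ifs
    exacts [isHomogeneous_zero _ _ _, hX _]
  have hb : ∀ j, (A.symm (X j)).IsHomogeneous 1 := fun j => by
    rw [hB]
    simp only [b]
    split_ifs
    exacts [(hX i).C_mul _, (hX _).sub (((hX i).C_mul _).C_mul _)]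
  refine ⟨_, ⟨A, ha, hb, rfl⟩, fun h d hd => ?_⟩
  have e : eval ![0, 0, 1] (A h) = eval v h := by
    have e1 : (aeval ![0, 0, 1] : S3 K →ₐ[K] K).comp (A : S3 K →ₐ[K] S3 K) = aeval v :=
      algHom_ext fun j => by
        have h3 : j ≠ i → (![0, 0, 1] : Fin 3 → K) (σ j) = 0 := fun hj => by
          have := (h2 j).not.2 hj
          generalize σ j = k at this
          fin_cases k <;> simp_all
        change aeval ![0, 0, 1] (A (X j)) = _
        rw [hA]
        by_cases hj : j = i
        · simp [a, hj]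
        · simp [a, hj, h3 hj]
    exact DFunLike.congr_fun e1 h
  rw [Ideal.mem_comap, vec_mem (hom_map ha hd), e]

end sVEC

section sDIM

open MvPolynomial Module Filter

attribute [local instance] MvPolynomial.gradedAlgebra

theorem p_DIM (K : Type*) [Field K]  :
    S_DIM K := by
  intro N
  have e : homogeneousSubmodule (Fin 3) K N =
      restrictSupport K (↑((Finset.univ : Finset (Fin 3)).finsuppAntidiag N) : Set (Fin 3 →₀ ℕ)) := by
    rw [homogeneousSubmodule_eq_finsupp_supported, restrictSupport]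
    congr 1
    ext d
    simp [Finsupp.degree_eq_sum]
  rw [e, finrank_eq_nat_card_basis (basisRestrictSupport K _), Nat.card_coe_set_eq,
    Set.ncard_coe_finset, Finset.card_finsuppAntidiag_nat_eq_choose, Finset.card_univ,
    Fintype.card_fin, show 3 + N - 1 = N + 2 by omega, Nat.choose_symm_add, Nat.choose_two_right,
    Nat.mul_div_cancel' (Nat.even_mul_pred_self _).two_dvd]
  rfl

end sDIM

section sJ0

open MvPolynomial Module Filter

attribute [local instance] MvPolynomial.gradedAlgebra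

lemma j0_w (w : Fin 3 → ℕ) (m : Fin 3 →₀ ℕ) :
    Finsupp.weight w m = m 0 * w 0 + m 1 * w 1 + m 2 * w 2 := by
  rw [Finsupp.weight_apply, Finsupp.sum_fintype _ _ (by simp), Fin.sum_univ_three]
  rfl

theorem p_J0 (K : Type*) [Field K]  :
    S_J0 K := by
  intro P k N U hP hU
  obtain ⟨A, h1, -, h2⟩ := hP.chart
  have hle : U ≤ homogeneousSubmodule (Fin 3) K N := fun s hs => (hU s hs).1
  have : FiniteDimensional K U := Submodule.finiteDimensional_of_le hle
  let mo : Fin (k + 1) → (Fin 3 →₀ ℕ) := fun i =>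
    Finsupp.single 0 i.1 + Finsupp.single 1 (k - i) + Finsupp.single 2 (N - k)
  let lam : U →ₗ[K] (Fin (k + 1) → K) :=
    LinearMap.pi fun i => lcoeff K (mo i) ∘ₗ A.toLinearMap ∘ₗ U.subtype
  have e1 := lam.finrank_range_add_finrank_ker
  have e2 : finrank K (LinearMap.range lam) ≤ k + 1 :=
    (Submodule.finrank_le _).trans (by simp)
  have e3 : (LinearMap.ker lam).map U.subtype ≤ U ⊓ (P ^ (k + 1)).restrictScalars K := by
    rintro _ ⟨s, hs, rfl⟩
    refine ⟨s.2, (h2 _ _).2 (mem_oI.2 fun m hm => ?_)⟩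
    have a1 := mem_oI.1 ((h2 _ _).1 (hU s s.2).2) m hm
    have a2 := hom_iff.1 (h1 _ _ (hU s s.2).1) m hm
    rw [j0_w] at a1 a2 ⊢
    simp only [Matrix.cons_val_zero, Matrix.cons_val_one, Matrix.cons_val, Pi.one_apply, mul_one,
      mul_zero, add_zero] at a1 a2 ⊢
    by_contra hn
    have a3 : m = mo ⟨m 0, by omega⟩ := by
      ext j
      fin_cases j <;> simp [mo] <;> omega
    have a4 := congrFun (LinearMap.mem_ker.1 hs) ⟨m 0, by omega⟩
    rw [a3] at hm
    exact mem_support_iff.1 hm a4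
  have e4 := Submodule.finrank_mono e3
  rw [Submodule.finrank_map_subtype_eq] at e4
  omega

end sJ0

section sJ1

open MvPolynomial Module Filter

attribute [local instance] MvPolynomial.gradedAlgebra

lemma j1_step {K : Type*} [Field K] (hJ0 : S_J0 K) {P : Ideal (S3 K)} (hP : IsPt P) {N : ℕ}
    (U : Submodule K (S3 K)) (hU : ∀ s ∈ U, s.IsHomogeneous N) (k : ℕ) :
    2 * finrank K U ≤ 2 * finrank K ↥(U ⊓ (P ^ k).restrictScalars K) + k * (k + 1) := by
  induction k with
  | zero => rw [pow_zero, Ideal.one_eq_top, Submodule.restrictScalars_top, inf_top_eq]; omega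
  | succ k ih =>
    have h := hJ0 P k N (U ⊓ (P ^ k).restrictScalars K) hP fun s hs => ⟨hU s hs.1, hs.2⟩
    have e : U ⊓ (P ^ k).restrictScalars K ⊓ (P ^ (k + 1)).restrictScalars K =
        U ⊓ (P ^ (k + 1)).restrictScalars K := by
      rw [inf_assoc]
      exact congrArg _ (inf_eq_right.2 fun s hs => Ideal.pow_le_pow_right k.le_succ hs)
    rw [e] at h
    lia

theorem p_J1 (K : Type*) [Field K] (hDIM : S_DIM K) (hJ0 : S_J0 K) :
    S_J1 K := by
  classical
  intro Z w N hZ
  induction Z using Finset.induction_on with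
  | empty =>
    have e : V (∅ : Finset (Ideal (S3 K))) w N = homogeneousSubmodule (Fin 3) K N := by
      ext s
      simp [mem_V]
    rw [dV, e, hDIM N]
    omega
  | insert P Z hP ih =>
    have h1 := ih fun Q hQ => hZ Q (Finset.mem_insert_of_mem hQ)
    have h2 := j1_step hJ0 (hZ P (Finset.mem_insert_self _ _)) (V Z w N)
      (fun s hs => (mem_V.1 hs).1) (w P)
    have e : V (insert P Z) w N = V Z w N ⊓ (P ^ w P).restrictScalars K := by
      ext s
      simp only [mem_V, Finset.forall_mem_insert, Submodule.mem_inf, Submodule.restrictScalars_mem]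
      tauto
    rw [Finset.sum_insert hP, dV, e]
    rw [dV] at h1
    omega

end sJ1

section sJ2

open MvPolynomial Module Filter

attribute [local instance] MvPolynomial.gradedAlgebra

lemma j2_dim {K M : Type*} [Field K] [AddCommGroup M] [Module K M] {U U' : Submodule K M}
    [FiniteDimensional K U] (h : U' ≤ U) {m : ℕ} (v : Fin m → M) (hv : ∀ i, v i ∈ U)
    (hi : ∀ c : Fin m → K, ∑ i, c i • v i ∈ U' → c = 0) : finrank K U' + m ≤ finrank K U := by
  have : FiniteDimensional K U' := Submodule.finiteDimensional_of_le h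
  let f : (U' × (Fin m → K)) →ₗ[K] U :=
    LinearMap.codRestrict U (U'.subtype.coprod (Fintype.linearCombination K v)) fun x => by
      rw [LinearMap.coprod_apply, Fintype.linearCombination_apply]
      exact add_mem (h x.1.2) (Submodule.sum_mem _ fun i _ => Submodule.smul_mem _ _ (hv i))
  have hf : Function.Injective f := by
    rw [injective_iff_map_eq_zero]
    rintro ⟨u, c⟩ e
    have e' : (u : M) + ∑ i, c i • v i = 0 := by
      have := congrArg Subtype.val e
      rwa [LinearMap.codRestrict_apply, LinearMap.coprod_apply,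
        Fintype.linearCombination_apply] at this
    have hc : c = 0 := hi c (by rw [eq_neg_of_add_eq_zero_right e']; exact neg_mem u.2)
    subst hc
    simpa using e'
  simpa using LinearMap.finrank_le_finrank_of_injective hf

/-- The exponent of `x ^ i * y ^ (k - i)`. -/
noncomputable def j2_e (k i : ℕ) : Fin 3 →₀ ℕ := Finsupp.single 0 i + Finsupp.single 1 (k - i)

lemma j2_w {k i : ℕ} (h : i ≤ k) : Finsupp.weight ![1, 1, 0] (j2_e k i) = k := by
  rw [j2_e, map_add, Finsupp.weight_single, Finsupp.weight_single]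
  simp [h]

lemma j2_w1 {k i : ℕ} (h : i ≤ k) : Finsupp.weight 1 (j2_e k i) = k := by
  rw [j2_e, map_add, Finsupp.weight_single, Finsupp.weight_single]
  simp [h]

lemma j2_step {K : Type*} [Field K] (hPT : S_PT K) (Z : Finset (Ideal (S3 K)))
    (w w' : Ideal (S3 K) → ℕ) (N : ℕ) (hZ : Pts Z) (P : Ideal (S3 K)) (hP : P ∈ Z)
    (h1 : w' P = w P + 1) (h2 : ∀ Q, Q ≠ P → w' Q = w Q) (hs : ∑ Q ∈ Z, w Q ≤ N) :
    dV Z w' N + (w P + 1) ≤ dV Z w N := by
  classical
  have hp := hZ P hP
  obtain ⟨A, -, hA, e⟩ := hp.chart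
  have hl : ∀ Q : Ideal (S3 K), ∃ l : S3 K, l ∉ P ∧ l.IsHomogeneous 1 ∧ (Q ∈ Z.erase P → l ∈ Q) := by
    intro Q
    by_cases hQ : Q ∈ Z.erase P
    · obtain ⟨l, a, b, c⟩ := ((hPT P hp).2.2.2 Q (hZ Q (Finset.mem_of_mem_erase hQ))
        (Finset.ne_of_mem_erase hQ).symm).1
      exact ⟨l, b, c, fun _ => a⟩
    · refine ⟨A.symm (X 2), fun h => ?_, hA _ _ (isHomogeneous_X _ _), fun h => (hQ h).elim⟩
      rw [← pow_one P, e, AlgEquiv.apply_symm_apply] at h
      simpa [Finsupp.weight_single] using h (Finsupp.single 2 1) (by simp [support_X])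
  choose l l1 l2 l3 using hl
  have hsum := Finset.add_sum_erase Z w hP
  set g : S3 K := (∏ Q ∈ Z.erase P, l Q ^ w Q) * l P ^ (N - ∑ Q ∈ Z, w Q) with hg
  have hpr := hp.prime
  have g1 : g ∉ P := fun h => by
    rcases hpr.mem_or_mem h with h | h
    · obtain ⟨Q, -, h⟩ := Ideal.IsPrime.prod_mem_iff.1 h
      exact l1 Q (hpr.mem_of_pow_mem _ h)
    · exact l1 P (hpr.mem_of_pow_mem _ h)
  have g2 : g.IsHomogeneous (∑ Q ∈ Z.erase P, w Q + (N - ∑ Q ∈ Z, w Q)) := by
    refine IsHomogeneous.mul (IsHomogeneous.prod _ _ _ fun Q _ => ?_) ?_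
    · simpa using (l2 Q).pow (w Q)
    · simpa using (l2 P).pow (N - ∑ Q ∈ Z, w Q)
  refine j2_dim (fun s hs => ?_)
    (fun i : Fin (w P + 1) => A.symm (monomial (j2_e (w P) i) 1) * g) (fun i => ?_) fun c hc => ?_
  · rw [mem_V] at hs ⊢
    refine ⟨hs.1, fun Q hQ => Ideal.pow_le_pow_right ?_ (hs.2 Q hQ)⟩
    by_cases h : Q = P
    · subst h; omega
    · exact (h2 Q h).ge
  · have hi : (i : ℕ) ≤ w P := Nat.lt_succ_iff.1 i.2
    rw [mem_V]
    refine ⟨?_, fun Q hQ => ?_⟩
    · have := (hA _ _ (hom_iff.2 fun m hm => (show Finsupp.weight 1 m = w P by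
        rw [Finset.mem_singleton.1 (support_monomial_subset hm), j2_w1 hi]) :
          (monomial (j2_e (w P) i) (1 : K)).IsHomogeneous (w P))).mul g2
      rwa [show w P + (∑ Q ∈ Z.erase P, w Q + (N - ∑ Q ∈ Z, w Q)) = N by omega] at this
    · by_cases h : Q = P
      · subst h
        refine Ideal.mul_mem_right _ _ ?_
        rw [e, AlgEquiv.apply_symm_apply]
        exact monomial_mem_monI (j2_w hi).ge _
      · have hQ' : Q ∈ Z.erase P := Finset.mem_erase.2 ⟨h, hQ⟩
        refine Ideal.mul_mem_left _ _ (Ideal.mul_mem_right _ _ ?_)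
        rw [← Finset.mul_prod_erase _ _ hQ']
        exact Ideal.mul_mem_right _ _ (Ideal.pow_mem_pow (l3 Q hQ') _)
  · have h3 := (mem_V.1 hc).2 P hP
    have h4 : ∑ i : Fin (w P + 1), c i • (A.symm (monomial (j2_e (w P) i) 1) * g) =
        A.symm (∑ i : Fin (w P + 1), monomial (j2_e (w P) i) (c i)) * g := by
      rw [map_sum, Finset.sum_mul]
      refine Finset.sum_congr rfl fun i _ => ?_
      rw [← smul_mul_assoc, ← map_smul, smul_monomial, smul_eq_mul, mul_one]
    rw [h4, h1] at h3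
    have h5 : A.symm (∑ i : Fin (w P + 1), monomial (j2_e (w P) i) (c i)) ∈ P ^ (w P + 1) := by
      by_contra h
      exact hp.mul_notMem (b := 0) h (by rwa [zero_add, pow_one]) h3
    rw [e, AlgEquiv.apply_symm_apply] at h5
    funext i
    by_contra hne
    have hi : (i : ℕ) ≤ w P := Nat.lt_succ_iff.1 i.2
    have h6 := mem_oI.1 h5 (j2_e (w P) i) (mem_support_iff.2 (by
      rw [coeff_sum, Finset.sum_eq_single i (fun j _ hj => ?_) (by simp)]
      · rwa [coeff_monomial, if_pos rfl]
      · rw [coeff_monomial, if_neg fun h => hj (Fin.ext ?_)]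
        simpa [j2_e] using DFunLike.congr_fun h 0))
    rw [j2_w hi] at h6
    omega

theorem p_J2 (K : Type*) [Field K] (hDIM : S_DIM K) (hPT : S_PT K) :
    S_J2 K := by
  classical
  intro Z w N hZ hs
  obtain ⟨n, hn⟩ : ∃ n, ∑ P ∈ Z, w P = n := ⟨_, rfl⟩
  induction n generalizing w with
  | zero =>
    rw [Finset.sum_eq_zero_iff] at hn
    rw [Finset.sum_eq_zero fun P hP => by rw [hn P hP, zero_mul], add_zero, ← hDIM N]
    exact Nat.mul_le_mul_left 2 (Submodule.finrank_mono inf_le_left)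
  | succ n ih =>
    obtain ⟨P, hP, h0⟩ := Finset.exists_ne_zero_of_sum_ne_zero (hn.trans_ne n.succ_ne_zero)
    obtain ⟨k, hk⟩ := Nat.exists_eq_succ_of_ne_zero h0
    have e1 := Finset.add_sum_erase Z w hP
    have e2 := Finset.add_sum_erase Z (Function.update w P k) hP
    have e3 := Finset.add_sum_erase Z (fun Q => w Q * (w Q + 1)) hP
    have e4 := Finset.add_sum_erase Z
      (fun Q => Function.update w P k Q * (Function.update w P k Q + 1)) hP
    have a1 : ∀ Q ∈ Z.erase P, Function.update w P k Q = w Q := fun Q hQ =>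
      Function.update_of_ne (Finset.ne_of_mem_erase hQ) _ _
    rw [Finset.sum_congr rfl a1, Function.update_self] at e2
    change k + ∑ x ∈ Z.erase P, w x = _ at e2
    rw [Finset.sum_congr rfl fun Q hQ => (show _ = w Q * (w Q + 1) by rw [a1 Q hQ])] at e4
    simp only [Function.update_self] at e4
    have h1 := ih (Function.update w P k) (by omega) (by omega)
    have h2 := j2_step hPT Z (Function.update w P k) w N hZ P hP (by simpa using hk)
      (fun Q hQ => (Function.update_of_ne hQ _ _).symm) (by omega)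
    rw [Function.update_self] at h2
    simp only [hk, Nat.succ_eq_add_one] at e3
    rw [← e3]
    rw [← e4] at h1
    lia

end sJ2

section sCI

open MvPolynomial Module Filter

attribute [local instance] MvPolynomial.gradedAlgebra

lemma ci_rank {K : Type*} [Field K] {f : S3 K} (h : f ≠ 0) (U : Submodule K (S3 K)) :
    finrank K (U.map (LinearMap.mulLeft K f)) = finrank K U :=
  (U.equivMapOfInjective _ (mul_right_injective₀ h)).finrank_eq.symm

theorem p_CI (K : Type*) [Field K] (hDIM : S_DIM K) :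
    S_CI K := by
  intro f g a b N f0 g0 hf hg hfg hN
  obtain ⟨n, rfl⟩ := Nat.exists_eq_add_of_le hN
  have fin : ∀ d, Module.Finite K (homogeneousSubmodule (Fin 3) K d) := fun d =>
    Module.finite_of_finrank_pos (by have := hDIM d; lia)
  have h1 := Submodule.finrank_sup_add_finrank_inf_eq
    ((homogeneousSubmodule (Fin 3) K (b + n)).map (LinearMap.mulLeft K f))
    ((homogeneousSubmodule (Fin 3) K (a + n)).map (LinearMap.mulLeft K g))
  have h2 : (homogeneousSubmodule (Fin 3) K (b + n)).map (LinearMap.mulLeft K f) ⊔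
      (homogeneousSubmodule (Fin 3) K (a + n)).map (LinearMap.mulLeft K g) ≤
      homogeneousSubmodule (Fin 3) K (a + b + n) ⊓ (Ideal.span {f, g}).restrictScalars K := by
    refine sup_le ?_ ?_ <;> rintro _ ⟨u, hu, rfl⟩
    · exact ⟨(add_assoc a b n).symm ▸ hf.mul hu,
        Ideal.mul_mem_right u _ (Ideal.subset_span (by simp))⟩
    · exact ⟨(show b + (a + n) = a + b + n by ring) ▸ hg.mul hu,
        Ideal.mul_mem_right u _ (Ideal.subset_span (by simp))⟩
  have h3 : (homogeneousSubmodule (Fin 3) K (b + n)).map (LinearMap.mulLeft K f) ⊓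
      (homogeneousSubmodule (Fin 3) K (a + n)).map (LinearMap.mulLeft K g) ≤
      (homogeneousSubmodule (Fin 3) K n).map (LinearMap.mulLeft K (f * g)) := by
    rintro _ ⟨⟨u, hu, rfl⟩, v, -, e⟩
    obtain ⟨t, rfl⟩ := hfg.symm.dvd_of_dvd_mul_left (show g ∣ f * u from ⟨v, e.symm⟩)
    refine ⟨_, homogeneousComponent_isHomogeneous n t, ?_⟩
    have := hc_mul hg t n
    rw [homogeneousComponent_of_mem hu, if_pos rfl] at this
    exact (mul_assoc _ _ _).trans (congrArg (f * ·) this.symm)
  have h4 := Submodule.finrank_mono h3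
  have : Module.Finite K ↥(homogeneousSubmodule (Fin 3) K (a + b + n) ⊓
      (Ideal.span {f, g}).restrictScalars K) := Submodule.finiteDimensional_inf_left _ _
  have h5 := Submodule.finrank_mono h2
  rw [ci_rank f0, ci_rank g0] at h1
  rw [ci_rank (mul_ne_zero f0 g0)] at h4
  have := hDIM (b + n)
  have := hDIM (a + n)
  have := hDIM n
  lia

end sCI

section sBEZ

open MvPolynomial Module Filter

attribute [local instance] MvPolynomial.gradedAlgebra

theorem p_BEZ (K : Type*) [Field K] (hDIM : S_DIM K) (hCI : S_CI K) (hJ1 : S_J1 K) (hJ2 : S_J2 K) :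
    S_BEZ K := by
  intro Z w q s a b hZ hq hs qa sb hr h
  obtain ⟨W, hW⟩ : ∃ W, W = ∑ P ∈ Z, w P := ⟨_, rfl⟩
  have inj : Function.Injective (LinearMap.mulLeft K q) := mul_right_injective₀ hq
  set U := (homogeneousSubmodule (Fin 3) K (b + W)).map (LinearMap.mulLeft K q) with hU
  have h1 : homogeneousSubmodule (Fin 3) K (a + (b + W)) ⊓
      (Ideal.span {q, s}).restrictScalars K ≤ U ⊔ V Z w (a + (b + W)) := fun f ⟨hf, hf'⟩ => by
    obtain ⟨u, v, rfl⟩ := Ideal.mem_span_pair.1 hf'
    have e : b + (a + W) = a + (b + W) := by ring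
    rw [← homogeneousComponent_eq_self hf, map_add, mul_comm u, mul_comm v, hc_mul qa]
    refine Submodule.add_mem_sup ⟨_, homogeneousComponent_isHomogeneous _ u, rfl⟩ ?_
    rw [← e, hc_mul sb]
    exact mem_V.2 ⟨sb.mul (homogeneousComponent_isHomogeneous _ v),
      fun P hP => Ideal.mul_mem_right _ _ (h P hP).2⟩
  have h2 : (V Z (fun P => w P - 1) (b + W)).map (LinearMap.mulLeft K q) ≤
      U ⊓ V Z w (a + (b + W)) := by
    rintro _ ⟨f, hf, rfl⟩
    have hf' := mem_V.1 hf
    exact ⟨⟨f, hf'.1, rfl⟩, mem_V.2 ⟨qa.mul hf'.1, fun P hP =>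
      Ideal.pow_le_pow_right (show w P ≤ w P - 1 + 1 by omega)
        (by rw [pow_succ']; exact Ideal.mul_mem_mul (h P hP).1 (hf'.2 P hP))⟩⟩
  have h3 := Submodule.finrank_mono h1
  have h4 := Submodule.finrank_mono h2
  have h5 := Submodule.finrank_sup_add_finrank_inf_eq U (V Z w (a + (b + W)))
  have h6 : finrank K U = _ := (Submodule.equivMapOfInjective _ inj _).finrank_eq.symm
  rw [← (Submodule.equivMapOfInjective _ inj _).finrank_eq] at h4
  have h7 := hCI q s a b (a + (b + W)) hq hs qa sb hr (by omega)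
  have h8 := hJ1 Z (fun P => w P - 1) (b + W) hZ
  have h9 := hJ2 Z w (a + (b + W)) hZ (by omega)
  have h10 := hDIM (b + W)
  have h11 : ∑ P ∈ Z, w P * (w P + 1) = ∑ P ∈ Z, (w P - 1) * (w P - 1 + 1) + 2 * W := by
    rw [hW, Finset.mul_sum, ← Finset.sum_add_distrib]
    refine Finset.sum_congr rfl fun P _ => ?_
    rcases w P with _ | k
    · rfl
    · rw [Nat.add_sub_cancel]
      ring
  unfold dV at h8 h9
  linarith

end sBEZ

section sNEW

open MvPolynomial Module Filter

attribute [local instance] MvPolynomial.gradedAlgebra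

lemma new_one {K : Type*} [Field K] [IsAlgClosed K] (hPT : S_PT K) (hVEC : S_VEC K) {q : S3 K}
    {c : ℕ} (hq : Prime q) (hc : q.IsHomogeneous c) {Z : Finset (Ideal (S3 K))} (hZ : Pts Z) :
    ∃ R, IsPt R ∧ R ∉ Z ∧ q ∈ R := by
  classical
  obtain ⟨P0, h0, -⟩ := hVEC 1 one_ne_zero
  have h1 : ∀ P : Ideal (S3 K), ∃ l : S3 K, IsPt P → l ∈ P ∧ l.IsHomogeneous 1 ∧ ¬ q ∣ l :=
    fun P => by
      by_cases hP : IsPt P
      · obtain ⟨x, y, a, b, e, r⟩ := (hPT P hP).2.2.1
        by_cases hx : q ∣ x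
        · exact ⟨y, fun _ => ⟨e ▸ Ideal.subset_span (by simp), b,
            fun hy => hq.not_isUnit (r hx hy)⟩⟩
        · exact ⟨x, fun _ => ⟨e ▸ Ideal.subset_span (by simp), a, hx⟩⟩
      · exact ⟨0, fun h => absurd h hP⟩
  choose l hl using h1
  have hZ' : ∀ P ∈ insert P0 Z, IsPt P := fun P hP =>
    (Finset.mem_insert.1 hP).elim (fun e => e ▸ h0) (hZ P)
  have h2 : ∏ P ∈ insert P0 Z, l P ∉ vanishingIdeal K (zeroLocus K (Ideal.span {q})) := by
    rw [vanishingIdeal_zeroLocus_eq_radical,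
      ((Ideal.span_singleton_prime hq.ne_zero).2 hq).radical, Ideal.mem_span_singleton,
      hq.dvd_finsetProd_iff]
    rintro ⟨P, a, b⟩
    exact (hl P (hZ' P a)).2.2 b
  rw [mem_vanishingIdeal_iff] at h2
  push Not at h2
  obtain ⟨v, v1, v2⟩ := h2
  rw [map_prod, Finset.prod_ne_zero_iff] at v2
  obtain ⟨R, r1, r2⟩ := hVEC v (by
    rintro rfl
    refine v2 P0 (Finset.mem_insert_self _ _) ?_
    rw [aeval_zero, constantCoeff_eq, (hl P0 h0).2.1.coeff_eq_zero (by simp), map_zero])
  refine ⟨R, r1, fun h => v2 R (Finset.mem_insert_of_mem h) ?_,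
    (r2 q c hc).2 (v1 q (Ideal.mem_span_singleton_self q))⟩
  exact (r2 _ 1 (hl R r1).2.1).1 (hl R r1).1

theorem p_NEW (K : Type*) [Field K] (hPT : S_PT K) (hVEC : S_VEC K) :
    S_NEW K := by
  classical
  intro _ q c Z t hq hc hZ
  induction t with
  | zero => exact ⟨∅, rfl, by simp [Pts], by simp, by simp⟩
  | succ t ih =>
    obtain ⟨T, a1, a2, a3, a4⟩ := ih
    obtain ⟨R, r1, r2, r3⟩ := new_one hPT hVEC hq hc (Z := T ∪ Z) fun P hP =>
      (Finset.mem_union.1 hP).elim (a2 P) (hZ P)
    rw [Finset.mem_union, not_or] at r2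
    refine ⟨insert R T, by rw [Finset.card_insert_of_notMem r2.1, a1], ?_,
      Finset.disjoint_insert_left.2 ⟨r2.2, a3⟩, ?_⟩
    · exact Finset.forall_mem_insert _ _ _ |>.2 ⟨r1, a2⟩
    · exact Finset.forall_mem_insert _ _ _ |>.2 ⟨r3, a4⟩

end sNEW

end Pool.Agent.P.MP_ad771b_al.H
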