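import Pool.Agent.P.MP_ad771b_al.H.Iface

/-! Steps RA, RB. -/

set_option autoImplicit false
set_option linter.unusedSectionVars false

namespace Pool.Agent.P.MP_ad771b_al.H

section sRA

open MvPolynomial Module Filter

attribute [local instance] MvPolynomial.gradedAlgebra

section

variable {K : Type*} [Field K] {σ : Type} {w : σ → ℕ} {i : σ} {N : ℕ} {f : MvPolynomial σ K}

lemma ra_pow (hi : w i = 1) (N : ℕ) :
    (X i ^ N : MvPolynomial σ K) ∈ oI K w N ∧ (X i ^ N : MvPolynomial σ K) ∉ oI K w (N + 1) := by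
  have e : Finsupp.weight w (Finsupp.single i N) = N := by simp [Finsupp.weight_single, hi]
  rw [X_pow_eq_monomial]
  refine ⟨monomial_mem_monI e.ge _, fun h => ?_⟩
  have := h (Finsupp.single i N) (by classical simp [coeff_monomial])
  omega

lemma ra_le (h : f ∉ oI K w (N + 1)) : (oI K w (N + 1)).colon {f} ≤ oI K w 1 := fun g hg => by
  by_contra e
  exact mul_notMem_oI (a := 0) e h (by simpa using mem_colon.1 hg)

lemma ra_colon (hi : w i = 1) (N : ℕ) : (oI K w (N + 1)).colon {X i ^ N} = oI K w 1 :=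
  le_antisymm (ra_le (ra_pow hi N).2) fun _ hg =>
    mem_colon.2 (add_comm 1 N ▸ mul_mem_oI hg (ra_pow hi N).1)

lemma ra_sub (hw : ∀ i, w i ≤ 1) : oI K w N ≤ oI K 1 N := fun _ hf m hm => (hf m hm).trans (by
  simp only [Finsupp.weight_apply, Finsupp.sum]
  exact Finset.sum_le_sum fun i _ => Nat.mul_le_mul_left _ (hw i))

end

theorem p_RA (K : Type*) [Field K]  :
    S_RA K := by
  intro n h a h1 hn ha
  let w : Fin n → ℕ := fun i => if i.1 < h then 1 else 0
  let i : Fin n := ⟨0, by omega⟩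
  have hw : ∀ i, w i ≤ 1 := fun i => by simp only [w]; split_ifs <;> simp
  have hi : w i = 1 := if_pos h1
  have x0 : ∀ N, (X i ^ N : MvPolynomial (Fin n) K) ≠ 0 := fun N => pow_ne_zero _ (X_ne_zero _)
  have xh : ∀ N, (X i ^ N : MvPolynomial (Fin n) K).IsHomogeneous N := isHomogeneous_X_pow i
  have e : ∀ k, 1 ≤ k → ∃ N, a * k = N + 1 ∧ oI K w a ^ k = oI K w (N + 1) := fun k hk => by
    obtain ⟨N, hN⟩ := Nat.exists_eq_succ_of_ne_zero (Nat.mul_pos ha hk).ne'
    exact ⟨N, hN, by rw [← oI_pow hw a, ← pow_mul, oI_pow hw, hN]⟩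
  refine ⟨oI K w a, oI K w 1, fun e => x0 a (e.le (ra_pow hi a).1), fun e => ?_, hom_monI _ _,
    ⟨eventually_atTop.2 ⟨1, fun k hk => ?_⟩, fun q hq _ => ?_⟩, ?_,
    le_antisymm (initDeg_le (ra_pow hi a).1 (x0 a) (xh a)) ?_, fun k hk => ?_⟩
  · exact one_notMem_oI (a := 0) (oI_anti ha (e.ge trivial))
  · obtain ⟨N, -, h2⟩ := e k hk
    exact (mem_ass_iff _ _).2 ⟨oI_prime w, _, by rw [h2, ra_colon hi]⟩
  · obtain ⟨k, h2, hk⟩ := (hq.and (eventually_ge_atTop 1)).exists
    obtain ⟨N, -, h3⟩ := e k hk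
    obtain ⟨h4, f, rfl⟩ := (mem_ass_iff _ _).1 h2
    rw [h3] at h4 ⊢
    exact ra_le fun hf => h4.ne_top ((Ideal.eq_top_iff_one _).2 (mem_colon.2 (by rwa [one_mul])))
  · have := height_span_X (K := K) (Finset.univ.filter fun i : Fin n => i.1 < h)
    rw [Fin.card_filter_val_lt, min_eq_right hn] at this
    rw [oI_one, ← this]
    simp [w]
  · refine le_csInf ⟨a, _, (ra_pow hi a).1, x0 a, xh a⟩ ?_
    rintro d ⟨f, a1, a2, a3⟩
    exact le_of_mem_oI a3 a2 (ra_sub hw a1)
  · obtain ⟨N, h2, h3⟩ := e k hk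
    rw [h2, h3, add_left_inj]
    refine le_antisymm (Nat.sInf_le ⟨_, xh N, ra_colon hi N⟩) (le_csInf ⟨N, _, xh N, ra_colon hi N⟩ ?_)
    rintro d ⟨f, a1, a2⟩
    have a3 : f ≠ 0 := by
      rintro rfl
      exact one_notMem_oI (a := 0) (a2.le (mem_colon.2 (by simp)))
    have := le_of_mem_oI ((xh 1).mul a1) (mul_ne_zero (x0 1) a3)
      (ra_sub hw (mem_colon.1 (a2.ge (ra_pow hi 1).1)))
    omega

end sRA

section sRB

open MvPolynomial Module Filter

attribute [local instance] MvPolynomial.gradedAlgebra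

/-- the three conditions -/
def rb_c (b e t k A B C : ℕ) : Prop :=
  b * k ≤ A ∧ (b + 2) * e * k ≤ e * A + B ∧
    (b + 1) * k + t * ((b + 2) * e * k) ≤ C + (1 + t * e) * A + t * B

lemma rb_split {b e t k A B C : ℕ} (ht : t ≤ 1) (h : rb_c b e t (k + 1) A B C) :
    ∃ α β γ, α ≤ A ∧ β ≤ B ∧ γ ≤ 1 ∧ γ ≤ C ∧ rb_c b e t 1 α β γ ∧
      ∀ A' B' C', A' + α = A → B' + β = B → C' + γ = C → rb_c b e t k A' B' C' := by
  obtain ⟨h1, h2, h3⟩ := h
  obtain ⟨a, rfl⟩ := Nat.exists_eq_add_of_le h1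
  obtain rfl | rfl : t = 0 ∨ t = 1 := by omega
  all_goals
    by_cases hB : B < e
    · have ha : 2 * (k + 1) ≤ a := by
        by_contra hh
        have : e * (a + 1) ≤ e * (2 * (k + 1)) := Nat.mul_le_mul_left _ (by omega)
        lia
      refine ⟨b + 2, 0, 0, by lia, by omega, by omega, by omega,
        ⟨by omega, by lia, by lia⟩, fun A' B' C' e1 e2 e3 => ?_⟩
      have e4 : e * A' + e * (b + 2) = e * (b * (k + 1) + a) := by rw [← e1]; ring
      exact ⟨by lia, by lia, by lia⟩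
    rcases Nat.eq_zero_or_pos a with rfl | ha
    · rcases Nat.eq_zero_or_pos C with rfl | hC
      · refine ⟨b, 2 * e + 1, 0, by lia, by lia, by omega, by omega,
          ⟨by omega, by lia, by lia⟩, fun A' B' C' e1 e2 e3 => ?_⟩
        have e4 : e * A' + e * b = e * (b * (k + 1) + 0) := by rw [← e1]; ring
        exact ⟨by lia, by lia, by lia⟩
      · refine ⟨b, 2 * e, 1, by lia, by lia, by omega, by omega,
          ⟨by omega, by lia, by lia⟩, fun A' B' C' e1 e2 e3 => ?_⟩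
        have e4 : e * A' + e * b = e * (b * (k + 1) + 0) := by rw [← e1]; ring
        exact ⟨by lia, by lia, by lia⟩
    · refine ⟨b + 1, e, 0, by lia, by omega, by omega, by omega,
        ⟨by omega, by lia, by lia⟩, fun A' B' C' e1 e2 e3 => ?_⟩
      have e4 : e * A' + e * (b + 1) = e * (b * (k + 1) + a) := by rw [← e1]; ring
      exact ⟨by lia, by lia, by lia⟩

lemma rb_low {b e t k A B C : ℕ} (he : 1 ≤ e) (h2 : (b + 2) * e * k ≤ e * A + B)
    (h3 : C + (1 + t * e) * A + t * B < (b + 1) * k + t * ((b + 2) * e * k)) :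
    (b + e + 1) * k + e ≤ A + B + 1 := by
  obtain ⟨e, rfl⟩ := Nat.exists_eq_add_of_le he
  have h4 := Nat.mul_le_mul_left t h2
  have h5 : A + 1 ≤ (b + 1) * k := by nlinarith
  have h6 := Nat.mul_le_mul_left e h5
  lia

lemma rb_weight {n : ℕ} (w : Fin (n + 3) → ℕ) (r s : ℕ) (m : Fin (n + 3) →₀ ℕ) :
    Finsupp.weight (w + Pi.single 0 r + Pi.single 1 s) m = Finsupp.weight w m + r * m 0 + s * m 1 := by
  simp only [Finsupp.weight_apply]
  rw [Finsupp.sum_fintype _ _ (by simp), Finsupp.sum_fintype _ _ (by simp)]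
  simp only [Pi.add_apply, smul_eq_mul, mul_add, Finset.sum_add_distrib]
  simp [Pi.single_apply, mul_comm]

lemma rb_deg {n : ℕ} (m : Fin (n + 3) →₀ ℕ) : m 0 + m 1 ≤ Finsupp.weight 1 m := by
  rw [Finsupp.weight_apply, Finsupp.sum_fintype _ _ (by simp), Fin.sum_univ_succ,
    Fin.sum_univ_succ]
  simp [← add_assoc]

lemma rb_main (K : Type*) [Field K] {n b e t : ℕ} (he : 1 ≤ e) (ht : t ≤ 1) (w : Fin (n + 3) → ℕ)
    (w0 : w 0 = 0) (w1 : w 1 = 0) (w2 : w 2 = 1) (hw : ∀ i, w i ≤ 1) :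
    ∃ I : Ideal (MvPolynomial (Fin (n + 3)) K), I ≠ ⊥ ∧ I ≠ ⊤ ∧ Hom I ∧
      oI K (w + Pi.single 0 (1 + t * e) + Pi.single 1 t) 1 ∈ maxInf I ∧ initDeg I = b + 2 ∧
      ∀ k, 1 ≤ k → vLocal (oI K (w + Pi.single 0 (1 + t * e) + Pi.single 1 t) 1) (I ^ k) + 1 =
        (b + e + 1) * k + e := by
  classical
  set W : Fin (n + 3) → ℕ := w + Pi.single 0 (1 + t * e) + Pi.single 1 t with hW
  let c : ℕ → (Fin (n + 3) →₀ ℕ) → Prop := fun k m =>
    rb_c b e t k (m 0) (m 1) (Finsupp.weight w m)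
  have hc : ∀ k m m', c k m → c k (m' + m) := fun k m m' ⟨h1, h2, h3⟩ => by
    simp only [c, rb_c, Finsupp.add_apply, map_add, mul_add (1 + t * e), mul_add e, mul_add t]
    omega
  have h01 : (0 : Fin (n + 3)) ≠ 1 := Fin.zero_ne_one
  have hpow : ∀ k, monI K (c 1) (hc 1) ^ k = monI K (c k) (hc k) := by
    refine monI_pow c hc (fun m => by simp [c, rb_c]) (fun k m m' ⟨h1, h2, h3⟩ ⟨g1, g2, g3⟩ => ?_)
      fun k m h => ?_
    · simp only [c, rb_c, Finsupp.add_apply, map_add]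
      exact ⟨by lia, by lia, by lia⟩
    · obtain ⟨α, β, γ, hα, hβ, hγ, hγ', hv, hu⟩ := rb_split ht h
      obtain ⟨y, hy, hy'⟩ : ∃ y, w y = 1 ∧ γ ≤ m y := by
        rcases Nat.eq_zero_or_pos γ with rfl | h0
        · exact ⟨2, w2, Nat.zero_le _⟩
        · have : Finsupp.weight w m ≠ 0 := by omega
          rw [Finsupp.weight_apply, Finsupp.sum] at this
          obtain ⟨y, -, hy⟩ := Finset.exists_ne_zero_of_sum_ne_zero this
          rw [smul_eq_mul, mul_ne_zero_iff] at hy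
          have := hw y
          exact ⟨y, by omega, by omega⟩
      have y0 : y ≠ 0 := fun h => by rw [h] at hy; omega
      have y1 : y ≠ 1 := fun h => by rw [h] at hy; omega
      have hle : Finsupp.single 0 α + Finsupp.single 1 β + Finsupp.single y γ ≤ m := fun i => by
        simp only [Finsupp.add_apply, Finsupp.single_apply]
        split_ifs <;> subst_vars <;> omega
      obtain ⟨u, rfl⟩ := le_iff_exists_add'.1 hle
      refine ⟨u, _, rfl, hu _ _ _ ?_ ?_ ?_, ?_⟩
      · simp [y0]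
      · simp [y1]
      · simp [Finsupp.weight_single, w0, w1, hy]
      · simpa [c, Finsupp.weight_single, w0, w1, hy, y0, y1] using hv
  set I := monI K (c 1) (hc 1) with hI
  have hX : ∀ i, W i ≠ 0 → (X i : MvPolynomial (Fin (n + 3)) K) ∈ oI K W 1 := fun i hi => by
    rw [oI_one]
    exact Ideal.subset_span ⟨i, hi, rfl⟩
  have hle : ∀ k f, (∃ m ∈ f.support, Finsupp.weight W m < (b + 1) * k + t * ((b + 2) * e * k)) →
      (I ^ k).colon {f} ≤ oI K W 1 := fun k f ⟨m, hm, hlt⟩ g hg => by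
    by_contra hg'
    refine mul_notMem_oI (a := 0) (b := Finsupp.weight W m) (g := f) hg'
      (fun h => by simpa using h m hm) fun m' hm' => ?_
    rw [mem_colon, hpow] at hg
    have := (hg m' hm').2.2
    rw [hW, rb_weight] at hlt ⊢
    rw [rb_weight]
    omega
  have key : ∀ k f, (I ^ k).colon {f} ≠ ⊤ → oI K W 1 ≤ (I ^ k).colon {f} →
      ∃ m ∈ f.support, (b + 2) * e * k ≤ e * m 0 + m 1 ∧
        Finsupp.weight W m < (b + 1) * k + t * ((b + 2) * e * k) := fun k f hne h => by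
    have h20 : (2 : Fin (n + 3)) ≠ 0 := fun h => by rw [h] at w2; omega
    have h21 : (2 : Fin (n + 3)) ≠ 1 := fun h => by rw [h] at w2; omega
    have h2 := h (hX 2 (by simp [hW, w2]))
    rw [mem_colon, hpow] at h2
    by_contra hh
    refine hne ((Ideal.eq_top_iff_one _).2 ?_)
    rw [mem_colon, one_mul, hpow]
    intro m hm
    obtain ⟨g1, g2, -⟩ := h2 (Finsupp.single 2 1 + m) (by
      rw [MvPolynomial.mem_support_iff, coeff_X_mul]
      exact MvPolynomial.mem_support_iff.1 hm)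
    simp only [Finsupp.add_apply, Finsupp.single_eq_of_ne h20.symm,
      Finsupp.single_eq_of_ne h21.symm, zero_add] at g1 g2
    refine ⟨g1, g2, not_lt.1 fun h3 => hh ⟨m, hm, g2, ?_⟩⟩
    rwa [hW, rb_weight]
  have wit : ∀ k, (I ^ (k + 1)).colon {monomial (Finsupp.single 0 (b * (k + 1) + k) +
      Finsupp.single 1 (e * (k + 2))) (1 : K)} = oI K W 1 := fun k => by
    refine le_antisymm (hle _ _ ⟨Finsupp.single 0 (b * (k + 1) + k) +
      Finsupp.single 1 (e * (k + 2)), by simp only [support_monomial, one_ne_zero, if_false,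
        Finset.mem_singleton], ?_⟩) ?_
    · rw [hW, rb_weight]
      simp only [Finsupp.add_apply, map_add, Finsupp.single_eq_same,
        Finsupp.single_eq_of_ne h01, Finsupp.single_eq_of_ne h01.symm,
        Finsupp.weight_single, w0, w1, smul_zero, add_zero, zero_add]
      lia
    · rw [oI_one, Ideal.span_le]
      rintro _ ⟨i, hi, rfl⟩
      rw [SetLike.mem_coe, mem_colon, X, monomial_mul, hpow]
      refine monomial_mem_monI ?_ _
      have h3 := rb_weight w (1 + t * e) t (Finsupp.single i 1)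
      rw [← hW, Finsupp.weight_single, one_smul] at h3
      have h4 : W i ≠ 0 := hi
      simp only [c, rb_c, Finsupp.add_apply, map_add, Finsupp.single_eq_same,
        Finsupp.single_eq_of_ne h01, Finsupp.single_eq_of_ne h01.symm,
        Finsupp.weight_single w 0, Finsupp.weight_single w 1, w0, w1, smul_zero, add_zero, zero_add]
      have h5 := Nat.pos_of_ne_zero h4
      exact ⟨by lia, by nlinarith [Nat.zero_le (e * Finsupp.single i 1 0)], by lia⟩
  have hz : monomial (Finsupp.single 0 (b + 2)) (1 : K) ∈ I := monomial_mem_monI (by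
    simp [c, rb_c, Finsupp.weight_single, w0]
    exact ⟨by lia, by lia⟩) _
  have hz0 : monomial (Finsupp.single (0 : Fin (n + 3)) (b + 2)) (1 : K) ≠ 0 := by simp
  have hb : I ≠ ⊥ := fun h => hz0 (by rwa [h] at hz)
  have hh : Hom I := hom_monI _ _
  refine ⟨I, hb, fun h => ?_, hh, ⟨eventually_atTop.2 ⟨1, fun k hk => ?_⟩, fun q hq hqp => ?_⟩,
    le_antisymm (initDeg_le hz hz0 (isHomogeneous_monomial _ (by simp))) ?_, fun k hk => ?_⟩
  · have := (((Ideal.eq_top_iff_one _).1 h) 0 (by simp)).2.2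
    simp at this
  · obtain ⟨k, rfl⟩ := Nat.exists_eq_add_of_le' hk
    exact (mem_ass_iff _ _).2 ⟨oI_prime _, _, (wit k).symm⟩
  · obtain ⟨k, hk⟩ := Filter.Eventually.exists hq
    obtain ⟨hq', f, rfl⟩ := (mem_ass_iff _ _).1 hk
    obtain ⟨m, hm, -, h⟩ := key k f hq'.ne_top hqp
    exact hle k f ⟨m, hm, h⟩
  · obtain ⟨f, hf, h0, hd⟩ := exists_initDeg hh hb
    obtain ⟨m, hm⟩ := support_nonempty.2 h0
    rw [← hom_iff.1 hd m hm]
    refine le_trans ?_ (rb_deg m)
    obtain ⟨g1, g2, -⟩ := hf m hm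
    by_contra hlt
    have : e * (m 0 + m 1 + 1) ≤ e * (b + 2) := Nat.mul_le_mul_left _ (by omega)
    have := Nat.mul_le_mul_right (m 1) he
    lia
  · obtain ⟨k, rfl⟩ := Nat.exists_eq_add_of_le' hk
    have hmem : b * (k + 1) + k + e * (k + 2) ∈ {d | ∃ f : MvPolynomial (Fin (n + 3)) K,
        f.IsHomogeneous d ∧ (I ^ (k + 1)).colon {f} = oI K W 1} :=
      ⟨_, isHomogeneous_monomial _ (by simp only [map_add, Finsupp.degree_single]), wit k⟩
    have h1 : vLocal (oI K W 1) (I ^ (k + 1)) ≤ _ := Nat.sInf_le hmem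
    obtain ⟨f, hf, hfc⟩ := Nat.sInf_mem ⟨_, hmem⟩
    obtain ⟨m, hm, g2, g3⟩ := key _ f (hfc ▸ (oI_prime W).ne_top) hfc.ge
    rw [hW, rb_weight] at g3
    have h2 := rb_low he g2 g3
    have h3 : m 0 + m 1 ≤ vLocal (oI K W 1) (I ^ (k + 1)) := (rb_deg m).trans_eq (hom_iff.1 hf m hm)
    refine le_antisymm (by lia) (by omega)

theorem p_RB (K : Type*) [Field K]  :
    S_RB K := by
  intro n h b e hn h2 hh he
  obtain ⟨n, rfl⟩ := Nat.exists_eq_add_of_le' hn
  obtain ⟨I, h1, h3, h4, h5, h6, h7⟩ := rb_main K (n := n) (b := b) he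
    (t := if h = n + 3 then 1 else 0) (by split_ifs <;> omega)
    (fun i => if 2 ≤ i.1 ∧ i.1 ≤ h then 1 else 0) (by simp) (by simp)
    (if_pos ⟨le_rfl, h2⟩)
    (fun i => by split_ifs <;> omega)
  refine ⟨I, _, h1, h3, h4, h5, ?_, h6, h7⟩
  rw [oI_one]
  by_cases hc : h = n + 3
  · subst hc
    rw [← height_mm (K := K), mm, oI_one]
    congr 3
    ext i
    have := i.2
    simp only [Pi.add_apply, Pi.single_apply, Fin.ext_iff, Fin.val_zero, Fin.val_one, if_true,
      Set.mem_ofPred_eq, Pi.one_apply]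
    split_ifs <;> omega
  · have := height_span_X (K := K) ((Finset.Iic (⟨h, by omega⟩ : Fin (n + 3))).erase 1)
    rw [Finset.card_erase_of_mem (by simp [Fin.le_def]; omega), Fin.card_Iic] at this
    rw [← show ((h + 1 - 1 : ℕ) : ℕ∞) = h by simp, ← this]
    congr 3
    ext i
    simp only [Pi.add_apply, Pi.single_apply, Fin.ext_iff, Fin.val_zero, Fin.val_one, hc, if_false,
      Set.mem_ofPred_eq, Finset.mem_coe, Finset.mem_erase, Finset.mem_Iic, Fin.le_def, ne_eq]
    split_ifs <;> first | omega | exact iff_of_true not_false (by omega)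

end sRB

end Pool.Agent.P.MP_ad771b_al.H
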