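import Pool.Agent.P.MP_ad771b_al.H.Iface

/-! Steps EQ, STR, SAT, SQF, P3. -/

set_option autoImplicit false
set_option linter.unusedSectionVars false

namespace Pool.Agent.P.MP_ad771b_al.H

section sEQ

open MvPolynomial Module Filter

attribute [local instance] MvPolynomial.gradedAlgebra

theorem p_EQ (K : Type*) [Field K] (hCI : S_CI K) (hJ2 : S_J2 K) (hKOS : S_KOS K) :
    S_EQ K := by
  intro I Z f g a b hI hZ hIZ hf hg f0 g0 fa gb hfg hab
  have hJ : Ideal.span {f, g} ≤ I := by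
    rw [Ideal.span_le, Set.insert_subset_iff, Set.singleton_subset_iff]
    exact ⟨hf, hg⟩
  have key : ∀ t D : ℕ, a + b + Z.card ≤ D + t → ∀ h ∈ I, h.IsHomogeneous D →
      h ∈ Ideal.span {f, g} := by
    intro t
    induction t with
    | zero =>
      intro D hD h h1 h2
      have k1 := hCI f g a b D f0 g0 fa gb hfg (by omega)
      have k2 := hJ2 Z (fun _ => 1) D hZ (by simp; omega)
      have hV : ∀ s ∈ I, s.IsHomogeneous D → s ∈ V Z (fun _ => 1) D := fun s s1 s2 =>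
        mem_V.2 ⟨s2, fun P hP => by rw [pow_one]; exact hIZ P hP s1⟩
      rw [Finset.sum_const, smul_eq_mul] at k2
      exact ((Submodule.eq_of_le_of_finrank_le (S₁ := homogeneousSubmodule (Fin 3) K D ⊓
        (Ideal.span {f, g}).restrictScalars K) (fun s hs => hV s (hJ hs.2) hs.1)
        (show dV Z (fun _ => 1) D ≤ _ by omega)).ge (hV h h1 h2)).2
    | succ t ih =>
      exact fun D hD h h1 h2 => (hKOS f g f0 hfg).1 h fun i => ih (1 + D) (by omega) _
        (I.mul_mem_left _ h1) ((isHomogeneous_X K i).mul h2)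
  exact le_antisymm (hI.le fun h h1 D h2 => key _ D (Nat.le_add_left _ _) h h1 h2) hJ

end sEQ

section sSTR

open MvPolynomial Module Filter

attribute [local instance] MvPolynomial.gradedAlgebra

lemma str_min {K : Type*} [Field K] {I P : Ideal (S3 K)}
    (hg : ∀ g, I ≤ Ideal.span {g} → IsUnit g) (hP : IsPt P) (h : I ≤ P) :
    P ∈ I.minimalPrimes := by
  have := hP.prime
  obtain ⟨Q, hQ, hQP⟩ := Ideal.exists_minimalPrimes_le h
  have hq : Q.IsPrime := hQ.1.1
  have key : ∀ g, Q ≠ Ideal.span {g} := fun g e =>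
    hq.ne_top (e.trans (Ideal.span_singleton_eq_top.2 (hg g (hQ.1.2.trans_eq e))))
  rwa [← Ideal.eq_of_le_of_height_le Q hQP ?_]
  rw [hP.height]
  by_contra e
  rcases (ENat.lt_two_iff.1 (not_le.1 e)).eq_or_lt with e | e
  · obtain ⟨g, hg⟩ := UniqueFactorizationMonoid.isPrincipal_of_height_eq_one e
    exact key g hg
  · exact key 0 ((Ideal.height_eq_zero_iff_eq_bot.1 (Order.lt_one_iff.1 e)).trans
      Ideal.span_singleton_zero.symm)

theorem p_STR (K : Type*) [Field K] (hPT : S_PT K) (hVEC : S_VEC K) :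
    S_STR K := by
  intro _ I hI hr hg
  have hfin : {P | IsPt P ∧ I ≤ P}.Finite :=
    (Ideal.finite_minimalPrimes_of_isNoetherianRing _ I).subset fun P hP => str_min hg hP.1 hP.2
  refine ⟨hfin.toFinset, fun P hP => (hfin.mem_toFinset.1 hP).1,
    fun P hP => (hfin.mem_toFinset.1 hP).2, fun h hm hZ => ?_⟩
  rw [← hr.radical, ← vanishingIdeal_zeroLocus_eq_radical (K := K)]
  intro v hv
  rw [← mem_vanishingIdeal_singleton_iff]
  rcases eq_or_ne v 0 with rfl | e
  · exact mm_le (fun i => by simp) hm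
  · obtain ⟨P, hP, hP'⟩ := hVEC v e
    have h1 : I ≤ P := hI.le fun f hf d hd => (hP' f d hd).2 (hv f hf)
    exact (hPT P hP).1.le (fun f hf d hd => (mem_vanishingIdeal_singleton_iff v f).2
      ((hP' f d hd).1 hf)) (hZ P (hfin.mem_toFinset.2 ⟨hP, h1⟩))

end sSTR

section sSAT

open MvPolynomial Module Filter

attribute [local instance] MvPolynomial.gradedAlgebra

lemma sat_aux {R : Type*} [CommRing R] (x : R) (j : ℕ) (Z : Finset (Ideal R))
    (h : ∀ P ∈ Z, ∀ Q ∈ Z, P ≠ Q → x ∈ (P ⊔ Q).radical) :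
    ∃ c, ∀ s, (∀ P ∈ Z, s ∈ P ^ j) → x ^ c * s ∈ ∏ P ∈ Z, P ^ j := by
  classical
  induction Z using Finset.induction_on with
  | empty => exact ⟨0, by simp⟩
  | insert Q Z hQ ih =>
    obtain ⟨c, hc⟩ := ih fun P a P' b => h P (Finset.mem_insert_of_mem a) P'
      (Finset.mem_insert_of_mem b)
    obtain ⟨e, he⟩ : x ∈ (Q ^ j ⊔ ∏ P ∈ Z, P ^ j).radical := by
      rw [Ideal.radical_eq_sInf, Submodule.mem_sInf]
      rintro J ⟨h1, h2⟩
      obtain ⟨P, a, b⟩ := h2.prod_le.1 (le_sup_right.trans h1)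
      exact h2.radical_le_iff.2 (sup_le (h2.le_of_pow_le (le_sup_left.trans h1))
        (h2.le_of_pow_le b)) (h Q (Finset.mem_insert_self _ _) P (Finset.mem_insert_of_mem a)
          fun e => hQ (e ▸ a))
    obtain ⟨r, hr, t, ht, e1⟩ := Submodule.mem_sup.1 he
    refine ⟨e + c, fun s hs => ?_⟩
    rw [Finset.prod_insert hQ, pow_add, ← e1, mul_assoc, add_mul]
    exact add_mem (Ideal.mul_mem_mul hr (hc s fun P a => hs P (Finset.mem_insert_of_mem a)))
      (Ideal.mul_mem_mul_rev (Ideal.mul_mem_left _ _ (hs Q (Finset.mem_insert_self _ _))) ht)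

lemma sat_two {R : Type*} [CommRing R] (m I : Ideal R) (Z : Finset (Ideal R))
    (h : ∀ P ∈ Z, ∀ Q ∈ Z, P ≠ Q → m ≤ (P ⊔ Q).radical) (hI : ∀ y ∈ m, (∀ P ∈ Z, y ∈ P) → y ∈ I)
    (j : ℕ) (s : R) (hs : ∀ P ∈ Z, s ∈ P ^ j) : m ≤ ((I ^ j).colon {s}).radical := by
  intro x hx
  obtain ⟨c, hc⟩ := sat_aux x j Z fun P a Q b e => h P a Q b e hx
  have h1 : m * ∏ P ∈ Z, P ≤ I := fun y hy => hI y (Ideal.mul_le_inf hy).1 fun P a => by
    have h2 : ∏ P ∈ Z, P ≤ P := (Ideal.prod_le_inf (s := Z) (f := fun P => P)).trans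
      (Finset.inf_le (f := fun P => P) a)
    exact h2 (Ideal.mul_le_inf hy).2
  refine ⟨j + c, Submodule.mem_colon_singleton.2 (Ideal.pow_right_mono h1 j ?_)⟩
  rw [mul_pow, smul_eq_mul, pow_add, mul_assoc, ← Finset.prod_pow]
  exact Ideal.mul_mem_mul (Ideal.pow_mem_pow hx j) (hc s hs)

theorem p_SAT (K : Type*) [Field K] (hPT : S_PT K) :
    S_SAT K := fun I Z hZ hI =>
  sat_two _ I Z (fun P a Q b e => ((hPT P (hZ P a)).2.2.2 Q (hZ Q b) e).2) hI

end sSAT

section sSQF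

open MvPolynomial Module Filter

attribute [local instance] MvPolynomial.gradedAlgebra

lemma sqf_pos {K : Type*} [Field K] {q : S3 K} {c : ℕ} (hq : Prime q) (h : q.IsHomogeneous c) :
    0 < c := by
  refine Nat.pos_of_ne_zero fun e => hq.not_isUnit ?_
  subst e
  obtain ⟨a, rfl⟩ : ∃ a, q = C a := ⟨_, totalDegree_eq_zero_iff_eq_C.1 (by
    simpa using h.totalDegree_le)⟩
  have : a ≠ 0 := fun e => hq.ne_zero (by rw [e, map_zero])
  exact this.isUnit.map C

theorem p_SQF (K : Type*) [Field K]  :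
    S_SQF K := by
  intro I hI hr h0 h1
  obtain ⟨f, hf, f0, hd⟩ := exists_initDeg hI h0
  obtain ⟨s, hs, u, hu⟩ := UniqueFactorizationMonoid.exists_prime_factors f f0
  obtain ⟨l, rfl⟩ := Quotient.exists_rep s
  have e : ∏ i : Fin l.length, l[i.1] = l.prod := Fin.prod_univ_getElem l
  have hu' : (∏ i : Fin l.length, l[i.1]) * (u : S3 K) = f := by
    rw [e]
    simpa using hu
  have hp : ∀ i : Fin l.length, Prime l[i.1] := fun i =>
    hs _ (Multiset.mem_coe.2 (List.getElem_mem _))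
  obtain ⟨r, q, hp, hu'⟩ : ∃ (r : ℕ) (q : Fin r → S3 K), (∀ i, Prime (q i)) ∧
      (∏ i, q i) * (u : S3 K) = f := ⟨_, _, hp, hu'⟩
  have hF : ∏ i, q i ∈ I := by
    have := I.mul_mem_right ((u⁻¹ : (S3 K)ˣ) : S3 K) hf
    rwa [← hu', Units.mul_inv_cancel_right] at this
  have F0 : ∏ i, q i ≠ 0 := Finset.prod_ne_zero_iff.2 fun i _ => (hp i).ne_zero
  obtain ⟨a, b, ha, -, hab⟩ := hom_factor (hu'.symm ▸ hd) (hu'.symm ▸ f0)
  have key : ∀ i, ∃ c d, (q i).IsHomogeneous c ∧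
      (∏ j ∈ Finset.univ.erase i, q j).IsHomogeneous d ∧ c + d = a := fun i => by
    have e := Finset.mul_prod_erase Finset.univ q (Finset.mem_univ i)
    exact hom_factor (e.symm ▸ ha) (e.symm ▸ F0)
  choose c d hc hd' hcd using key
  have hsum : ∑ i, c i = a :=
    (IsHomogeneous.prod Finset.univ q c fun i _ => hc i).inj_right ha F0
  have hle := initDeg_le hF F0 ha
  refine ⟨r, q, c, ?_, hp, hc, fun i => sqf_pos (hp i) (hc i), fun i j hij hdv => ?_, hF, by omega⟩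
  · refine Nat.pos_of_ne_zero fun e => h1 ?_
    subst e
    rw [Ideal.eq_top_iff_one]
    simpa using hF
  · have e := Finset.mul_prod_erase Finset.univ q (Finset.mem_univ i)
    obtain ⟨v, hv⟩ := hdv.trans
      (Finset.dvd_prod_of_mem q (Finset.mem_erase.2 ⟨hij.symm, Finset.mem_univ j⟩))
    have hm : ∏ j ∈ Finset.univ.erase i, q j ∈ I := hr ⟨2, by
      have := I.mul_mem_right v hF
      rw [← e] at this
      rw [sq]
      nth_rewrite 1 [hv]
      convert this using 1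
      ring⟩
    have := initDeg_le hm (Finset.prod_ne_zero_iff.2 fun i _ => (hp i).ne_zero) (hd' i)
    have := sqf_pos (hp i) (hc i)
    have := hcd i
    omega

end sSQF

section sP3

open MvPolynomial Module Filter

attribute [local instance] MvPolynomial.gradedAlgebra

lemma p3_var {K : Type*} [Field K] {q : S3 K} (hq : Prime q) : ∃ j, ¬ q ∣ X j := by
  by_contra e
  push Not at e
  have h : ∀ j : Fin 3, Associated q (X j) := fun j =>
    hq.irreducible.associated_of_dvd (X_prime (R := K) (i := j)).irreducible (e j)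
  exact absurd (X_dvd_X.1 ((h 0).symm.trans (h 1)).dvd) (by decide)

lemma p3_mult {R : Type*} [CommRing R] [IsDomain R] {q t s : R} (hq : Prime q) (ht : ¬ q ∣ t)
    {M u : ℕ} (h : q ^ (M + u + 1) ∣ (q * t) ^ M * s) : q ^ (u + 1) ∣ s := by
  rw [mul_pow, mul_assoc, add_assoc, pow_add, mul_dvd_mul_iff_left (pow_ne_zero _ hq.ne_zero)] at h
  exact hq.pow_dvd_of_dvd_mul_left _ (mt hq.dvd_of_dvd_pow ht) h

theorem p_P3 (K : Type*) [Field K] (hSTR : S_STR K) (hSAT : S_SAT K) (hSQF : S_SQF K) (hVB : S_VB K) (hBEZ : S_BEZ K) (hNUM : S_NUM K) (hEQ : S_EQ K) (hKOS : S_KOS K) :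
    S_P3 K := by
  classical
  intro hK I hI hr h1 hg
  have h0 : I ≠ ⊥ := fun e => not_isUnit_zero (hg 0 (e.le.trans bot_le))
  obtain ⟨Z, hZ, hIZ, hZI⟩ := hSTR hK I hI hr hg
  obtain ⟨r, q, c, hr0, hq, hc, hc0, hnd, hf, hs⟩ := hSQF I hI hr h0 h1
  obtain ⟨f, hfq⟩ : ∃ f, f = ∏ i, q i := ⟨_, rfl⟩
  have hf0 : f ≠ 0 := hfq ▸ Finset.prod_ne_zero_iff.2 fun i _ => (hq i).ne_zero
  have hfd : f.IsHomogeneous (initDeg I) := hfq ▸ hs ▸ IsHomogeneous.prod _ _ _ fun i _ => hc i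
  rw [← hfq] at hf
  by_cases H : ∀ (j : ℕ) (s : S3 K) (d : ℕ), s.IsHomogeneous d → (∀ P ∈ Z, s ∈ P ^ j) →
      ∃ N, f ^ N * s ∈ I ^ (j + N)
  swap
  · push Not at H
    obtain ⟨j, s, d, a, b, e⟩ := H
    exact .inr ⟨f, hf, hf0, hfd, j, s, d, a, e, hSAT I Z hZ hZI j s b⟩
  have ex : ∀ i, ∃ D, ∃ h ∈ I, h.IsHomogeneous D ∧ ¬ q i ∣ h := by
    intro i
    by_contra e
    push Not at e
    exact (hq i).not_isUnit (hg _ (hI.le fun h hh D hD => Ideal.mem_span_singleton.2 (e D h hh hD)))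
  have : Nonempty (Fin r) := ⟨⟨0, hr0⟩⟩
  obtain ⟨i0, hi0⟩ := Finite.exists_max fun i => Nat.find (ex i)
  obtain ⟨δ, hδ⟩ : ∃ δ, Nat.find (ex i0) = initDeg I + δ := by
    obtain ⟨h, a, b, e⟩ := Nat.find_spec (ex i0)
    exact Nat.exists_eq_add_of_le (initDeg_le a (fun e' => e (e' ▸ dvd_zero _)) b)
  have ex2 : ∀ i, ∃ h ∈ I, h.IsHomogeneous (initDeg I + δ) ∧ ¬ q i ∣ h := by
    intro i
    obtain ⟨h, a, b, e⟩ := Nat.find_spec (ex i)
    obtain ⟨j, hj⟩ := p3_var (hq i)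
    obtain ⟨t, ht⟩ := Nat.exists_eq_add_of_le ((hi0 i).trans hδ.le)
    exact ⟨h * X j ^ t, Ideal.mul_mem_right _ _ a, ht ▸ b.mul (isHomogeneous_X_pow j t),
      (hq i).not_dvd_mul e (mt (hq i).dvd_of_dvd_pow hj)⟩
  have hk : ∀ P, ∃ i, P ∈ Z → q i ∈ P := fun P => by
    by_cases e : P ∈ Z
    · have := (hZ P e).prime
      obtain ⟨i, -, hi⟩ := Ideal.IsPrime.prod_mem_iff.1 (hfq ▸ hIZ P e hf)
      exact ⟨i, fun _ => hi⟩
    · exact ⟨i0, fun e' => (e e').elim⟩
  choose κ hκ using hk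
  let C : Cfg K r :=
    { q := q, c := c, Z := Z.filter fun P => f ∉ P ^ 2, κ := κ, prime := hq, hom := hc, pos := hc0
      ndvd := hnd
      pt := fun P hP => hZ P (Finset.mem_filter.1 hP).1
      mem := fun P hP i => by
        obtain ⟨a, b⟩ := Finset.mem_filter.1 hP
        refine ⟨fun h => by_contra fun e => b ?_, fun e => e ▸ hκ P a⟩
        have := Finset.prod_dvd_prod_of_subset {κ P, i} Finset.univ q (Finset.subset_univ _)
        rw [Finset.prod_pair e, ← hfq] at this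
        exact Ideal.mem_of_dvd _ this (sq P ▸ Ideal.mul_mem_mul (hκ P a) h)
      sm := fun P hP i h => (Finset.mem_filter.1 hP).2
        (Ideal.mem_of_dvd _ (hfq ▸ Finset.dvd_prod_of_mem q (Finset.mem_univ i)) h) }
  have hC : C.dg 1 = initDeg I := by simpa [Cfg.dg] using hs
  have hIC : ∀ P ∈ C.Z, I ≤ P := fun P hP => hIZ P (Finset.mem_filter.1 hP).1
  have hn := hNUM hK r C i0 δ (fun j => by
    obtain ⟨h, a, b, e⟩ := ex2 j
    have := hBEZ (C.Z.filter fun P => C.κ P = j) (fun _ => 1) (q j) h _ _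
      (fun P hP => C.pt P (Finset.mem_filter.1 hP).1) (hq j).ne_zero (fun e' => e (e' ▸ dvd_zero _))
      (hc j) b ((hq j).irreducible.isRelPrime_iff_not_dvd.2 e) fun P hP => by
        obtain ⟨a1, a2⟩ := Finset.mem_filter.1 hP
        exact ⟨(C.mem P a1 j).2 a2, by rw [pow_one]; exact hIC P a1 a⟩
    rwa [← Finset.card_eq_sum_ones, ← hC] at this) (fun j D u s hs hu => by
    obtain ⟨a1, a2⟩ := mem_V.1 hs
    obtain ⟨N, hN⟩ := H (j + j) (f ^ j * s) _ ((hfd.pow j).mul a1) fun P hP => by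
      by_cases e : f ∈ P ^ 2
      · rw [← two_mul, pow_mul]
        exact Ideal.mul_mem_right _ _ (Ideal.pow_mem_pow e j)
      · rw [pow_add]
        exact Ideal.mul_mem_mul (Ideal.pow_mem_pow (hIZ P hP hf) j)
          (a2 P (Finset.mem_filter.2 ⟨hP, e⟩))
    rw [← mul_assoc, ← pow_add] at hN
    have := hVB I (q i0) (initDeg I) δ hI (fun h a D b e => initDeg_le a e b)
      (fun h a D b e => hδ ▸ Nat.find_min' (ex i0) ⟨h, a, b, e⟩) _ _ (N + j + u) _ hN
      ((hfd.pow _).mul a1) fun e => hu (by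
        rw [hfq, ← Finset.mul_prod_erase _ _ (Finset.mem_univ i0)] at e
        exact p3_mult (hq i0) ((hq i0).not_dvd_finsetProd fun i hi =>
          hnd _ _ (Finset.ne_of_mem_erase hi).symm) e)
    rw [hC]
    lia)
  rw [hC] at hn
  obtain ⟨⟨g, hg1, hg2⟩, hg3⟩ := Submodule.exists_forall_notMem_of_forall_ne_top
    (fun i => ((Ideal.span {q i}).restrictScalars K).comap
      (homogeneousSubmodule (Fin 3) K (initDeg I + δ) ⊓ I.restrictScalars K).subtype) fun i e => by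
      obtain ⟨h, a, b, e'⟩ := ex2 i
      exact e' (Ideal.mem_span_singleton.1 (e.ge (Submodule.mem_top (x := ⟨h, b, a⟩))))
  have hg4 : ∀ i, ¬ q i ∣ g := fun i e => hg3 i (Ideal.mem_span_singleton.2 e)
  have hfg : IsRelPrime f g := hfq ▸ IsRelPrime.prod_left fun i _ =>
    (hq i).irreducible.isRelPrime_iff_not_dvd.2 (hg4 i)
  have e := hEQ I C.Z f g _ _ hI C.pt hIC hf hg2 hf0 (fun e => hg4 i0 (e ▸ dvd_zero _)) hfd hg1 hfg hn
  exact .inl ⟨f, hf, hf0, hfd, e ▸ (hKOS f g hf0 hfg).2⟩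

end sP3

end Pool.Agent.P.MP_ad771b_al.H
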