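import Pool.Agent.P.MP_ad771b_al.H.Defs

/-! Basic tools: homogeneous components, monomial ideals, orders, points of the plane. -/

set_option autoImplicit false
set_option linter.unusedSectionVars false

namespace Pool.Agent.P.MP_ad771b_al.H

open MvPolynomial Module

attribute [local instance] MvPolynomial.gradedAlgebra

section gen

variable {K : Type*} [CommRing K] [IsDomain K] {σ : Type}

/-- Homogeneous ideals. -/
abbrev Hom (I : Ideal (MvPolynomial σ K)) : Prop := I.IsHomogeneous (homogeneousSubmodule σ K)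

variable {I J : Ideal (MvPolynomial σ K)} {f g : MvPolynomial σ K} {a b d : ℕ}

lemma Hom.hc (h : Hom I) (hf : f ∈ I) (d : ℕ) : homogeneousComponent d f ∈ I :=
  (mem_iff_homogeneousComponent_mem h f).1 hf d

lemma hom_of (h : ∀ f ∈ I, ∀ d, homogeneousComponent d f ∈ I) : Hom I := fun d f hf => by
  have := h f hf d
  rwa [← decomposition.decompose'_apply] at this

lemma Hom.le (h : Hom I) (h' : ∀ f ∈ I, ∀ d, f.IsHomogeneous d → f ∈ J) : I ≤ J := fun f hf => by
  rw [← sum_homogeneousComponent f]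
  exact Ideal.sum_mem _ fun d _ => h' _ (h.hc hf d) d (homogeneousComponent_isHomogeneous d f)

lemma Hom.pow (h : Hom I) (k : ℕ) : Hom (I ^ k) := by
  induction k with
  | zero => rw [pow_zero, Ideal.one_eq_top]; exact Ideal.IsHomogeneous.top _
  | succ k ih => rw [pow_succ]; exact Ideal.IsHomogeneous.mul ih h

lemma hom_span {s : Set (MvPolynomial σ K)} (h : ∀ f ∈ s, ∃ d, f.IsHomogeneous d) :
    Hom (Ideal.span s) := Ideal.homogeneous_span _ _ h

lemma hc_mul (hg : g.IsHomogeneous a) (f : MvPolynomial σ K) (i : ℕ) :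
    homogeneousComponent (a + i) (g * f) = g * homogeneousComponent i f := by
  have := DirectSum.coe_decompose_mul_add_of_left_mem (homogeneousSubmodule σ K) (j := i) (b := f) hg
  rwa [← decomposition.decompose'_apply, ← decomposition.decompose'_apply]

lemma hc_mul_lt (hg : g.IsHomogeneous a) (f : MvPolynomial σ K) {i : ℕ} (h : i < a) :
    homogeneousComponent i (g * f) = 0 := by
  have := DirectSum.coe_decompose_mul_of_left_mem_of_not_le (homogeneousSubmodule σ K) (b := f) hg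
    h.not_ge
  rwa [← decomposition.decompose'_apply]

lemma Hom.colon (h : Hom I) (hg : g.IsHomogeneous a) : Hom (I.colon {g}) :=
  hom_of fun f hf d => by
    rw [Submodule.mem_colon_singleton, smul_eq_mul, mul_comm] at hf ⊢
    rw [← hc_mul hg]
    exact h.hc hf _

lemma mem_colon : f ∈ I.colon {g} ↔ f * g ∈ I := Submodule.mem_colon_singleton

/-- Polynomials all of whose monomials satisfy an upward closed condition. -/
def monI (K : Type*) [CommRing K] (c : (σ →₀ ℕ) → Prop) (hc : ∀ m m', c m → c (m' + m)) :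
    Ideal (MvPolynomial σ K) where
  carrier := {f | ∀ m ∈ f.support, c m}
  zero_mem' := by simp
  add_mem' := by
    classical
    intro f g hf hg m hm
    rcases Finset.mem_union.1 (support_add hm) with h | h
    · exact hf m h
    · exact hg m h
  smul_mem' := by
    classical
    intro r f hf m hm
    obtain ⟨a, -, b, hb, rfl⟩ := Finset.mem_add.1 (support_mul _ _ hm)
    exact hc _ _ (hf b hb)

lemma mem_monI {c : (σ →₀ ℕ) → Prop} {hc : ∀ m m', c m → c (m' + m)} :
    f ∈ monI K c hc ↔ ∀ m ∈ f.support, c m := Iff.rfl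

lemma monomial_mem_monI {c : (σ →₀ ℕ) → Prop} {hc : ∀ m m', c m → c (m' + m)} {m : σ →₀ ℕ}
    (h : c m) (r : K) : monomial m r ∈ monI K c hc := fun m' hm => by
  rwa [Finset.mem_singleton.1 (support_monomial_subset hm)]

lemma hom_monI (c : (σ →₀ ℕ) → Prop) (hc : ∀ m m', c m → c (m' + m)) : Hom (monI K c hc) :=
  hom_of fun f hf d m hm => by
    rw [support_homogeneousComponent] at hm
    exact hf m (Finset.mem_filter.1 hm).1

lemma monI_pow (c : ℕ → (σ →₀ ℕ) → Prop) (hc : ∀ k m m', c k m → c k (m' + m))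
    (h0 : ∀ m, c 0 m) (hadd : ∀ k m m', c k m → c 1 m' → c (k + 1) (m + m'))
    (hs : ∀ k m, c (k + 1) m → ∃ u v, u + v = m ∧ c k u ∧ c 1 v) (k : ℕ) :
    monI K (c 1) (hc 1) ^ k = monI K (c k) (hc k) := by
  classical
  induction k with
  | zero => rw [pow_zero, Ideal.one_eq_top, eq_comm, eq_top_iff]; exact fun f _ m _ => h0 m
  | succ k ih =>
    rw [pow_succ, ih]
    refine le_antisymm (Ideal.mul_le.2 fun f hf g hg m hm => ?_) fun f hf => ?_
    · obtain ⟨u, hu, v, hv, rfl⟩ := Finset.mem_add.1 (support_mul _ _ hm)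
      exact hadd _ _ _ (hf u hu) (hg v hv)
    · rw [f.as_sum]
      refine Ideal.sum_mem _ fun m hm => ?_
      obtain ⟨u, v, rfl, hu, hv⟩ := hs k m (hf m hm)
      rw [← mul_one (coeff _ f), ← monomial_mul]
      exact Ideal.mul_mem_mul (monomial_mem_monI hu _) (monomial_mem_monI hv _)

/-- Polynomials of weighted order at least `k`. -/
def oI (K : Type*) [CommRing K] (w : σ → ℕ) (k : ℕ) : Ideal (MvPolynomial σ K) :=
  monI K (fun m => k ≤ Finsupp.weight w m) fun m m' h => by rw [map_add]; omega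

variable {w : σ → ℕ}

lemma mem_oI : f ∈ oI K w a ↔ ∀ m ∈ f.support, a ≤ Finsupp.weight w m := Iff.rfl

lemma oI_iff : f ∈ oI K w a ↔ (a : ℕ∞) ≤ (f : MvPowerSeries σ K).weightedOrder w := by
  constructor
  · intro h
    refine MvPowerSeries.nat_le_weightedOrder _ fun d hd => ?_
    rw [coeff_coe]
    by_contra hne
    exact (h d (mem_support_iff.2 hne)).not_gt hd
  · intro h m hm
    have := h.trans (MvPowerSeries.weightedOrder_le w (d := m)
      (by rw [coeff_coe]; exact mem_support_iff.1 hm))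
    exact_mod_cast this

lemma oI_zero : oI K w 0 = ⊤ := eq_top_iff.2 fun _ _ _ _ => Nat.zero_le _

lemma oI_anti (h : a ≤ b) : oI K w b ≤ oI K w a := fun _ hf m hm => h.trans (hf m hm)

lemma mul_mem_oI (hf : f ∈ oI K w a) (hg : g ∈ oI K w b) : f * g ∈ oI K w (a + b) := by
  rw [oI_iff] at hf hg ⊢
  rw [coe_mul, MvPowerSeries.weightedOrder_mul, Nat.cast_add]
  exact add_le_add hf hg

lemma mul_notMem_oI (hf : f ∉ oI K w (a + 1)) (hg : g ∉ oI K w (b + 1)) :
    f * g ∉ oI K w (a + b + 1) := by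
  rw [oI_iff, Nat.cast_add_one, not_le, ENat.lt_add_one_iff (ENat.natCast_ne_top _)] at hf hg ⊢
  rw [coe_mul, MvPowerSeries.weightedOrder_mul, Nat.cast_add]
  exact add_le_add hf hg

lemma one_notMem_oI : (1 : MvPolynomial σ K) ∉ oI K w (a + 1) := fun h => by
  simpa using h 0 (by simp)

lemma oI_prime (w : σ → ℕ) : (oI K w 1).IsPrime :=
  ⟨fun h => one_notMem_oI (a := 0) (h.ge trivial), fun {f g} h => by
    by_contra e
    exact mul_notMem_oI (a := 0) (b := 0) (not_or.1 e).1 (not_or.1 e).2 h⟩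

lemma oI_one (w : σ → ℕ) : oI K w 1 = Ideal.span (X '' {i | w i ≠ 0}) := by
  ext f
  rw [mem_oI, mem_ideal_span_X_image]
  refine forall₂_congr fun m _ => ?_
  rw [Nat.one_le_iff_ne_zero, Finsupp.weight_apply, Finsupp.sum, Ne, Finset.sum_eq_zero_iff]
  push Not
  simp only [Finsupp.mem_support_iff, smul_eq_mul, ne_eq, mul_eq_zero, not_or, Set.mem_ofPred_eq]
  exact ⟨fun ⟨i, h, _, h'⟩ => ⟨i, h', h⟩, fun ⟨i, h, h'⟩ => ⟨i, h', h', h⟩⟩

lemma oI_pow (hw : ∀ i, w i ≤ 1) (k : ℕ) : oI K w 1 ^ k = oI K w k := by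
  refine monI_pow (fun k m => k ≤ Finsupp.weight w m) _ (fun _ => Nat.zero_le _)
    (fun k m m' h h' => by rw [map_add]; omega) (fun k m h => ?_) k
  have h1 : monomial m (1 : K) ∈ oI K w 1 := monomial_mem_monI (by omega) _
  rw [oI_one, mem_ideal_span_X_image] at h1
  obtain ⟨i, hi, hm⟩ := h1 m (by classical simp [coeff_monomial])
  obtain ⟨u, rfl⟩ := le_iff_exists_add'.1
    (Finsupp.single_le_iff.2 (Nat.one_le_iff_ne_zero.2 hm) : Finsupp.single i 1 ≤ m)
  have e : Finsupp.weight w (Finsupp.single i 1) = 1 := by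
    have := hw i
    have h2 : w i ≠ 0 := hi
    rw [Finsupp.weight_single, smul_eq_mul]
    omega
  rw [map_add] at h
  exact ⟨u, _, rfl, by omega, e.ge⟩

lemma hom_iff : f.IsHomogeneous d ↔ ∀ m ∈ f.support, Finsupp.weight 1 m = d :=
  ⟨fun h _ hm => h (mem_support_iff.1 hm), fun h _ hm => h _ (mem_support_iff.2 hm)⟩

lemma hom_mem_oI (h : f.IsHomogeneous d) : f ∈ oI K 1 d := fun m hm => (hom_iff.1 h m hm).ge

lemma le_of_mem_oI (h : f.IsHomogeneous d) (h0 : f ≠ 0) (hf : f ∈ oI K 1 a) : a ≤ d := by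
  obtain ⟨m, hm⟩ := support_nonempty.2 h0
  exact (hf m hm).trans_eq (hom_iff.1 h m hm)

lemma weight_le_totalDegree {m : σ →₀ ℕ} (hm : m ∈ f.support) :
    Finsupp.weight 1 m ≤ f.totalDegree := by
  simpa [Finsupp.weight_apply] using le_totalDegree hm

/-- Factors of homogeneous polynomials are homogeneous. -/
lemma hom_factor (h : (f * g).IsHomogeneous d) (h0 : f * g ≠ 0) :
    ∃ a b, f.IsHomogeneous a ∧ g.IsHomogeneous b ∧ a + b = d := by
  have hf := left_ne_zero_of_mul h0
  have hg := right_ne_zero_of_mul h0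
  have e := totalDegree_mul_of_isDomain hf hg
  rw [h.totalDegree h0] at e
  have key : ∀ {u v : MvPolynomial σ K}, v ≠ 0 → u * v ∈ oI K 1 (u.totalDegree + v.totalDegree) →
      u.IsHomogeneous u.totalDegree := by
    intro u v hv huv
    refine hom_iff.2 fun m hm => le_antisymm (weight_le_totalDegree hm) ?_
    by_contra hlt
    obtain ⟨m', hm'⟩ := support_nonempty.2 hv
    have h1 : u ∉ oI K 1 (Finsupp.weight 1 m + 1) := fun h => by simpa using h m hm
    have h2 : v ∉ oI K 1 (v.totalDegree + 1) := fun h => by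
      have := (h m' hm').trans (weight_le_totalDegree hm')
      omega
    exact mul_notMem_oI h1 h2 (oI_anti (by omega) huv)
  exact ⟨_, _, key hg (e ▸ hom_mem_oI h), key hf (by rw [mul_comm, add_comm, ← e]; exact hom_mem_oI h),
    e.symm⟩

lemma height_span_X [IsNoetherianRing K] (T : Finset σ) [Finite σ] :
    (Ideal.span (X '' (T : Set σ)) : Ideal (MvPolynomial σ K)).height = T.card := by
  classical
  have e : ∀ T : Finset σ, (Ideal.span (X '' (T : Set σ)) : Ideal (MvPolynomial σ K)) =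
      oI K (fun i => if i ∈ T then 1 else 0) 1 := fun T => by
    rw [oI_one]
    simp
  have p : ∀ T : Finset σ, (Ideal.span (X '' (T : Set σ)) : Ideal (MvPolynomial σ K)).IsPrime :=
    fun T => e T ▸ oI_prime _
  refine le_antisymm ?_ ?_
  · have := p T
    refine (Ideal.height_le_card_of_mem_minimalPrimes_span (T.finite_toSet.image X)
      (by rw [Ideal.minimalPrimes_eq_subsingleton_self]; rfl)).trans ?_
    exact Nat.cast_le.2 ((Set.ncard_image_le T.finite_toSet).trans_eq (Set.ncard_coe_finset T))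
  · induction T using Finset.induction_on with
    | empty => simp
    | insert a T ha ih =>
      have := p T
      have := p (insert a T)
      rw [Finset.card_insert_of_notMem ha, Nat.cast_add_one]
      refine (add_le_add_left ih 1).trans (Ideal.height_add_one_le_of_lt_of_isPrime
        (lt_of_le_of_ne (Ideal.span_mono (Set.image_mono (by simp))) fun h => ?_))
      have h1 : (X a : MvPolynomial σ K) ∈ Ideal.span (X '' (T : Set σ)) :=
        h.ge (Ideal.subset_span ⟨a, by simp, rfl⟩)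
      obtain ⟨i, hi, h2⟩ := mem_ideal_span_X_image.1 h1 (Finsupp.single a 1) (by simp [support_X])
      exact h2 (Finsupp.single_eq_of_ne fun h3 => ha (h3 ▸ hi))

variable (K σ) in
/-- The irrelevant ideal. -/
abbrev mm : Ideal (MvPolynomial σ K) := oI K 1 1

lemma mm_eq : mm K σ = Ideal.span (Set.range X) := by rw [mm, oI_one]; simp

lemma X_mem_mm (i : σ) : X i ∈ mm K σ := mm_eq (K := K) (σ := σ) ▸ Ideal.subset_span ⟨i, rfl⟩

lemma mm_le (h : ∀ i, X i ∈ I) : mm K σ ≤ I := by
  rw [mm_eq, Ideal.span_le]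
  rintro _ ⟨i, rfl⟩
  exact h i

lemma mm_pow (k : ℕ) : mm K σ ^ k = oI K 1 k := oI_pow (fun _ => le_rfl) k

lemma Hom.le_mm {K : Type*} [Field K] {I : Ideal (MvPolynomial σ K)} (h : Hom I) (h' : I ≠ ⊤) :
    I ≤ mm K σ := h.le fun f hf d hd => by
  rcases d with _ | d
  · obtain ⟨c, rfl⟩ : ∃ c, f = C c := ⟨_, totalDegree_eq_zero_iff_eq_C.1 (by
      simpa using hd.totalDegree_le)⟩
    rcases eq_or_ne c 0 with rfl | e
    · simp
    · exact (h' (Ideal.eq_top_of_isUnit_mem _ hf ((Ne.isUnit e).map C))).elim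
  · exact oI_anti (by omega) (hom_mem_oI hd)

end gen

section nn

variable {K : Type*} [Field K] {n : ℕ} {I J p : Ideal (MvPolynomial (Fin n) K)}
  {f : MvPolynomial (Fin n) K} {d : ℕ}

lemma height_mm : (mm K (Fin n)).height = n := by
  have := height_span_X (K := K) (Finset.univ : Finset (Fin n))
  rwa [Finset.coe_univ, Set.image_univ, ← mm_eq, Finset.card_fin] at this

lemma height_le (h : p ≠ ⊤) : p.height ≤ n := by
  have := Ideal.height_le_ringKrullDim_of_ne_top h
  rw [MvPolynomial.ringKrullDim_of_isNoetherianRing, ringKrullDim_eq_zero_of_field, zero_add,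
    Nat.card_fin] at this
  exact_mod_cast this

lemma initDeg_le (hf : f ∈ I) (h0 : f ≠ 0) (h : f.IsHomogeneous d) : initDeg I ≤ d :=
  Nat.sInf_le ⟨f, hf, h0, h⟩

lemma exists_initDeg (h : Hom I) (h0 : I ≠ ⊥) :
    ∃ f ∈ I, f ≠ 0 ∧ f.IsHomogeneous (initDeg I) := by
  refine Nat.sInf_mem (s := {d | ∃ f ∈ I, f ≠ 0 ∧ f.IsHomogeneous d}) ?_
  by_contra e
  refine h0 (le_bot_iff.1 (h.le fun f hf d hd => ?_))
  by_contra e'
  exact e ⟨d, f, hf, e', hd⟩

lemma Hom.le_oI (h : Hom I) : I ≤ oI K 1 (initDeg I) := h.le fun f hf d hd => by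
  rcases eq_or_ne f 0 with rfl | e
  · exact zero_mem _
  · exact oI_anti (initDeg_le hf e hd) (hom_mem_oI hd)

lemma Hom.le_deg (h : Hom I) {k : ℕ} (hf : f ∈ I ^ k) (h0 : f ≠ 0) (hd : f.IsHomogeneous d) :
    initDeg I * k ≤ d := by
  have := Ideal.pow_right_mono (h.le_oI.trans_eq (mm_pow _).symm) k hf
  rw [← pow_mul, mm_pow] at this
  exact le_of_mem_oI hd h0 this

lemma mem_ass_iff (J q : Ideal (MvPolynomial (Fin n) K)) :
    q ∈ associatedPrimes (MvPolynomial (Fin n) K) (MvPolynomial (Fin n) K ⧸ J) ↔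
      q.IsPrime ∧ ∃ f, q = J.colon {f} := by
  rw [AssociatedPrimes.mem_iff, isAssociatedPrime_iff]
  refine and_congr_right fun _ => ?_
  have key : ∀ f : MvPolynomial (Fin n) K,
      (⊥ : Submodule (MvPolynomial (Fin n) K) (MvPolynomial (Fin n) K ⧸ J)).colon
        {Ideal.Quotient.mk J f} = J.colon {f} := by
    intro f
    ext g
    rw [Submodule.mem_colon_singleton, Submodule.mem_colon_singleton, Submodule.mem_bot,
      ← Ideal.Quotient.eq_zero_iff_mem]
    rfl
  constructor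
  · rintro ⟨x, hx⟩
    obtain ⟨f, rfl⟩ := Ideal.Quotient.mk_surjective x
    exact ⟨f, hx.trans (key f)⟩
  · rintro ⟨f, hf⟩
    exact ⟨_, hf.trans (key f).symm⟩

/-- A first situation in which the slope equals the initial degree. -/
def Good1 (I : Ideal (MvPolynomial (Fin n) K)) : Prop :=
  ∃ f ∈ I, f ≠ 0 ∧ f.IsHomogeneous (initDeg I) ∧ ∀ k, (I ^ (k + 1)).colon {f} ≤ I ^ k

/-- A second situation in which the slope equals the initial degree. -/
def Good2 (I : Ideal (MvPolynomial (Fin n) K)) : Prop :=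
  ∃ f ∈ I, f ≠ 0 ∧ f.IsHomogeneous (initDeg I) ∧ ∃ j s d, s.IsHomogeneous d ∧
    (∀ N, f ^ N * s ∉ I ^ (j + N)) ∧ mm K (Fin n) ≤ ((I ^ j).colon {s}).radical

end nn

section plane

/-- The coordinate ring of the plane. -/
abbrev S3 (K : Type*) [Field K] := MvPolynomial (Fin 3) K

variable {K : Type*} [Field K]

/-- The ideal of a point of the plane. -/
def IsPt (P : Ideal (S3 K)) : Prop :=
  ∃ A : S3 K ≃ₐ[K] S3 K, (∀ i, (A (X i)).IsHomogeneous 1) ∧ (∀ i, (A.symm (X i)).IsHomogeneous 1) ∧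
    P = (oI K ![1, 1, 0] 1).comap A

/-- A finite set of points. -/
def Pts (Z : Finset (Ideal (S3 K))) : Prop := ∀ P ∈ Z, IsPt P

/-- Forms of degree `N` with order at least `w P` at the points `P` of `Z`. -/
noncomputable def V (Z : Finset (Ideal (S3 K))) (w : Ideal (S3 K) → ℕ) (N : ℕ) :
    Submodule K (S3 K) :=
  homogeneousSubmodule (Fin 3) K N ⊓ ⨅ P ∈ Z, (P ^ w P).restrictScalars K

/-- The dimension of `V Z w N`. -/
noncomputable def dV (Z : Finset (Ideal (S3 K))) (w : Ideal (S3 K) → ℕ) (N : ℕ) : ℕ :=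
  finrank K (V Z w N)

lemma mem_V {Z : Finset (Ideal (S3 K))} {w : Ideal (S3 K) → ℕ} {N : ℕ} {s : S3 K} :
    s ∈ V Z w N ↔ s.IsHomogeneous N ∧ ∀ P ∈ Z, s ∈ P ^ w P := by
  simp [V, Submodule.mem_iInf]

instance (N : ℕ) : FiniteDimensional K (homogeneousSubmodule (Fin 3) K N) :=
  Module.Finite.iff_fg.2 (homogeneousSubmodule_fg _ _ N)

instance (Z : Finset (Ideal (S3 K))) (w : Ideal (S3 K) → ℕ) (N : ℕ) :
    FiniteDimensional K (V Z w N) := Submodule.finiteDimensional_inf_left _ _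

lemma hom_map {A : S3 K ≃ₐ[K] S3 K} (h : ∀ i, (A (X i)).IsHomogeneous 1) {f : S3 K} {d : ℕ}
    (hf : f.IsHomogeneous d) : (A f).IsHomogeneous d := by
  have := hf.aeval (fun i => A (X i)) h
  rwa [one_mul, show aeval (fun i => A (X i)) f = A f from
    (DFunLike.congr_fun (aeval_unique (A : S3 K →ₐ[K] S3 K)) f).symm] at this

/-- The powers of the ideal of a point, in a chart. -/
lemma IsPt.chart {P : Ideal (S3 K)} (h : IsPt P) :
    ∃ A : S3 K ≃ₐ[K] S3 K, (∀ f d, f.IsHomogeneous d → (A f).IsHomogeneous d) ∧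
      (∀ f d, f.IsHomogeneous d → (A.symm f).IsHomogeneous d) ∧
      ∀ k f, f ∈ P ^ k ↔ A f ∈ oI K ![1, 1, 0] k := by
  obtain ⟨A, h1, h2, rfl⟩ := h
  refine ⟨A, fun _ _ => hom_map h1, fun _ _ => hom_map h2, fun k f => ?_⟩
  rw [← oI_pow (fun i => by fin_cases i <;> simp) k, ← Ideal.mem_comap]
  have e : ∀ J : Ideal (S3 K), J.comap A = J.map A.symm := fun J =>
    (Ideal.map_symm A.toRingEquiv).symm
  rw [e, e, Ideal.map_pow]

lemma IsPt.mul_notMem {P : Ideal (S3 K)} (h : IsPt P) {s t : S3 K} {a b : ℕ}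
    (hs : s ∉ P ^ (a + 1)) (ht : t ∉ P ^ (b + 1)) : s * t ∉ P ^ (a + b + 1) := by
  obtain ⟨A, -, -, e⟩ := h.chart
  rw [e] at hs ht ⊢
  rw [map_mul]
  exact mul_notMem_oI hs ht

lemma IsPt.prime {P : Ideal (S3 K)} (h : IsPt P) : P.IsPrime := by
  obtain ⟨A, -, -, rfl⟩ := h
  have := oI_prime (K := K) ![1, 1, 0]
  exact Ideal.comap_isPrime _ _

lemma IsPt.height {P : Ideal (S3 K)} (h : IsPt P) : P.height = 2 := by
  obtain ⟨A, -, -, rfl⟩ := h
  have := height_span_X (K := K) ({0, 1} : Finset (Fin 3))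
  refine (RingEquiv.height_comap A.toRingEquiv _).trans ?_
  rw [oI_one, show {i | (![1, 1, 0] : Fin 3 → ℕ) i ≠ 0} = (({0, 1} : Finset (Fin 3)) : Set (Fin 3)) by
    ext i
    fin_cases i <;> simp]
  exact this

/-- Comparable points are equal. -/
lemma IsPt.eq_of_le {P Q : Ideal (S3 K)} (h : IsPt P) (h' : IsPt Q) (e : P ≤ Q) : P = Q :=
  have := h.prime
  Ideal.eq_of_le_of_height_le _ e (by rw [h.height, h'.height])

/-- A reduced curve with components `q i` and simple points `Z`; `κ P` is the component through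
`P`. -/
structure Cfg (K : Type*) [Field K] (r : ℕ) where
  q : Fin r → S3 K
  c : Fin r → ℕ
  Z : Finset (Ideal (S3 K))
  κ : Ideal (S3 K) → Fin r
  prime : ∀ i, Prime (q i)
  hom : ∀ i, (q i).IsHomogeneous (c i)
  pos : ∀ i, 0 < c i
  ndvd : ∀ i j, i ≠ j → ¬ q i ∣ q j
  pt : Pts Z
  mem : ∀ P ∈ Z, ∀ i, q i ∈ P ↔ κ P = i
  sm : ∀ P ∈ Z, ∀ i, q i ∉ P ^ 2

/-- The number of points on a component. -/
def Cfg.z {r : ℕ} (C : Cfg K r) (i : Fin r) : ℕ := (C.Z.filter fun P => C.κ P = i).card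

/-- The degree of `∏ q i ^ μ i`. -/
def Cfg.dg {r : ℕ} (C : Cfg K r) (μ : Fin r → ℕ) : ℕ := ∑ i, μ i * C.c i

/-- Forms of degree `D` with order at least `μ i` at the points of the component `i`. -/
noncomputable abbrev Cfg.W {r : ℕ} (C : Cfg K r) (μ : Fin r → ℕ) (D : ℕ) : Submodule K (S3 K) :=
  V C.Z (fun P => μ (C.κ P)) D

end plane

section ex

variable {R : Type*} [CommRing R]

/-- The ideal `(x y, x B, y A)` of `R[x, y]`. -/
noncomputable def exJ (A B : R) : Ideal (MvPolynomial (Fin 2) R) :=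
  Ideal.span {X 0 * X 1, X 0 * C B, X 1 * C A}

/-- The description of the powers of `exJ A B` by coefficients. -/
def exC (A B : R) (k : ℕ) (s : MvPolynomial (Fin 2) R) : Prop :=
  ∀ u : Fin 2 →₀ ℕ, (u 0 + u 1 < k → coeff u s = 0) ∧ A ^ (k - u 0) ∣ coeff u s ∧
    B ^ (k - u 1) ∣ coeff u s

end ex

end Pool.Agent.P.MP_ad771b_al.H
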