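import Mathlib

/-! Initial degree, local v-numbers and stable primes. -/

set_option autoImplicit false

namespace Pool.Agent.P.MP_ad771b_al.H

open MvPolynomial Filter

variable {K : Type*} [Field K] {n : ℕ}

/-- The initial degree `α(I)`: least degree of a nonzero homogeneous element of `I`. -/
noncomputable def initDeg (I : Ideal (MvPolynomial (Fin n) K)) : ℕ :=
  sInf {d | ∃ f ∈ I, f ≠ 0 ∧ f.IsHomogeneous d}

/-- The local v-number `v_p(I)`: least degree of a homogeneous `f` with `(I : f) = p`. -/
noncomputable def vLocal (p I : Ideal (MvPolynomial (Fin n) K)) : ℕ :=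
  sInf {d | ∃ f : MvPolynomial (Fin n) K, f.IsHomogeneous d ∧ I.colon {f} = p}

/-- The stable primes: associated primes of `S / I ^ k` for all large `k`. -/
def assInf (I : Ideal (MvPolynomial (Fin n) K)) : Set (Ideal (MvPolynomial (Fin n) K)) :=
  {p | ∀ᶠ k : ℕ in atTop,
    p ∈ associatedPrimes (MvPolynomial (Fin n) K) (MvPolynomial (Fin n) K ⧸ I ^ k)}

/-- The maximal stable primes. -/
def maxInf (I : Ideal (MvPolynomial (Fin n) K)) : Set (Ideal (MvPolynomial (Fin n) K)) :=
  {p | Maximal (fun q => q ∈ assInf I) p}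

end Pool.Agent.P.MP_ad771b_al.H
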