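import Pool.Agent.P.MP_ad771b_al.H.Iface

/-! Bounds for the slope, and the assembly of the two theorems from the steps. -/

set_option autoImplicit false
set_option linter.unusedSectionVars false

namespace Pool.Agent.P.MP_ad771b_al.H

open MvPolynomial Module Filter Topology

attribute [local instance] MvPolynomial.gradedAlgebra

variable {K : Type*} [Field K] {n : ℕ} {I p : Ideal (MvPolynomial (Fin n) K)}

lemma ass_wit (hHW : S_HW K) (hI : Hom I) (hp : p ∈ assInf I) : p.IsPrime ∧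
    ∀ᶠ k : ℕ in atTop, ∃ (g : MvPolynomial (Fin n) K) (d : ℕ), g.IsHomogeneous d ∧
      (I ^ k).colon {g} = p := by
  obtain ⟨k, hk⟩ := Filter.Eventually.exists hp
  refine ⟨((mem_ass_iff _ _).1 hk).1, Filter.Eventually.mono hp fun k hk => ?_⟩
  obtain ⟨h1, f, h2⟩ := (mem_ass_iff _ _).1 hk
  exact hHW n _ p f (hI.pow k) h1 h2

lemma le_of_ass (hp : p ∈ assInf I) : I ≤ p := by
  obtain ⟨k, hk⟩ := Filter.Eventually.exists hp
  obtain ⟨h1, f, h2⟩ := (mem_ass_iff _ _).1 hk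
  exact h1.le_of_pow_le (n := k) fun x hx => h2 ▸ mem_colon.2 (Ideal.mul_mem_right _ _ hx)

lemma ass_le_mm (hHW : S_HW K) (hI : Hom I) (hp : p ∈ assInf I) : p ≤ mm K (Fin n) := by
  obtain ⟨h1, h2⟩ := ass_wit hHW hI hp
  obtain ⟨k, g, d, hg, rfl⟩ := h2.exists
  exact ((hI.pow k).colon hg).le_mm h1.ne_top

lemma low (hHW : S_HW K) (hI : Hom I) (h0 : I ≠ ⊥) (hp : p ∈ assInf I) :
    ∀ᶠ k : ℕ in atTop, initDeg I * k ≤ vLocal p (I ^ k) + initDeg I := by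
  obtain ⟨h1, h2⟩ := ass_wit hHW hI hp
  obtain ⟨f, hf, hf0, hfd⟩ := exists_initDeg hI h0
  refine h2.mono fun k ⟨g, d, hg⟩ => ?_
  obtain ⟨s, hs, e⟩ := Nat.sInf_mem (s := {d | ∃ f : MvPolynomial (Fin n) K, f.IsHomogeneous d ∧
    (I ^ k).colon {f} = p}) ⟨d, g, hg⟩
  have hs0 : s ≠ 0 := by
    rintro rfl
    exact h1.ne_top (e ▸ eq_top_iff.2 fun x _ => mem_colon.2 (by simp))
  exact hI.le_deg (mem_colon.1 (e.ge (le_of_ass hp hf))) (mul_ne_zero hf0 hs0)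
    (add_comm (initDeg I) _ ▸ hfd.mul hs)

lemma upp (hHW : S_HW K) (hI : Hom I) (hp : p ∈ maxInf I) {f s : MvPolynomial (Fin n) K}
    {a d j : ℕ} (hf : f ∈ I) (hfa : f.IsHomogeneous a) (hs : s.IsHomogeneous d)
    (h1 : ∀ N, f ^ N * s ∉ I ^ (j + N)) (h2 : p ≤ ((I ^ j).colon {s}).radical) :
    ∃ C, ∀ᶠ k : ℕ in atTop, vLocal p (I ^ k) ≤ a * k + C := by
  have mono : Monotone fun N => (I ^ (j + N)).colon {f ^ N * s} :=
    monotone_nat_of_le_succ fun N x hx => by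
      rw [mem_colon] at hx ⊢
      rw [show x * (f ^ (N + 1) * s) = x * (f ^ N * s) * f by ring, ← add_assoc, pow_succ]
      exact Ideal.mul_mem_mul hx hf
  obtain ⟨N0, hN⟩ := monotone_stabilizes_iff_noetherian.2 inferInstance ⟨_, mono⟩
  simp only [OrderHom.coe_mk] at hN
  set c := (I ^ (j + N0)).colon {f ^ N0 * s} with hc
  have hc1 : c ≠ ⊤ := fun e => h1 N0 (by simpa using mem_colon.1 (e.ge (Submodule.mem_top (x := 1))))
  have := Ideal.Quotient.nontrivial_iff.2 hc1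
  obtain ⟨q, hq⟩ := associatedPrimes.nonempty (MvPolynomial (Fin n) K) (MvPolynomial (Fin n) K ⧸ c)
  obtain ⟨hq1, w0, hq2⟩ := (mem_ass_iff _ _).1 hq
  obtain ⟨w, e, hw, hq3⟩ := hHW n c q w0 ((hI.pow _).colon ((hfa.pow N0).mul hs)) hq1 hq2
  have key : ∀ N, N0 ≤ N → (I ^ (j + N)).colon {w * (f ^ N * s)} = q := fun N h => by
    ext x
    rw [← hq3, hN N h, mem_colon, mem_colon, mem_colon, mul_assoc]
  have hpq : p ≤ q := h2.trans (hq1.radical_le_iff.2 fun x hx => by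
    rw [← hq3, mem_colon]
    refine Ideal.mul_mem_right _ _ (mono (Nat.zero_le N0) ?_)
    simpa using hx)
  have hqp : q ≤ p := hp.2 (eventually_atTop.2 ⟨j + N0, fun k hk => by
    obtain ⟨N, rfl⟩ := Nat.exists_eq_add_of_le (le_of_add_le_left hk)
    exact (mem_ass_iff _ _).2 ⟨hq1, _, (key N (by omega)).symm⟩⟩) hpq
  refine ⟨e + d, eventually_atTop.2 ⟨j + N0, fun k hk => ?_⟩⟩
  obtain ⟨N, rfl⟩ := Nat.exists_eq_add_of_le (le_of_add_le_left hk)
  have : vLocal p (I ^ (j + N)) ≤ e + (a * N + d) := Nat.sInf_le ⟨_, hw.mul ((hfa.pow N).mul hs),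
    (key N (by omega)).trans (le_antisymm hqp hpq)⟩
  rw [mul_add]
  omega

lemma tend {v : ℕ → ℕ} {a b c : ℕ} (h1 : ∀ᶠ k : ℕ in atTop, a * k ≤ v k + b)
    (h2 : ∀ᶠ k : ℕ in atTop, v k ≤ a * k + c) :
    Tendsto (fun k : ℕ => (v k : ℝ) / k) atTop (𝓝 a) := by
  have t : ∀ x : ℝ, Tendsto (fun k : ℕ => (a : ℝ) + x / k) atTop (𝓝 a) := fun x => by
    simpa using (tendsto_const_div_atTop_nhds_zero_nat x).const_add (a : ℝ)
  refine tendsto_of_tendsto_of_tendsto_of_le_of_le' (t (-b)) (t c) ?_ ?_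
  · filter_upwards [h1, eventually_gt_atTop 0] with k h hk
    have hk' : (0 : ℝ) < k := by exact_mod_cast hk
    have : (a : ℝ) * k ≤ v k + b := by exact_mod_cast h
    rw [add_div' _ _ _ hk'.ne']
    gcongr
    linarith
  · filter_upwards [h2, eventually_gt_atTop 0] with k h hk
    have hk' : (0 : ℝ) < k := by exact_mod_cast hk
    have : (v k : ℝ) ≤ a * k + c := by exact_mod_cast h
    rw [add_div' _ _ _ hk'.ne']
    gcongr

lemma le_lim {v : ℕ → ℕ} {a b : ℕ} {x : ℝ} (h1 : ∀ᶠ k : ℕ in atTop, a * k ≤ v k + b)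
    (h : Tendsto (fun k : ℕ => (v k : ℝ) / k) atTop (𝓝 x)) : (a : ℝ) ≤ x := by
  refine le_of_tendsto_of_tendsto (tend (v := fun k => a * k - b) (b := b) (c := 0)
    (.of_forall fun k => by omega) (.of_forall fun k => by omega)) h (h1.mono fun k hk => ?_)
  have : ((a * k - b : ℕ) : ℝ) ≤ v k := by exact_mod_cast (by omega : a * k - b ≤ v k)
  dsimp only
  gcongr

/-- The slope of the local v-numbers at `p` is `a`. -/
abbrev Slope (p I : Ideal (MvPolynomial (Fin n) K)) (a : ℝ) : Prop :=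
  Tendsto (fun k : ℕ => (vLocal p (I ^ k) : ℝ) / k) atTop (𝓝 a)

lemma slope1 (hHW : S_HW K) (hI : Hom I) (hp : p ∈ maxInf I) (h : Good1 I) :
    Slope p I (initDeg I) := by
  obtain ⟨f, hf, hf0, hfd, h⟩ := h
  obtain ⟨h1, h2⟩ := ass_wit hHW hI hp.1
  obtain ⟨j, s, d, hs, e⟩ := h2.exists
  obtain ⟨C, hC⟩ := upp hHW hI hp hf hfd hs (j := j) (fun N => by
    induction N with
    | zero => exact fun h3 => h1.ne_top (e ▸ (Ideal.eq_top_iff_one _).2 (mem_colon.2 (by simpa using h3)))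
    | succ N ih => exact fun h3 => ih (h _ (mem_colon.2 (by rwa [mul_right_comm, ← pow_succ]))))
    (e.ge.trans Ideal.le_radical)
  exact tend (low hHW hI (fun e => hf0 (e.le hf)) hp.1) hC

lemma slope2 (hHW : S_HW K) (hI : Hom I) (hp : p ∈ maxInf I) (h : Good2 I) :
    Slope p I (initDeg I) := by
  obtain ⟨f, hf, hf0, hfd, j, s, d, hs, h1, h2⟩ := h
  obtain ⟨C, hC⟩ := upp hHW hI hp hf hfd hs h1 ((ass_le_mm hHW hI hp.1).trans h2)
  exact tend (low hHW hI (fun e => hf0 (e.le hf)) hp.1) hC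

lemma slope3 (hHW : S_HW K) (hI : Hom I) (h0 : I ≠ ⊥) (hp : p ∈ maxInf I) (h : p.height = 1) :
    Slope p I (initDeg I) := by
  obtain ⟨f, hf, hf0, hfd⟩ := exists_initDeg hI h0
  have h1 := (ass_wit hHW hI hp.1).1
  obtain ⟨g, rfl⟩ := (UniqueFactorizationMonoid.isPrincipal_of_height_eq_one h).principal
  obtain ⟨s, rfl⟩ := Ideal.mem_span_singleton.1 (le_of_ass hp.1 hf)
  obtain ⟨a, b, ha, hb, e⟩ := hom_factor hfd hf0
  have h2 : 1 ≤ a := le_of_mem_oI ha (left_ne_zero_of_mul hf0)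
    (ass_le_mm hHW hI hp.1 (Ideal.mem_span_singleton_self g))
  obtain ⟨C, hC⟩ := upp hHW hI hp hf hfd hb (j := 1) (fun N h3 => by
    have := hI.le_deg h3 (mul_ne_zero (pow_ne_zero _ hf0) (right_ne_zero_of_mul hf0))
      ((hfd.pow N).mul hb)
    rw [mul_add] at this
    omega) (((Ideal.span_singleton_le_iff_mem _).2 (mem_colon.2 (by rwa [pow_one]))).trans
      Ideal.le_radical)
  exact tend (low hHW hI h0 hp.1) hC

lemma good_top : Good1 (⊤ : Ideal (MvPolynomial (Fin n) K)) :=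
  ⟨1, trivial, one_ne_zero, by
    rw [Nat.le_zero.1 (initDeg_le Submodule.mem_top one_ne_zero (isHomogeneous_one _ _))]
    exact isHomogeneous_one _ _, fun k => by rw [Ideal.top_pow, Ideal.top_pow]; exact le_top⟩

/-- Reduction to ideals without a common factor. -/
lemma slope4 (hHW : S_HW K) (hGCD : S_GCD K) (hGMUL : S_GMUL K) (hI : Hom I) (h0 : I ≠ ⊥)
    (hp : p ∈ maxInf I) (h : ∀ g, Hom (I.colon {g}) → I.colon {g} ≠ ⊤ →
      (∀ h, I.colon {g} ≤ Ideal.span {h} → IsUnit h) →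
        (I.IsRadical ∧ Good1 (I.colon {g})) ∨ Good2 (I.colon {g})) : Slope p I (initDeg I) := by
  obtain ⟨g, e, hg0, hg, h1, h2⟩ := hGCD n I hI h0
  obtain ⟨-, h3, h4⟩ := hGMUL n _ g e (hI.colon hg) (fun e => h0 (by rw [h1, e, Ideal.mul_bot]))
    hg0 hg
  rw [← h1] at h3 h4
  by_cases e : I.colon {g} = ⊤
  · exact slope1 hHW hI hp (h4 (.inl e) (e ▸ good_top))
  · rcases h g (hI.colon hg) e h2 with h5 | h5
    · exact slope1 hHW hI hp (h4 (.inr h5.1) h5.2)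
    · exact slope2 hHW hI hp (h3 h5)

theorem range_of (hHW : S_HW K) (hLIN : S_LIN K) (hGCD : S_GCD K) (hGMUL : S_GMUL K)
    (hN2 : S_N2 K) (hRA : S_RA K) (hRB : S_RB K) (n h α a : ℕ) :
    (∃ I p : Ideal (MvPolynomial (Fin n) K), I ≠ ⊥ ∧ I ≠ ⊤ ∧ Hom I ∧ p ∈ maxInf I ∧ p.height = h ∧
      initDeg I = α ∧ Slope p I a) ↔
    1 ≤ h ∧ h ≤ n ∧ 1 ≤ α ∧ (a = α ∨ (3 ≤ n ∧ 2 ≤ h ∧ 2 ≤ α ∧ α < a)) := by
  constructor
  · rintro ⟨I, p, h0, h1, hI, hp, hh, rfl, hs⟩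
    obtain ⟨f, hf, hf0, hfd⟩ := exists_initDeg hI h0
    have u : Slope p I (initDeg I) → a = initDeg I := fun h' => by
      exact_mod_cast tendsto_nhds_unique hs h'
    have a1 : 1 ≤ initDeg I := le_of_mem_oI hfd hf0 (hI.le_mm h1 hf)
    have a2 : 1 ≤ h := Nat.one_le_iff_ne_zero.2 fun e => h0 (le_bot_iff.1 ((le_of_ass hp.1).trans_eq
      (Ideal.height_eq_zero_iff_eq_bot.1 (by rw [hh, e, Nat.cast_zero]))))
    have a3 : initDeg I ≤ a := by exact_mod_cast le_lim (low hHW hI h0 hp.1) hs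
    refine ⟨a2, by exact_mod_cast hh ▸ height_le (ass_wit hHW hI hp.1).1.ne_top, a1,
      or_iff_not_imp_left.2 fun e => ⟨?_, ?_, ?_, by omega⟩⟩ <;> by_contra e' <;> refine e (u ?_)
    · exact slope4 hHW hGCD hGMUL hI h0 hp fun g b1 b2 b3 => .inr (hN2 n _ (by omega) b1 b2 b3)
    · exact slope3 hHW hI h0 hp (by rw [hh, show h = 1 by omega, Nat.cast_one])
    · exact slope1 hHW hI hp ⟨f, hf, hf0, hfd,
        hLIN n I f hf hf0 ((by omega : initDeg I = 1) ▸ hfd)⟩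
  · rintro ⟨h1, h2, h3, rfl | ⟨h4, h5, h6, h7⟩⟩
    · obtain ⟨I, p, a1, a2, a3, a4, a5, a6, a7⟩ := hRA n h a h1 h2 h3
      exact ⟨I, p, a1, a2, a3, a4, a5, a6, tend (b := 1) (c := 0)
        (eventually_atTop.2 ⟨1, fun k hk => (a7 k hk).ge⟩)
        (eventually_atTop.2 ⟨1, fun k hk => by have := a7 k hk; omega⟩)⟩
    · obtain ⟨b, rfl⟩ := Nat.exists_eq_add_of_le' h6
      obtain ⟨e, rfl⟩ : ∃ e, a = b + (e + 1) + 1 := ⟨a - b - 2, by omega⟩
      obtain ⟨I, p, a1, a2, a3, a4, a5, a6, a7⟩ := hRB n h b (e + 1) h4 h5 h2 (by omega)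
      exact ⟨I, p, a1, a2, a3, a4, a5, a6, tend (b := 0) (c := e)
        (eventually_atTop.2 ⟨1, fun k hk => by have := a7 k hk; omega⟩)
        (eventually_atTop.2 ⟨1, fun k hk => by have := a7 k hk; omega⟩)⟩

theorem radical_of [IsAlgClosed K] (hHW : S_HW K) (hGCD : S_GCD K) (hGMUL : S_GMUL K)
    (hN2 : S_N2 K) (hP3 : S_P3 K) (hEXR : S_EXR K) (hEXT : S_EXT K) (n : ℕ) :
    (∀ I p : Ideal (MvPolynomial (Fin n) K), I ≠ ⊥ → I ≠ ⊤ → Hom I → I.IsRadical → p ∈ maxInf I →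
      Slope p I (initDeg I)) ↔ n ≤ 3 := by
  classical
  constructor
  · intro H
    by_contra hn
    obtain ⟨m, rfl⟩ : ∃ m, n = 2 + (m + 2) := ⟨n - 4, by omega⟩
    obtain ⟨c, hc⟩ := Infinite.exists_notMem_finset ({0, 1} : Finset K)
    obtain ⟨A, B, b1, b2, b3, b4, b5, b6, b7⟩ := hEXR m c (fun e => hc (by simp [e]))
      fun e => hc (by simp [e])
    obtain ⟨I, p, a1, a2, a3, a4, a5, a6, a7⟩ := hEXT _ A B b1 b2 b3 b4 b5 b6 b7
    have : 3 ≤ initDeg I := by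
      exact_mod_cast le_lim (b := 0) (eventually_atTop.2 ⟨1, a7⟩) (H I p a1 a2 a3 a4 a5)
    omega
  · intro hn I p h0 _ hI hr hp
    refine slope4 hHW hGCD hGMUL hI h0 hp fun g b1 b2 b3 => ?_
    rcases hn.eq_or_lt with rfl | hn
    · refine (hP3 inferInstance _ b1 (fun x ⟨N, hx⟩ => mem_colon.2 (hr ⟨N + 1, ?_⟩)) b2 b3).imp_left
        fun h => ⟨hr, h⟩
      rw [show (x * g) ^ (N + 1) = x * g ^ N * (x ^ N * g) by ring]
      exact Ideal.mul_mem_left _ _ (mem_colon.1 hx)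
    · exact .inr (hN2 n _ (by omega) b1 b2 b3)

end Pool.Agent.P.MP_ad771b_al.H
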