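import Pool.Agent.P.MP_ad771b_al.H.Base

/-! The statements of the steps. -/

set_option autoImplicit false

namespace Pool.Agent.P.MP_ad771b_al.H

open MvPolynomial Module Filter

variable (K : Type*) [Field K]

/-! ### Any number of variables -/

-- deps:
def S_HW : Prop := ∀ (n : ℕ) (J p : Ideal (MvPolynomial (Fin n) K)) (f : MvPolynomial (Fin n) K),
  Hom J → p.IsPrime → p = J.colon {f} →
    ∃ (g : MvPolynomial (Fin n) K) (d : ℕ), g.IsHomogeneous d ∧ J.colon {g} = p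

-- deps:
def S_LIN : Prop := ∀ (n : ℕ) (I : Ideal (MvPolynomial (Fin n) K)) (l : MvPolynomial (Fin n) K),
  l ∈ I → l ≠ 0 → l.IsHomogeneous 1 → ∀ k, (I ^ (k + 1)).colon {l} ≤ I ^ k

-- deps:
def S_GCD : Prop := ∀ (n : ℕ) (I : Ideal (MvPolynomial (Fin n) K)), Hom I → I ≠ ⊥ →
  ∃ (g : MvPolynomial (Fin n) K) (e : ℕ), g ≠ 0 ∧ g.IsHomogeneous e ∧
    I = Ideal.span {g} * I.colon {g} ∧ ∀ h, I.colon {g} ≤ Ideal.span {h} → IsUnit h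

-- deps:
def S_GMUL : Prop := ∀ (n : ℕ) (J : Ideal (MvPolynomial (Fin n) K)) (g : MvPolynomial (Fin n) K)
  (e : ℕ), Hom J → J ≠ ⊥ → g ≠ 0 → g.IsHomogeneous e →
    initDeg (Ideal.span {g} * J) = e + initDeg J ∧ (Good2 J → Good2 (Ideal.span {g} * J)) ∧
      ((J = ⊤ ∨ (Ideal.span {g} * J).IsRadical) → Good1 J → Good1 (Ideal.span {g} * J))

-- deps:
def S_N2 : Prop := ∀ (n : ℕ) (J : Ideal (MvPolynomial (Fin n) K)), n ≤ 2 → Hom J → J ≠ ⊤ →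
  (∀ h, J ≤ Ideal.span {h} → IsUnit h) → Good2 J

-- deps:
def S_RA : Prop := ∀ n h a : ℕ, 1 ≤ h → h ≤ n → 1 ≤ a →
  ∃ I p : Ideal (MvPolynomial (Fin n) K), I ≠ ⊥ ∧ I ≠ ⊤ ∧ Hom I ∧ p ∈ maxInf I ∧ p.height = h ∧
    initDeg I = a ∧ ∀ k, 1 ≤ k → vLocal p (I ^ k) + 1 = a * k

-- deps:
def S_RB : Prop := ∀ n h b e : ℕ, 3 ≤ n → 2 ≤ h → h ≤ n → 1 ≤ e →
  ∃ I p : Ideal (MvPolynomial (Fin n) K), I ≠ ⊥ ∧ I ≠ ⊤ ∧ Hom I ∧ p ∈ maxInf I ∧ p.height = h ∧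
    initDeg I = b + 2 ∧ ∀ k, 1 ≤ k → vLocal p (I ^ k) + 1 = (b + e + 1) * k + e

/-! ### Points of the plane -/

-- deps:
def S_PT : Prop := ∀ P : Ideal (S3 K), IsPt P → Hom P ∧ P ≤ mm K (Fin 3) ∧
  (∃ x y : S3 K, x.IsHomogeneous 1 ∧ y.IsHomogeneous 1 ∧ P = Ideal.span {x, y} ∧ IsRelPrime x y) ∧
  ∀ Q, IsPt Q → P ≠ Q →
    (∃ l ∈ Q, l ∉ P ∧ l.IsHomogeneous 1) ∧ mm K (Fin 3) ≤ (P ⊔ Q).radical

-- deps: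
def S_VEC : Prop := ∀ v : Fin 3 → K, v ≠ 0 →
  ∃ P : Ideal (S3 K), IsPt P ∧ ∀ (h : S3 K) (d : ℕ), h.IsHomogeneous d → (h ∈ P ↔ eval v h = 0)

-- deps:
def S_DIM : Prop := ∀ N : ℕ,
  2 * finrank K (homogeneousSubmodule (Fin 3) K N) = (N + 2) * (N + 1)

-- deps:
def S_J0 : Prop := ∀ (P : Ideal (S3 K)) (k N : ℕ) (U : Submodule K (S3 K)), IsPt P →
  (∀ s ∈ U, s.IsHomogeneous N ∧ s ∈ P ^ k) →
    finrank K U ≤ finrank K ↥(U ⊓ (P ^ (k + 1)).restrictScalars K) + (k + 1)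

-- deps: DIM J0
def S_J1 : Prop := ∀ (Z : Finset (Ideal (S3 K))) (w : Ideal (S3 K) → ℕ) (N : ℕ), Pts Z →
  (N + 2) * (N + 1) ≤ 2 * dV Z w N + ∑ P ∈ Z, w P * (w P + 1)

-- deps: DIM PT
def S_J2 : Prop := ∀ (Z : Finset (Ideal (S3 K))) (w : Ideal (S3 K) → ℕ) (N : ℕ), Pts Z →
  ∑ P ∈ Z, w P ≤ N → 2 * dV Z w N + ∑ P ∈ Z, w P * (w P + 1) ≤ (N + 2) * (N + 1)

-- deps: DIM
def S_CI : Prop := ∀ (f g : S3 K) (a b N : ℕ), f ≠ 0 → g ≠ 0 → f.IsHomogeneous a →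
  g.IsHomogeneous b → IsRelPrime f g → a + b ≤ N → (N + 2) * (N + 1) ≤ 2 * finrank K
    ↥(homogeneousSubmodule (Fin 3) K N ⊓ (Ideal.span {f, g}).restrictScalars K) + 2 * (a * b)

-- deps: DIM CI J1 J2
def S_BEZ : Prop := ∀ (Z : Finset (Ideal (S3 K))) (w : Ideal (S3 K) → ℕ) (q s : S3 K) (a b : ℕ),
  Pts Z → q ≠ 0 → s ≠ 0 → q.IsHomogeneous a → s.IsHomogeneous b → IsRelPrime q s →
    (∀ P ∈ Z, q ∈ P ∧ s ∈ P ^ w P) → ∑ P ∈ Z, w P ≤ a * b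

-- deps: PT VEC
def S_NEW : Prop := IsAlgClosed K → ∀ (q : S3 K) (c : ℕ) (Z : Finset (Ideal (S3 K))) (t : ℕ),
  Prime q → q.IsHomogeneous c → Pts Z →
    ∃ T : Finset (Ideal (S3 K)), T.card = t ∧ Pts T ∧ Disjoint T Z ∧ ∀ P ∈ T, q ∈ P

-- deps: J0 BEZ NEW
def S_STEP : Prop := IsAlgClosed K → ∀ (r : ℕ) (C : Cfg K r) (i : Fin r) (μ : Fin r → ℕ) (D : ℕ),
  (∀ U : Submodule K (S3 K), U ≤ C.W (μ + Pi.single i 1) (D + C.c i) → (∀ s ∈ U, C.q i ∣ s) →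
    finrank K U ≤ finrank K (C.W μ D)) ∧
  ∀ t, (D + C.c i) * C.c i < (μ i + 1) * C.z i + t →
    finrank K (C.W (μ + Pi.single i 1) (D + C.c i)) ≤ finrank K (C.W μ D) + t

-- deps: DIM J1 STEP
def S_X : Prop := IsAlgClosed K → ∀ (r : ℕ) (C : Cfg K r) (ρ : Fin r → ℕ) (τ : ℕ) (i : Fin r),
  (∀ j, ρ j * C.z j ≤ (τ + C.dg ρ) * C.c j) → ρ i * C.z i < (τ + C.dg ρ) * C.c i →
    ∃ (k m : ℕ) (s : S3 K), 0 < m ∧ ¬ C.q i ∣ s ∧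
      s ∈ C.W (k • ρ + Pi.single i m) (k * τ + C.dg (k • ρ + Pi.single i m))

-- deps: J1 X
def S_NUM : Prop := IsAlgClosed K → ∀ (r : ℕ) (C : Cfg K r) (i : Fin r) (δ : ℕ),
  (∀ j, C.z j ≤ C.c j * (C.dg 1 + δ)) →
  (∀ (j D u : ℕ) (s : S3 K), s ∈ V C.Z (fun _ => j) D → ¬ C.q i ^ (u + 1) ∣ s →
    j * (C.dg 1 + δ) ≤ δ * u + D) → C.dg 1 * (C.dg 1 + δ) ≤ C.Z.card

-- deps:
def S_VB : Prop := ∀ (I : Ideal (S3 K)) (q : S3 K) (a δ : ℕ), Hom I →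
  (∀ h ∈ I, ∀ D, h.IsHomogeneous D → h ≠ 0 → a ≤ D) →
  (∀ h ∈ I, ∀ D, h.IsHomogeneous D → ¬ q ∣ h → a + δ ≤ D) →
    ∀ (M D u : ℕ) (h : S3 K), h ∈ I ^ M → h.IsHomogeneous D → ¬ q ^ (u + 1) ∣ h →
      M * (a + δ) ≤ δ * u + D

-- deps:
def S_KOS : Prop := ∀ f g : S3 K, f ≠ 0 → IsRelPrime f g →
  (∀ h, (∀ i, X i * h ∈ Ideal.span {f, g}) → h ∈ Ideal.span {f, g}) ∧
    ∀ k, (Ideal.span {f, g} ^ (k + 1)).colon {f} ≤ Ideal.span {f, g} ^ k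

-- deps: CI J2 KOS
def S_EQ : Prop := ∀ (I : Ideal (S3 K)) (Z : Finset (Ideal (S3 K))) (f g : S3 K) (a b : ℕ),
  Hom I → Pts Z → (∀ P ∈ Z, I ≤ P) → f ∈ I → g ∈ I → f ≠ 0 → g ≠ 0 → f.IsHomogeneous a →
    g.IsHomogeneous b → IsRelPrime f g → a * b ≤ Z.card → I = Ideal.span {f, g}

-- deps: PT VEC
def S_STR : Prop := IsAlgClosed K → ∀ I : Ideal (S3 K), Hom I → I.IsRadical →
  (∀ g, I ≤ Ideal.span {g} → IsUnit g) → ∃ Z : Finset (Ideal (S3 K)), Pts Z ∧ (∀ P ∈ Z, I ≤ P) ∧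
    ∀ h ∈ mm K (Fin 3), (∀ P ∈ Z, h ∈ P) → h ∈ I

-- deps: PT
def S_SAT : Prop := ∀ (I : Ideal (S3 K)) (Z : Finset (Ideal (S3 K))), Pts Z →
  (∀ h ∈ mm K (Fin 3), (∀ P ∈ Z, h ∈ P) → h ∈ I) → ∀ (j : ℕ) (s : S3 K), (∀ P ∈ Z, s ∈ P ^ j) →
    mm K (Fin 3) ≤ ((I ^ j).colon {s}).radical

-- deps:
def S_SQF : Prop := ∀ I : Ideal (S3 K), Hom I → I.IsRadical → I ≠ ⊥ → I ≠ ⊤ →
  ∃ (r : ℕ) (q : Fin r → S3 K) (c : Fin r → ℕ), 0 < r ∧ (∀ i, Prime (q i)) ∧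
    (∀ i, (q i).IsHomogeneous (c i)) ∧ (∀ i, 0 < c i) ∧ (∀ i j, i ≠ j → ¬ q i ∣ q j) ∧
      ∏ i, q i ∈ I ∧ ∑ i, c i = initDeg I

-- deps: STR SAT SQF VB BEZ NUM EQ KOS
def S_P3 : Prop := IsAlgClosed K → ∀ I : Ideal (S3 K), Hom I → I.IsRadical → I ≠ ⊤ →
  (∀ g, I ≤ Ideal.span {g} → IsUnit g) → Good1 I ∨ Good2 I

/-! ### The radical example -/

-- deps:
def S_EXA : Prop := ∀ (m : ℕ) (A B : MvPolynomial (Fin m) K), IsRelPrime A B →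
  ∀ k s, s ∈ exJ A B ^ k ↔ exC A B k s

-- deps: EXA
def S_EXB : Prop := ∀ (m : ℕ) (A B : MvPolynomial (Fin m) K), IsRelPrime A B → IsRadical A →
  IsRadical B → (exJ A B).IsRadical

-- deps: EXA
def S_EXC : Prop := ∀ (m : ℕ) (A B : MvPolynomial (Fin m) K), IsRelPrime A B → A ≠ 0 → B ≠ 0 →
  (∀ k, (exJ A B ^ (k + 1)).colon {(X 0 * C B) ^ k * C (A * B)} = mm _ (Fin 2)) ∧
    ∀ k s, mm _ (Fin 2) ≤ (exJ A B ^ k).colon {s} → (exJ A B ^ k).colon {s} ≠ ⊤ →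
      (exJ A B ^ k).colon {s} ≤ mm _ (Fin 2) ∧ ∃ u : Fin 2 →₀ ℕ, u 0 + u 1 < k ∧ coeff u s ≠ 0 ∧
        A ^ (k - u 0) * B ^ (k - u 1) ∣ coeff u s

-- deps:
def S_EXR : Prop := ∀ (m : ℕ) (c : K), c ≠ 0 → c ≠ 1 →
  ∃ A B : MvPolynomial (Fin (m + 2)) K, A.IsHomogeneous 2 ∧ B.IsHomogeneous 2 ∧ A ≠ 0 ∧ B ≠ 0 ∧
    IsRelPrime A B ∧ IsRadical A ∧ IsRadical B

-- deps: EXB EXC
def S_EXT : Prop := ∀ (m : ℕ) (A B : MvPolynomial (Fin m) K), A.IsHomogeneous 2 →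
  B.IsHomogeneous 2 → A ≠ 0 → B ≠ 0 → IsRelPrime A B → IsRadical A → IsRadical B →
    ∃ I p : Ideal (MvPolynomial (Fin (2 + m)) K), I ≠ ⊥ ∧ I ≠ ⊤ ∧ Hom I ∧ I.IsRadical ∧
      p ∈ maxInf I ∧ initDeg I ≤ 2 ∧ ∀ k, 1 ≤ k → 3 * k ≤ vLocal p (I ^ k)

end Pool.Agent.P.MP_ad771b_al.H
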